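import Pool.Agent.Helper5.Iso.Final

/-!
# Assembly: no isolated point of `N` with `γ λ ≤ 0`
-/

namespace Pool.Agent.Iso

open Set

/-- Points of the common-zero set accumulate at `(z, w)`. -/
def Near (z w : ℝ) : Prop := ∀ ε : ℝ, 0 < ε → ∃ z' w' : ℝ, |z' - z| < ε ∧ |w' - w| < ε ∧
  (z' ≠ z ∨ w' ≠ w) ∧ |z'| < 1 ∧ |w'| < 1 ∧ ∃ b, IsB b ∧ ev b z' = 0 ∧ ev b w' = 0

theorem Near.swap {z w : ℝ} (h : Near z w) : Near w z := by
  intro ε hε
  obtain ⟨z', w', h1, h2, h3, h4, h5, b, h6, h7, h8⟩ := h ε hε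
  exact ⟨w', z', h2, h1, h3.symm, h5, h4, b, h6, h8, h7⟩

/-- `f(-x)`. -/
def alt (a : ℕ → ℝ) : ℕ → ℝ := fun n => (-1) ^ n * a n

theorem IsB.alt {a : ℕ → ℝ} (ha : IsB a) : IsB (alt a) := by
  refine ⟨by simp [Iso.alt, ha.1], fun n => ?_⟩
  unfold Iso.alt
  rcases neg_one_pow_eq_or ℝ n with h | h <;> rcases ha.2 n with h' | h' | h' <;>
    rw [h, h'] <;> norm_num

theorem ev_alt (a : ℕ → ℝ) (x : ℝ) : ev (alt a) x = ev a (-x) := by
  unfold ev alt
  apply tsum_congr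
  intro n
  rw [neg_pow x n]; ring

theorem dv_alt (a : ℕ → ℝ) (x : ℝ) : dv (alt a) x = dv a (-x) := by
  unfold dv alt
  apply tsum_congr
  intro n
  rw [neg_pow x n]; ring

theorem Near.neg {z w : ℝ} (h : Near z w) : Near (-z) (-w) := by
  intro ε hε
  obtain ⟨z', w', h1, h2, h3, h4, h5, b, h6, h7, h8⟩ := h ε hε
  refine ⟨-z', -w', ?_, ?_, ?_, by rwa [abs_neg], by rwa [abs_neg], alt b, h6.alt, ?_, ?_⟩
  · rw [show -z' - -z = -(z' - z) by ring, abs_neg]; exact h1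
  · rw [show -w' - -w = -(w' - w) by ring, abs_neg]; exact h2
  · rcases h3 with h3 | h3
    · left; intro h; apply h3; linarith
    · right; intro h; apply h3; linarith
  · rw [ev_alt, neg_neg, h7]
  · rw [ev_alt, neg_neg, h8]

theorem near_of_perturb {a : ℕ → ℝ} (ha : IsB a) {z w : ℝ} (hz : |z| < 1) (hw : |w| < 1)
    (hfz : ev a z = 0) (hfw : ev a w = 0) (hD : dv a z ≠ 0)
    (hw' : dv a w ≠ 0 ∨
      ∀ σ : ℝ, (σ = 1 ∨ σ = -1) → ∀ N₀ : ℕ, ∃ n, N₀ ≤ n ∧ a n * w ^ n ≠ σ * |w| ^ n) :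
    Near z w := by
  intro ε hε
  obtain ⟨z', w', h1, h2, h3, h4, h5, h6⟩ := perturb ha hz hw hfz hfw hD hw' hε
  exact ⟨z', w', h1, h2, Or.inl h3, h4, h5, h6⟩

/-- a root `-μ` with `μ ≤ 1/2` excludes positive roots -/
theorem half_lt_of_roots {a : ℕ → ℝ} (ha : IsB a) {γ μ : ℝ} (hγ0 : 0 < γ) (hγ1 : γ < 1)
    (hμ0 : 0 < μ) (hμ1 : μ < 1) (h1 : ev a γ = 0) (h3 : ev a (-μ) = 0) : 1 / 2 < μ := by
  by_contra hcon
  push Not at hcon
  have hμa : |μ| < 1 := by rw [abs_of_pos hμ0]; exact hμ1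
  have hγa : |γ| < 1 := by rw [abs_of_pos hγ0]; exact hγ1
  have hμn : |(-μ)| < 1 := by rw [abs_neg]; exact hμa
  have t3 := hasSum_ev_tail ha hμn h3
  have g3 := (hasSum_geometric_of_norm_lt_one (show ‖μ‖ < 1 from hμa))
  have c3 := (g3.mul_left μ).add t3
  have e : (fun k : ℕ => μ * μ ^ k + a (k + 1) * (-μ) ^ (k + 1)) =
      fun k : ℕ => Dg a k * μ ^ (k + 1) := by
    funext k
    unfold Dg
    rw [neg_pow μ (k + 1)]; ring
  rw [e] at c3
  have h1μ : 0 < 1 - μ := by linarith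
  have hle : μ * (1 - μ)⁻¹ + -1 ≤ 0 := by
    have : μ * (1 - μ)⁻¹ ≤ 1 := by
      rw [← div_eq_mul_inv, div_le_one h1μ]; linarith
    linarith
  have hD : ∀ k, Dg a k = 0 := by
    intro k
    have h := le_hasSum c3 k (fun j _ => mul_nonneg (Dg_nonneg ha j) (pow_nonneg hμ0.le _))
    have h0 := mul_nonneg (Dg_nonneg ha k) (pow_nonneg hμ0.le (k + 1))
    have h4 : Dg a k * μ ^ (k + 1) = 0 := le_antisymm (le_trans h hle) h0
    rcases mul_eq_zero.1 h4 with h5 | h5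
    · exact h5
    · exact absurd h5 (pow_ne_zero _ hμ0.ne')
  have t1 := hasSum_ev_tail ha hγa h1
  have g1 := (hasSum_geometric_of_norm_lt_one (show ‖(-γ)‖ < 1 by
    rw [norm_neg]; exact hγa)).mul_left γ
  have e2 : (fun k : ℕ => a (k + 1) * γ ^ (k + 1)) = fun k : ℕ => γ * (-γ) ^ k := by
    funext k
    have h5 := hD k
    unfold Dg at h5
    have h6 : (-1 : ℝ) ^ k * (-1) ^ k = 1 := by rw [← mul_pow]; norm_num
    have h7 : a (k + 1) = (-1) ^ k := by
      rw [pow_succ] at h5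
      have : (-1 : ℝ) ^ k * ((-1) ^ k * a (k + 1)) = (-1) ^ k := by
        have : (-1 : ℝ) ^ k * a (k + 1) = 1 := by linarith
        rw [this, mul_one]
      rw [← mul_assoc, h6, one_mul] at this
      exact this
    rw [h7, neg_pow γ k]; ring
  rw [e2] at t1
  have := t1.unique g1
  have h8 : 0 < γ * (1 - -γ)⁻¹ := by
    rw [sub_neg_eq_add]; positivity
  linarith

/-- The core: double zero at `γ > 0`, a zero at `-μ < 0`, `γ μ < 1/2`. -/
theorem core {a : ℕ → ℝ} (ha : IsB a) {γ μ : ℝ} (hγ0 : 0 < γ) (hγ1 : γ < 1)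
    (hμ0 : 0 < μ) (hμ1 : μ < 1) (hp : γ * μ < 1 / 2)
    (h1 : ev a γ = 0) (h2 : dv a γ = 0) (h3 : ev a (-μ) = 0) : Near γ (-μ) := by
  have P : Par γ μ := ⟨hγ0, hγ1, half_lt_of_roots ha hγ0 hγ1 hμ0 hμ1 h1 h3, hμ1⟩
  have hμn : |(-μ)| < 1 := by rw [abs_neg, abs_of_pos hμ0]; exact hμ1
  have hX : 3247 / 10000 ≤ γ ^ 2 * μ := by
    have hj := jensen3 ha hγ0 hγ1 hμ0 hμ1 h1 h2 h3
    by_contra hcon
    push Not at hcon
    have h0 : 0 ≤ γ ^ 2 * μ := by positivity
    have := pow_lt_pow_left₀ hcon h0 two_ne_zero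
    norm_num at this
    linarith
  obtain ⟨hO, hT⟩ := overlap_all P ha h1 h2 h3 hp hX
  obtain ⟨w, hw, hw0, hw1⟩ := exists_orb_of_root P ha h3
  have hfac : (1 + γ / μ) ≠ 0 := by positivity
  have hev : ev w γ = 0 := by
    have := ev_rel ha.bd hw.bd P.absg (by rw [ha.1, hw0]) hw1
    rw [h1] at this
    rcases mul_eq_zero.1 this.symm with h | h
    · exact absurd h hfac
    · exact h
  have hdv : dv w γ = 0 := by
    have := dv_rel ha.bd hw.bd P.absg hw1
    rw [h2, hev, mul_zero, add_zero] at this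
    rcases mul_eq_zero.1 this.symm with h | h
    · exact absurd h hfac
    · exact h
  have hgood := good_one P hw hw0 hev hdv hT
  obtain ⟨b, hb, hb1, hb2, hb3, hb4⟩ := flex P hO hgood
  by_cases hd : dv b γ = 0
  · have hd2 : dv b (-μ) ≠ 0 := by
      intro hd2
      have hj := jensen4 hb hγ0 hγ1 hμ0 hμ1 hb1 hd hb2 hd2
      have h0 : 0 ≤ γ * μ := by positivity
      have := pow_lt_pow_left₀ hp h0 (four_ne_zero)
      norm_num at this
      linarith
    exact (near_of_perturb hb hμn P.absg hb2 hb1 hd2 (Or.inr hb3)).swap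
  · exact near_of_perturb hb P.absg hμn hb1 hb2 hd (Or.inr hb4)

/-- double zero at the first coordinate, opposite signs -/
theorem core' {a : ℕ → ℝ} (ha : IsB a) {z w : ℝ} (hz : |z| < 1) (hw : |w| < 1)
    (hneg : z * w < 0) (hp : |z * w| < 1 / 2)
    (h1 : ev a z = 0) (h2 : dv a z = 0) (h3 : ev a w = 0) : Near z w := by
  rw [abs_of_neg hneg] at hp
  have hz' := abs_lt.1 hz
  have hw' := abs_lt.1 hw
  rcases mul_neg_iff.1 hneg with ⟨hz0, hw0⟩ | ⟨hz0, hw0⟩
  · have := core ha (γ := z) (μ := -w) hz0 hz'.2 (by linarith) (by linarith) (by linarith) h1 h2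
      (by rw [neg_neg]; exact h3)
    rwa [neg_neg] at this
  · have := core ha.alt (γ := -z) (μ := w) (by linarith) (by linarith) hw0 hw'.2 (by linarith)
      (by rw [ev_alt, neg_neg]; exact h1) (by rw [dv_alt, neg_neg]; exact h2)
      (by rw [ev_alt, neg_neg]; exact h3)
    have h := this.neg
    rwa [neg_neg, neg_neg] at h

/-- opposite signs, product less than one half -/
theorem near_small {a : ℕ → ℝ} (ha : IsB a) {z w : ℝ} (hz : |z| < 1) (hw : |w| < 1)
    (hneg : z * w < 0) (hp : |z * w| < 1 / 2)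
    (h1 : ev a z = 0) (h3 : ev a w = 0) : Near z w := by
  by_cases h2 : dv a z = 0
  · exact core' ha hz hw hneg hp h1 h2 h3
  by_cases h4 : dv a w = 0
  · exact (core' ha hw hz (by rwa [mul_comm]) (by rwa [mul_comm]) h3 h4 h1).swap
  · exact near_of_perturb ha hz hw h1 h3 h2 (Or.inl h4)

/-- product at least one half -/
theorem near_big {z w : ℝ} (hz : |z| < 1) (hw : |w| < 1) (hp : 1 / 2 ≤ |z * w|) : Near z w := by
  intro ε hε
  have hz0 : z ≠ 0 := by rintro rfl; norm_num at hp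
  have hw0 : w ≠ 0 := by rintro rfl; norm_num at hp
  -- factor 1 + s
  obtain ⟨s, hs0, hs1, hs2, hs3⟩ : ∃ s : ℝ, 0 < s ∧ s < ε ∧ (1 + s) * |z| < 1 ∧
      (1 + s) * |w| < 1 := by
    have hzp : 0 < 1 - |z| := by linarith
    have hwp : 0 < 1 - |w| := by linarith
    refine ⟨min (ε / 2) (min ((1 - |z|) / 2) ((1 - |w|) / 2)), by positivity, ?_, ?_, ?_⟩
    · have := min_le_left (ε / 2) (min ((1 - |z|) / 2) ((1 - |w|) / 2))
      linarith
    · have h1 : min (ε / 2) (min ((1 - |z|) / 2) ((1 - |w|) / 2)) ≤ (1 - |z|) / 2 :=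
        le_trans (min_le_right _ _) (min_le_left _ _)
      have h2 : 0 < min (ε / 2) (min ((1 - |z|) / 2) ((1 - |w|) / 2)) := by positivity
      nlinarith [abs_nonneg z]
    · have h1 : min (ε / 2) (min ((1 - |z|) / 2) ((1 - |w|) / 2)) ≤ (1 - |w|) / 2 :=
        le_trans (min_le_right _ _) (min_le_right _ _)
      have h2 : 0 < min (ε / 2) (min ((1 - |z|) / 2) ((1 - |w|) / 2)) := by positivity
      nlinarith [abs_nonneg w]
  have habs1 : |(1 + s) * z| = (1 + s) * |z| := by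
    rw [abs_mul, abs_of_pos (by linarith : 0 < 1 + s)]
  have habs2 : |(1 + s) * w| = (1 + s) * |w| := by
    rw [abs_mul, abs_of_pos (by linarith : 0 < 1 + s)]
  refine ⟨(1 + s) * z, (1 + s) * w, ?_, ?_, ?_, by rwa [habs1], by rwa [habs2], ?_⟩
  · rw [show (1 + s) * z - z = s * z by ring, abs_mul, abs_of_pos hs0]
    nlinarith [abs_nonneg z]
  · rw [show (1 + s) * w - w = s * w by ring, abs_mul, abs_of_pos hs0]
    nlinarith [abs_nonneg w]
  · left
    intro h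
    have : s * z = 0 := by linarith
    rcases mul_eq_zero.1 this with h | h
    · linarith
    · exact hz0 h
  · obtain ⟨b, hb, hb1, hb2⟩ := exists_of_half_lt (γ := (1 + s) * z) (l := (1 + s) * w)
      (by rwa [habs1]) (by rwa [habs2]) (by
        rw [show (1 + s) * z * ((1 + s) * w) = (1 + s) ^ 2 * (z * w) by ring, abs_mul,
          abs_of_pos (by positivity : 0 < (1 + s) ^ 2)]
        nlinarith)
    exact ⟨b, hb, hb1, hb2⟩

theorem near_of_opposite {a : ℕ → ℝ} (ha : IsB a) {z w : ℝ} (hz : |z| < 1) (hw : |w| < 1)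
    (hneg : z * w < 0) (h1 : ev a z = 0) (h3 : ev a w = 0) : Near z w := by
  rcases lt_or_ge |z * w| (1 / 2) with h | h
  · exact near_small ha hz hw hneg h h1 h3
  · exact near_big hz hw h

/-- No point `(γ, λ)` with `γ λ ≤ 0` is isolated in `N`. -/
theorem not_isolated {p : ℝ × ℝ} (hp : p.1 * p.2 ≤ 0) : ¬ IsIsolated p := by
  rintro ⟨hpN, U, hU, hUN⟩
  have hpU : p ∈ U := by
    have : p ∈ U ∩ N := by rw [hUN]; exact mem_singleton p
    exact this.1
  obtain ⟨ε, hε, hball⟩ := Metric.isOpen_iff.1 hU p hpU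
  -- it suffices to find another point of N in the ball
  suffices h : ∃ q : ℝ × ℝ, q ∈ N ∧ q ≠ p ∧ |q.1 - p.1| < ε ∧ |q.2 - p.2| < ε by
    obtain ⟨q, hq, hne, h1, h2⟩ := h
    have hqU : q ∈ U := by
      apply hball
      rw [Metric.mem_ball, Prod.dist_eq, max_lt_iff, Real.dist_eq, Real.dist_eq]
      exact ⟨h1, h2⟩
    have : q ∈ U ∩ N := ⟨hqU, hq⟩
    rw [hUN] at this
    exact hne this
  obtain ⟨hp1, hp2, hcase⟩ := hpN
  rcases hcase with ⟨a, ha, h1, h2⟩ | hdiag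
  · have hz0 : p.1 ≠ 0 := by
      intro h
      rw [h, ev_zero ha] at h1
      norm_num at h1
    have hw0 : p.2 ≠ 0 := by
      intro h
      rw [h, ev_zero ha] at h2
      norm_num at h2
    have hneg : p.1 * p.2 < 0 := lt_of_le_of_ne hp (mul_ne_zero hz0 hw0)
    obtain ⟨z', w', c1, c2, c3, c4, c5, b, c6, c7, c8⟩ :=
      near_of_opposite ha hp1 hp2 hneg h1 h2 ε hε
    refine ⟨(z', w'), ⟨c4, c5, Or.inl ⟨b, c6, c7, c8⟩⟩, ?_, c1, c2⟩
    intro h
    rcases c3 with c3 | c3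
    · apply c3; rw [← h]
    · apply c3; rw [← h]
  · have h0 : p.1 = 0 := by
      rw [← hdiag] at hp
      have : p.1 * p.1 = 0 := le_antisymm hp (mul_self_nonneg _)
      exact mul_self_eq_zero.1 this
    have h0' : p.2 = 0 := by rw [← hdiag]; exact h0
    have hm : 0 < min (ε / 2) (1 / 2) := by positivity
    have hm1 : min (ε / 2) (1 / 2) ≤ ε / 2 := min_le_left _ _
    have hm2 : min (ε / 2) (1 / 2) ≤ 1 / 2 := min_le_right _ _
    refine ⟨(min (ε / 2) (1 / 2), min (ε / 2) (1 / 2)), ⟨?_, ?_, Or.inr rfl⟩, ?_, ?_, ?_⟩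
    · simp only; rw [abs_of_pos hm]; linarith
    · simp only; rw [abs_of_pos hm]; linarith
    · intro h
      rw [← h] at h0
      simp only at h0
      linarith
    · simp only; rw [h0, sub_zero, abs_of_pos hm]; linarith
    · simp only; rw [h0', sub_zero, abs_of_pos hm]; linarith

end Pool.Agent.Iso
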