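import Pool.Agent.Helper5.Iso.Orbit

/-!
# From orbits to power series and back
-/

namespace Pool.Agent.Iso

open Set

variable {γ μ : ℝ}

theorem IsB.bd {a : ℕ → ℝ} (ha : IsB a) : ∀ n, |a n| ≤ 1 := ha.abs_le

/-- `f(x) = (1 + x/μ) Q(x)`. -/
theorem ev_rel {a w : ℕ → ℝ} {C C' x : ℝ} (ha : ∀ n, |a n| ≤ C) (hw : ∀ n, |w n| ≤ C')
    (hx : |x| < 1) (h0 : a 0 = w 0) (h1 : ∀ n, a (n + 1) = w (n + 1) + w n / μ) :
    ev a x = (1 + x / μ) * ev w x := by
  have hsa := summable_of_bd ha hx
  have hsw := summable_of_bd hw hx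
  have hsw1 : Summable (fun n : ℕ => w (n + 1) * x ^ n) :=
    summable_of_bd (fun n => hw (n + 1)) hx
  rw [ev_succ hsa, h0]
  have e : ev (fun n => a (n + 1)) x = ev (fun n => w (n + 1)) x + ev w x / μ := by
    unfold ev
    rw [← tsum_div_const, ← Summable.tsum_add hsw1 (hsw.div_const μ)]
    apply tsum_congr
    intro n
    simp only [h1]
    ring
  rw [e]
  have e2 := ev_succ hsw
  have : x * ev (fun n => w (n + 1)) x = ev w x - w 0 := by rw [e2]; ring
  calc w 0 + x * (ev (fun n => w (n + 1)) x + ev w x / μ)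
      = w 0 + x * ev (fun n => w (n + 1)) x + x * (ev w x / μ) := by ring
    _ = _ := by rw [this]; ring

theorem summable_dv {w : ℕ → ℝ} {C x : ℝ} (hw : ∀ n, |w n| ≤ C) (hx : |x| < 1) :
    Summable (fun n : ℕ => (n : ℝ) * w n * x ^ n) := by
  have h := summable_pow_mul_geometric_of_norm_lt_one (R := ℝ) 1 (r := |x|) (by
    rw [Real.norm_eq_abs, abs_abs]; exact hx)
  refine Summable.of_norm_bounded (g := fun n : ℕ => C * ((n : ℝ) ^ 1 * |x| ^ n)) (h.mul_left C) ?_
  intro n
  rw [Real.norm_eq_abs, abs_mul, abs_mul, abs_pow, Nat.abs_cast, pow_one]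
  have := hw n
  have h2 : 0 ≤ (n : ℝ) * |x| ^ n := by positivity
  nlinarith [mul_le_mul_of_nonneg_left this h2]

theorem dv_succ {w : ℕ → ℝ} {C x : ℝ} (hw : ∀ n, |w n| ≤ C) (hx : |x| < 1) :
    dv w x = x * (dv (fun n => w (n + 1)) x + ev (fun n => w (n + 1)) x) := by
  have hs := summable_dv hw hx
  have hs1 := summable_dv (fun n => hw (n + 1)) hx
  have hs2 := summable_of_bd (fun n => hw (n + 1)) hx
  unfold dv ev
  rw [hs.tsum_eq_zero_add, ← Summable.tsum_add hs1 hs2, ← tsum_mul_left]
  simp only [Nat.cast_zero, zero_mul, zero_add]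
  apply tsum_congr
  intro n
  push_cast
  ring

/-- `x f'(x) = (1 + x/μ) x Q'(x) + (x/μ) Q(x)`. -/
theorem dv_rel {a w : ℕ → ℝ} {C C' x : ℝ} (ha : ∀ n, |a n| ≤ C) (hw : ∀ n, |w n| ≤ C')
    (hx : |x| < 1) (h1 : ∀ n, a (n + 1) = w (n + 1) + w n / μ) :
    dv a x = (1 + x / μ) * dv w x + x / μ * ev w x := by
  have hsw := summable_of_bd hw hx
  have hsw1 : Summable (fun n : ℕ => w (n + 1) * x ^ n) :=
    summable_of_bd (fun n => hw (n + 1)) hx
  have hdw := summable_dv hw hx
  have hdw1 := summable_dv (fun n => hw (n + 1)) hx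
  rw [dv_succ ha hx]
  have e : ev (fun n => a (n + 1)) x = ev (fun n => w (n + 1)) x + ev w x / μ := by
    unfold ev
    rw [← tsum_div_const, ← Summable.tsum_add hsw1 (hsw.div_const μ)]
    apply tsum_congr
    intro n
    simp only [h1]
    ring
  have e' : dv (fun n => a (n + 1)) x = dv (fun n => w (n + 1)) x + dv w x / μ := by
    unfold dv
    rw [← tsum_div_const, ← Summable.tsum_add hdw1 (hdw.div_const μ)]
    apply tsum_congr
    intro n
    simp only [h1]
    ring
  rw [e, e', dv_succ hw hx]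
  ring

/-- The orbit of a power series vanishing at `-μ`. -/
theorem exists_orb_of_root (P : Par γ μ) {a : ℕ → ℝ} (ha : IsB a) (h : ev a (-μ) = 0) :
    ∃ w, Orb μ w ∧ w 0 = 1 ∧ ∀ n, a (n + 1) = w (n + 1) + w n / μ := by
  let w : ℕ → ℝ := fun n => Nat.rec 1 (fun k x => a (k + 1) - x / μ) n
  have hw0 : w 0 = 1 := rfl
  have hw1 : ∀ n, w (n + 1) = a (n + 1) - w n / μ := fun n => rfl
  have hμ := P.mpos
  have hμ0 := hμ.ne'
  have habs : |(-μ)| < 1 := by rw [abs_neg, abs_of_pos hμ]; exact P.m1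
  have hsa := summable_of_bd ha.bd habs
  have hpart : ∀ n, w n * (-μ) ^ n = ∑ k ∈ Finset.range (n + 1), a k * (-μ) ^ k := by
    intro n
    induction n with
    | zero => simp [hw0, ha.1]
    | succ n ih =>
      rw [Finset.sum_range_succ, ← ih, hw1, pow_succ]
      field_simp
      ring
  have hbd : ∀ n, |w n| ≤ μ / (1 - μ) := by
    intro n
    have h1 := hsa.sum_add_tsum_nat_add (n + 1)
    rw [show (∑' n : ℕ, a n * (-μ) ^ n) = 0 from h, ← hpart] at h1
    have h2 : (∑' i : ℕ, a (i + (n + 1)) * (-μ) ^ (i + (n + 1))) =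
        (-μ) ^ (n + 1) * ev (fun i => a (i + (n + 1))) (-μ) := by
      unfold ev
      rw [← tsum_mul_left]
      apply tsum_congr
      intro i
      rw [pow_add]; ring
    rw [h2] at h1
    have h3 : w n = μ * ev (fun i => a (i + (n + 1))) (-μ) := by
      have hp : ((-μ) ^ n) ≠ 0 := pow_ne_zero _ (neg_ne_zero.2 hμ0)
      apply mul_right_cancel₀ hp
      rw [pow_succ] at h1
      linarith
    have h4 := abs_ev_le (w := fun i => a (i + (n + 1))) (C := 1) (fun i => ha.bd _) habs
    rw [abs_neg, abs_of_pos hμ] at h4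
    rw [h3, abs_mul, abs_of_pos hμ, div_eq_mul_one_div μ (1 - μ)]
    exact mul_le_mul_of_nonneg_left h4 hμ.le
  refine ⟨w, ⟨hbd, fun n => ?_⟩, hw0, fun n => ?_⟩
  · rw [hw1]
    rcases ha.2 (n + 1) with h | h | h
    · left; rw [h]; ring
    · right; left; rw [h]; ring
    · right; right; rw [h]; ring
  · rw [hw1]; ring

/-- Sum of tails. -/
theorem dv_eq_tails {w : ℕ → ℝ} {C x : ℝ} (hw : ∀ n, |w n| ≤ C) (hx : |x| < 1) :
    dv w x = ∑' n : ℕ, x ^ (n + 1) * ev (fun k => w (k + (n + 1))) x := by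
  set t : ℕ → ℝ := fun n => ev (fun k => w (k + n)) x with ht
  have htb : ∀ n, |t n| ≤ C / (1 - |x|) := fun n => abs_ev_le (fun k => hw (k + n)) hx
  have hrec : ∀ n, t n = w n + x * t (n + 1) := by
    intro n
    have := ev_succ (w := fun k => w (k + n)) (γ := x) (summable_of_bd (fun k => hw (k + n)) hx)
    simp only [ht]
    rw [this]
    simp only [zero_add]
    congr 3
    funext k
    rw [show k + 1 + n = k + (n + 1) by ring]
  have hs := summable_of_bd htb hx
  have hd := summable_dv htb hx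
  have hs1 := summable_of_bd (fun n => htb (n + 1)) hx
  have hd1 := summable_dv (fun n => htb (n + 1)) hx
  have e1 : dv w x = dv t x - x * dv (fun n => t (n + 1)) x := by
    unfold dv
    rw [← tsum_mul_left, ← Summable.tsum_sub hd (hd1.mul_left x)]
    apply tsum_congr
    intro n
    have := hrec n
    rw [show w n = t n - x * t (n + 1) by linarith]
    ring
  rw [e1, dv_succ htb hx]
  have e2 : (∑' n : ℕ, x ^ (n + 1) * ev (fun k => w (k + (n + 1))) x) =
      x * ev (fun n => t (n + 1)) x := by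
    conv_rhs => unfold ev
    rw [← tsum_mul_left]
    apply tsum_congr
    intro n
    rw [pow_succ]
    ring
  rw [e2]
  ring

/-- If `f` has a double zero at `γ`, there are orbits of both signs from `1`. -/
theorem good_one (P : Par γ μ) {w : ℕ → ℝ} (hw : Orb μ w) (h0 : w 0 = 1)
    (hev : ev w γ = 0) (hdv : dv w γ = 0)
    (hT : ∀ q, |q| ≤ μ / (1 - μ) → q / (1 + γ) ≤ S γ μ q) : Good γ μ 1 0 := by
  have hg1 : 0 < 1 + γ := by linarith [P.g0]
  have h1Y : |(1 : ℝ)| ≤ μ / (1 - μ) := by rw [abs_one]; exact P.Yone.le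
  refine ⟨P.exists_lt_of_lt_S h1Y (lt_of_lt_of_le (by positivity) (hT 1 h1Y)), ?_⟩
  by_contra hcon
  push Not at hcon
  set t : ℕ → ℝ := fun n => ev (fun k => w (k + n)) γ with ht
  have hrec : ∀ n, t n = w n + γ * t (n + 1) := by
    intro n
    have := ev_succ (w := fun k => w (k + n)) (γ := γ)
      (summable_of_bd (fun k => hw.bd (k + n)) P.absg)
    simp only [ht]
    rw [this]
    simp only [zero_add]
    congr 3
    funext k
    rw [show k + 1 + n = k + (n + 1) by ring]
  have key : ∀ n, ∀ v ∈ V γ μ (w n), t n ≤ v := by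
    intro n
    induction n with
    | zero =>
      intro v hv
      rw [h0] at hv
      have e : t 0 = 0 := hev
      rw [e]
      exact hcon v hv
    | succ n ih =>
      intro v hv
      have h1 := ih _ (P.V_cons (hw.bd n) hv (hw.step n))
      rw [hrec n] at h1
      have h2 : γ * t (n + 1) ≤ γ * v := by linarith
      exact le_of_mul_le_mul_left h2 P.g0
  have key2 : ∀ n, t n ≤ w n / (1 + γ) := by
    intro n
    have hb : |(- w n)| ≤ μ / (1 - μ) := by rw [abs_neg]; exact hw.bd n
    have h1 : S γ μ (- w n) ≤ - t n := by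
      apply P.S_le hb
      intro v hv
      have h2 := Par.V_neg hv
      rw [neg_neg] at h2
      have := key n _ h2
      linarith
    have h2 := hT _ hb
    rw [neg_div] at h2
    linarith
  have htb : ∀ n, |t n| ≤ μ / (1 - μ) / (1 - γ) := by
    intro n
    have := abs_ev_le (w := fun k => w (k + n)) (fun k => hw.bd (k + n)) P.absg
    rwa [abs_of_pos P.g0] at this
  have hs1 : Summable (fun n : ℕ => γ ^ (n + 1) * t (n + 1)) := by
    have := (summable_of_bd (fun n => htb (n + 1)) P.absg).mul_left γ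
    refine this.congr (fun n => ?_)
    rw [pow_succ]; ring
  have hs2 : Summable (fun n : ℕ => γ ^ (n + 1) * (w (n + 1) / (1 + γ))) := by
    have := ((summable_of_bd (fun n => hw.bd (n + 1)) P.absg).mul_left (γ / (1 + γ)))
    refine this.congr (fun n => ?_)
    rw [pow_succ]; ring
  have h1 := dv_eq_tails hw.bd P.absg
  rw [hdv] at h1
  have h2 : (∑' n : ℕ, γ ^ (n + 1) * t (n + 1)) ≤
      ∑' n : ℕ, γ ^ (n + 1) * (w (n + 1) / (1 + γ)) := by
    apply hs1.tsum_le_tsum _ hs2
    intro n
    exact mul_le_mul_of_nonneg_left (key2 _) (pow_nonneg P.g0.le _)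
  have h3 : (∑' n : ℕ, γ ^ (n + 1) * (w (n + 1) / (1 + γ))) = -1 / (1 + γ) := by
    have h4 := ev_succ (summable_of_bd hw.bd P.absg)
    rw [hev, h0] at h4
    have h5 : (∑' n : ℕ, γ ^ (n + 1) * (w (n + 1) / (1 + γ))) =
        γ * ev (fun n => w (n + 1)) γ / (1 + γ) := by
      unfold ev
      rw [← tsum_mul_left, ← tsum_div_const]
      apply tsum_congr
      intro n
      rw [pow_succ]; ring
    rw [h5]
    congr 1
    linarith
  rw [h3] at h2
  have h6 : (-1 : ℝ) / (1 + γ) < 0 := by
    rw [neg_div]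
    have : 0 < 1 / (1 + γ) := by positivity
    linarith
  have h7 : (∑' n : ℕ, γ ^ (n + 1) * t (n + 1)) = 0 := by
    rw [← h1.symm]
  linarith

/-- the value is controlled by the digits -/
theorem ev_digits (P : Par γ μ) {w : ℕ → ℝ} (hw : Orb μ w) :
    (1 + γ / μ) * ev w γ = w 0 + γ * ev (fun n => w (n + 1) + w n / μ) γ := by
  have hb : ∀ n, |w (n + 1) + w n / μ| ≤ 1 := by
    intro n
    rcases hw.step n with h | h | h <;> rw [h] <;> simp
  have h := ev_rel (μ := μ) (a := fun n => Nat.casesOn n (w 0) (fun n => w (n + 1) + w n / μ))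
    (w := w) (C := max 1 |w 0|) (x := γ) ?_ hw.bd P.absg rfl (fun n => rfl)
  · rw [← h, ev_cons hb P.absg]
  · intro n
    cases n with
    | zero => exact le_max_right _ _
    | succ n => exact le_trans (hb n) (le_max_left _ _)

/-- at the end points the orbit is forced -/
theorem V_end (P : Par γ μ) {q v : ℝ} (hq : |q| = μ / (1 - μ)) (hv : v ∈ V γ μ q) :
    v = q / (1 + γ) := by
  obtain ⟨w, hw, h0, rfl⟩ := hv
  have hY := P.Ydiv
  have hμ := P.mpos
  have h1 : ∀ n, w n = (-1) ^ n * q := by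
    intro n
    induction n with
    | zero => simp [h0]
    | succ n ih =>
      have hb := abs_le.1 (hw.bd (n + 1))
      have hs := hw.step n
      set Y := μ / (1 - μ) with hYdef
      have hcases : w n = Y ∨ w n = -Y := by
        have : |w n| = Y := by
          rw [ih, abs_mul, abs_pow, abs_neg, abs_one, one_pow, one_mul, hq]
        rcases abs_choice (w n) with h | h
        · left; linarith
        · right; linarith
      have e : w (n + 1) = - w n := by
        rcases hcases with h | h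
        · rw [h, hY] at hs
          rcases hs with h' | h' | h' <;> (rw [h]; linarith)
        · rw [h, neg_div, hY] at hs
          rcases hs with h' | h' | h' <;> (rw [h]; linarith)
      rw [e, ih, pow_succ]; ring
  have h2 : ev w γ = q * ∑' n : ℕ, (-γ) ^ n := by
    unfold ev
    rw [← tsum_mul_left]
    apply tsum_congr
    intro n
    rw [h1, neg_pow]; ring
  rw [h2, tsum_geometric_of_norm_lt_one (by rw [norm_neg, Real.norm_eq_abs]; exact P.absg)]
  rw [sub_neg_eq_add, div_eq_mul_inv]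

end Pool.Agent.Iso
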