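import Mathlib

/-!
# MP_35e092_an : definitions for the connectedness locus of diagonal affine pairs
-/

namespace Pool.Agent.Iso

/-- Coefficient sequences of the power series `f(x) = 1 + ∑_{n ≥ 1} a n x^n` with
coefficients in `{-1, 0, 1}`. -/
def IsB (a : ℕ → ℝ) : Prop := a 0 = 1 ∧ ∀ n, a n = -1 ∨ a n = 0 ∨ a n = 1

/-- The value at `x` of the power series with coefficients `a`. -/
noncomputable def ev (a : ℕ → ℝ) (x : ℝ) : ℝ := ∑' n : ℕ, a n * x ^ n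

/-- `x f'(x)` as a series. -/
noncomputable def dv (a : ℕ → ℝ) (x : ℝ) : ℝ := ∑' n : ℕ, (n : ℝ) * a n * x ^ n

/-- The connectedness locus, together with the diagonal. -/
def N : Set (ℝ × ℝ) :=
  {p | |p.1| < 1 ∧ |p.2| < 1 ∧ ((∃ a, IsB a ∧ ev a p.1 = 0 ∧ ev a p.2 = 0) ∨ p.1 = p.2)}

/-- `p` is an isolated point of `N`. -/
def IsIsolated (p : ℝ × ℝ) : Prop := p ∈ N ∧ ∃ U : Set (ℝ × ℝ), IsOpen U ∧ U ∩ N = {p}

/-- absolute bound on the coefficients -/
theorem IsB.abs_le {a : ℕ → ℝ} (ha : IsB a) (n : ℕ) : |a n| ≤ 1 := by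
  rcases ha.2 n with h | h | h <;> rw [h] <;> simp

end Pool.Agent.Iso
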