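import Pool.Agent.Helper5.Iso.Conv

/-!
# A flexible power series with the two given zeros
-/

namespace Pool.Agent.Iso

open Set

variable {γ μ : ℝ}

theorem flex (P : Par γ μ) (hO : Overlap γ μ) (hg : Good γ μ 1 0) :
    ∃ b, IsB b ∧ ev b γ = 0 ∧ ev b (-μ) = 0 ∧
      (∀ σ : ℝ, (σ = 1 ∨ σ = -1) → ∀ N₀ : ℕ, ∃ n, N₀ ≤ n ∧ b n * γ ^ n ≠ σ * |γ| ^ n) ∧
      (∀ σ : ℝ, (σ = 1 ∨ σ = -1) → ∀ N₀ : ℕ, ∃ n, N₀ ≤ n ∧
        b n * (-μ) ^ n ≠ σ * |(-μ)| ^ n) := by
  have h1Y : |(1 : ℝ)| ≤ μ / (1 - μ) := by rw [abs_one]; exact P.Yone.le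
  obtain ⟨w, hw, h0, hev, hgood⟩ := exists_good_orbit P hO h1Y hg
  have hμ := P.mpos
  have hμ0 := hμ.ne'
  have hg0 := P.g0
  have habs : |(-μ)| < 1 := by rw [abs_neg, abs_of_pos hμ]; exact P.m1
  have habs' : |(-μ)| = μ := by rw [abs_neg, abs_of_pos hμ]
  let b : ℕ → ℝ := fun n => Nat.casesOn n (w 0) (fun n => w (n + 1) + w n / μ)
  have hb1 : ∀ n, b (n + 1) = w (n + 1) + w n / μ := fun n => rfl
  have hb0 : b 0 = w 0 := rfl
  have hbB : IsB b := by
    refine ⟨h0, fun n => ?_⟩
    cases n with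
    | zero => right; right; exact h0
    | succ n => exact hw.step n
  have hrel : ∀ x, |x| < 1 → ev b x = (1 + x / μ) * ev w x := fun x hx =>
    ev_rel hbB.bd hw.bd hx hb0 hb1
  refine ⟨b, hbB, ?_, ?_, ?_, ?_⟩
  · rw [hrel γ P.absg, hev, mul_zero]
  · rw [hrel (-μ) habs, neg_div, div_self hμ0]; ring
  · -- coefficients not eventually constant
    intro σ hσ N₀
    by_contra hcon
    push Not at hcon
    have hb : ∀ k, b (k + N₀ + 1) = σ := by
      intro k
      have := hcon (k + N₀ + 1) (by omega)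
      rw [abs_of_pos hg0] at this
      exact mul_right_cancel₀ (pow_ne_zero _ hg0.ne') this
    -- the tail orbit
    have ht := hw.tail N₀
    have hval := ev_digits P ht
    have hfac : 0 < 1 + γ / μ := by positivity
    have hdig : ev (fun n => (fun k => w (k + N₀)) (n + 1) + (fun k => w (k + N₀)) n / μ) γ =
        σ / (1 - γ) := by
      have e : (fun n => (fun k => w (k + N₀)) (n + 1) + (fun k => w (k + N₀)) n / μ) =
          (fun _ : ℕ => σ) := by
        funext n
        have := hb n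
        rw [hb1] at this
        simp only
        rw [show n + 1 + N₀ = n + N₀ + 1 by ring]
        exact this
      rw [e]
      unfold ev
      rw [tsum_mul_left, tsum_geometric_of_lt_one hg0.le P.g1, div_eq_mul_inv]
    rw [hdig] at hval
    obtain ⟨⟨v, ⟨u, hu, hu0, rfl⟩, hlt⟩, ⟨v', ⟨u', hu', hu0', rfl⟩, hlt'⟩⟩ := hgood N₀
    have hone : ∀ u, Orb μ u → |ev (fun n => u (n + 1) + u n / μ) γ| ≤ 1 / (1 - γ) := by
      intro u hu
      have := abs_ev_le (w := fun n => u (n + 1) + u n / μ) (C := 1) (γ := γ) (by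
        intro n
        rcases hu.step n with h | h | h <;> rw [h] <;> simp) P.absg
      rwa [abs_of_pos hg0] at this
    simp only [zero_add] at hval
    rcases hσ with rfl | rfl
    · have h1 := ev_digits P hu
      have h2 := (abs_le.1 (hone u hu)).2
      rw [hu0] at h1
      have h3 : (1 + γ / μ) * ev u γ ≤ (1 + γ / μ) * ev (fun k => w (k + N₀)) γ := by
        rw [h1, hval]
        have := mul_le_mul_of_nonneg_left h2 hg0.le
        linarith
      have := le_of_mul_le_mul_left h3 hfac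
      linarith
    · have h1 := ev_digits P hu'
      have h2 := (abs_le.1 (hone u' hu')).1
      rw [hu0'] at h1
      have h3 : (1 + γ / μ) * ev (fun k => w (k + N₀)) γ ≤ (1 + γ / μ) * ev u' γ := by
        rw [h1, hval]
        have := mul_le_mul_of_nonneg_left h2 hg0.le
        have e : γ * (-1 / (1 - γ)) = γ * -(1 / (1 - γ)) := by ring
        linarith
      have := le_of_mul_le_mul_left h3 hfac
      linarith
  · intro σ hσ N₀
    by_contra hcon
    push Not at hcon
    set Y := μ / (1 - μ) with hYdef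
    have hYdiv : Y / μ = Y + 1 := P.Ydiv
    have hσ2 : σ * σ = 1 := by rcases hσ with rfl | rfl <;> norm_num
    have hσa : |σ| = 1 := by rcases hσ with rfl | rfl <;> simp
    have hb : ∀ k, b (k + N₀ + 1) = σ * (-1) ^ (k + N₀ + 1) := by
      intro k
      have := hcon (k + N₀ + 1) (by omega)
      rw [habs', neg_pow, ← mul_assoc] at this
      have h2 := mul_right_cancel₀ (pow_ne_zero _ hμ0) this
      have h3 : ((-1 : ℝ) ^ (k + N₀ + 1)) * (-1) ^ (k + N₀ + 1) = 1 := by
        rw [← mul_pow]; norm_num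
      calc b (k + N₀ + 1) = b (k + N₀ + 1) * ((-1 : ℝ) ^ (k + N₀ + 1) * (-1) ^ (k + N₀ + 1)) := by
            rw [h3, mul_one]
        _ = _ := by rw [← mul_assoc, h2]
    -- v k = (-1)^(k+N₀) w (k+N₀)
    let v : ℕ → ℝ := fun k => (-1) ^ (k + N₀) * w (k + N₀)
    have hv : ∀ k, v (k + 1) + σ * -Y * -1 = (v k + σ * Y) / μ := by
      intro k
      have h1 := hb k
      rw [hb1] at h1
      have h2 : w (k + N₀ + 1) = σ * (-1) ^ (k + N₀ + 1) - w (k + N₀) / μ := by linarith
      have h3 : ((-1 : ℝ) ^ (k + N₀)) * (-1) ^ (k + N₀) = 1 := by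
        rw [← mul_pow]; norm_num
      simp only [v]
      rw [show k + 1 + N₀ = k + N₀ + 1 by ring, h2, pow_succ]
      have e1 : (-1 : ℝ) ^ (k + N₀) * -1 * (σ * ((-1) ^ (k + N₀) * -1) - w (k + N₀) / μ)
          = σ * ((-1 : ℝ) ^ (k + N₀) * (-1) ^ (k + N₀)) +
            (-1 : ℝ) ^ (k + N₀) * w (k + N₀) / μ := by ring
      rw [e1, h3, add_div, mul_div_assoc σ Y μ, hYdiv]
      ring
    have hv2 : ∀ k, v k + σ * Y = (v 0 + σ * Y) / μ ^ k := by
      intro k
      induction k with
      | zero => simp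
      | succ k ih =>
        have := hv k
        rw [ih] at this
        rw [pow_succ, div_mul_eq_div_div, ← this]
        ring
    have hvb : ∀ k, |v k + σ * Y| ≤ 2 * Y := by
      intro k
      have h1 : |v k| ≤ Y := by
        simp only [v]
        rw [abs_mul, abs_pow, abs_neg, abs_one, one_pow, one_mul]
        exact hw.bd _
      have h2 : |σ * Y| = Y := by
        rw [abs_mul, hσa, one_mul, abs_of_pos]
        linarith [P.Yone]
      calc |v k + σ * Y| ≤ |v k| + |σ * Y| := abs_add_le _ _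
        _ ≤ 2 * Y := by rw [h2]; linarith
    have hzero : v 0 + σ * Y = 0 := by
      by_contra hne
      have hpos : 0 < |v 0 + σ * Y| := abs_pos.2 hne
      have h1 : Filter.Tendsto (fun k : ℕ => μ ^ k * (2 * Y)) Filter.atTop (nhds (0 * (2 * Y))) :=
        (tendsto_pow_atTop_nhds_zero_of_lt_one hμ.le P.m1).mul_const _
      rw [zero_mul] at h1
      have h2 : |v 0 + σ * Y| ≤ 0 := by
        refine ge_of_tendsto' h1 (fun k => ?_)
        have h3 := hvb k
        rw [hv2 k, abs_div, abs_of_pos (pow_pos hμ k), div_le_iff₀ (pow_pos hμ k)] at h3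
        linarith
      linarith
    have hend : |w N₀| = Y := by
      have h1 : |v 0| = Y := by
        have : v 0 = -(σ * Y) := by linarith
        rw [this, abs_neg, abs_mul, hσa, one_mul, abs_of_pos]
        linarith [P.Yone]
      simp only [v, zero_add] at h1
      rwa [abs_mul, abs_pow, abs_neg, abs_one, one_pow, one_mul] at h1
    obtain ⟨⟨x, hx, hlt⟩, ⟨x', hx', hlt'⟩⟩ := hgood N₀
    have e1 := V_end P hend hx
    have e2 := V_end P hend hx'
    linarith

end Pool.Agent.Iso
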