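import Pool.Agent.Helper5.Iso.Key
import Pool.Agent.Helper5.Iso.Flex
import Pool.Agent.Helper8.Iso.Perturb
import Pool.Agent.Helper14.Iso.Pigeon
import Pool.Agent.Helper33.Iso.Jensen

/-!
# No isolated point of `N` in the closed quadrants `γ λ ≤ 0`
-/

namespace Pool.Agent.Iso

open Set

variable {γ μ : ℝ}

theorem cond_of_pow (P : Par γ μ) {J' n : ℕ} (hJ : μ ^ (J' + 3) ≤ 2 * μ - 1) (hn : J' + 3 ≤ n + 1) :
    μ ^ n * (μ / (1 - μ)) ≤ μ / (1 - μ) - 1 := by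
  have h1 : 0 < 1 - μ := by linarith [P.m1]
  have h2 : μ ^ (n + 1) ≤ μ ^ (J' + 3) := pow_le_pow_of_le_one P.mpos.le P.m1.le hn
  have e1 : μ ^ n * (μ / (1 - μ)) = μ ^ (n + 1) / (1 - μ) := by rw [pow_succ]; ring
  have e2 : μ / (1 - μ) - 1 = (2 * μ - 1) / (1 - μ) := by field_simp; ring
  rw [e1, e2]
  exact div_le_div_of_nonneg_right (le_trans h2 hJ) h1.le

theorem cond_of_pow' (P : Par γ μ) {J' n : ℕ} (hJ : μ ^ (J' + 3) ≤ 2 * μ - 1)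
    (hn : J' + 3 ≤ n + 2) :
    μ ^ n * (μ / (1 - μ)) ≤ (μ / (1 - μ) - 1) / μ := by
  have h := cond_of_pow P (n := n + 1) hJ (by omega)
  rw [le_div_iff₀ P.mpos]
  calc μ ^ n * (μ / (1 - μ)) * μ = μ ^ (n + 1) * (μ / (1 - μ)) := by rw [pow_succ]; ring
    _ ≤ _ := h

theorem gamma_low (P : Par γ μ) {m g₀ : ℝ} (hm : μ ≤ m) (hX : 3247 / 10000 ≤ γ ^ 2 * μ)
    (hnum : g₀ ^ 2 * m < 3247 / 10000) : g₀ ≤ γ := by
  by_contra hcon
  push Not at hcon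
  have h1 : γ ^ 2 ≤ g₀ ^ 2 := pow_le_pow_left₀ P.g0.le hcon.le 2
  have h2 : γ ^ 2 * μ ≤ g₀ ^ 2 * m := mul_le_mul h1 hm P.mpos.le (by positivity)
  linarith

/-- evaluation of the key condition by monotonicity -/
theorem keyK {g₀ : ℝ} (h0 : 1 / 4 ≤ g₀) (h : g₀ ≤ γ) (h1 : γ < 1) {a b : ℕ}
    (hnum : (1 - g₀) * (1 + 2 * g₀) * (1 - g₀ ^ 2 * g₀ ^ a) <
      g₀ ^ 3 * (g₀ * g₀ ^ a + g₀ ^ b)) :
    (1 - γ) * (1 + 2 * γ) * (1 - γ ^ 2 * γ ^ a) < γ ^ 3 * (γ * γ ^ a + γ ^ b) := by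
  have hg0 : 0 < g₀ := by linarith
  have hγ : 0 < γ := by linarith
  have h2 : (1 - γ) * (1 + 2 * γ) ≤ (1 - g₀) * (1 + 2 * g₀) := by nlinarith
  have h3 : g₀ ^ 2 * g₀ ^ a ≤ γ ^ 2 * γ ^ a := by gcongr
  have h4 : γ ^ 2 * γ ^ a ≤ 1 := by
    rw [← pow_add]; exact pow_le_one₀ hγ.le h1.le
  have h5 : (1 - γ) * (1 + 2 * γ) * (1 - γ ^ 2 * γ ^ a) ≤
      (1 - g₀) * (1 + 2 * g₀) * (1 - g₀ ^ 2 * g₀ ^ a) :=
    mul_le_mul h2 (by linarith) (by linarith)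
      (mul_nonneg (by linarith) (by linarith))
  have h6 : g₀ ^ 3 * (g₀ * g₀ ^ a + g₀ ^ b) ≤ γ ^ 3 * (γ * γ ^ a + γ ^ b) := by gcongr
  linarith

theorem pow_ratio (h0 : 7 / 10 ≤ γ) (j : ℕ) : γ ^ (2 * j) ≤ (2 + γ) * γ ^ (2 * (j + 1)) := by
  have h1 : 0 < γ ^ (2 * j) := by positivity
  have e : γ ^ (2 * (j + 1)) = γ ^ (2 * j) * γ ^ 2 := by rw [← pow_add]; ring_nf
  rw [e]
  have h2 : 1 ≤ (2 + γ) * γ ^ 2 := by nlinarith [sq_nonneg γ]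
  nlinarith

theorem mu_le_544 (h1 : μ < 1) (hm : μ ≤ 0.6181) (h : 2 * μ - 1 < μ ^ 4) : μ ≤ 0.544 := by
  by_contra hcon
  push Not at hcon
  obtain ⟨t, rfl⟩ : ∃ t, μ = 0.544 + t := ⟨μ - 0.544, by ring⟩
  have ht0 : 0 < t := by linarith
  have ht1 : t ≤ 0.0741 := by norm_num at hm ⊢; linarith
  have q1 : 0 ≤ t * (0.0741 - t) := mul_nonneg ht0.le (by linarith)
  have q2 : 0 ≤ t ^ 2 * (0.0741 - t) := mul_nonneg (by positivity) (by linarith)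
  have q3 : 0 ≤ t ^ 3 * (0.0741 - t) := mul_nonneg (by positivity) (by linarith)
  have e : (0.544 + t) ^ 4 = 0.544 ^ 4 + 4 * 0.544 ^ 3 * t + 6 * 0.544 ^ 2 * t ^ 2 +
    4 * 0.544 * t ^ 3 + t ^ 4 := by ring
  rw [e] at h
  norm_num at h q1 q2 q3
  linarith

theorem mu_le_519 (hm : μ ≤ 0.544) (h : 2 * μ - 1 < μ ^ 5) : μ ≤ 0.519 := by
  by_contra hcon
  push Not at hcon
  obtain ⟨t, rfl⟩ : ∃ t, μ = 0.519 + t := ⟨μ - 0.519, by ring⟩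
  have ht0 : 0 < t := by linarith
  have ht1 : t ≤ 0.025 := by norm_num at hm ⊢; linarith
  have q1 : 0 ≤ t * (0.025 - t) := mul_nonneg ht0.le (by linarith)
  have q2 : 0 ≤ t ^ 2 * (0.025 - t) := mul_nonneg (by positivity) (by linarith)
  have q3 : 0 ≤ t ^ 3 * (0.025 - t) := mul_nonneg (by positivity) (by linarith)
  have q4 : 0 ≤ t ^ 4 * (0.025 - t) := mul_nonneg (by positivity) (by linarith)
  have e : (0.519 + t) ^ 5 = 0.519 ^ 5 + 5 * 0.519 ^ 4 * t + 10 * 0.519 ^ 3 * t ^ 2 +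
    10 * 0.519 ^ 2 * t ^ 3 + 5 * 0.519 * t ^ 4 + t ^ 5 := by ring
  rw [e] at h
  norm_num at h q1 q2 q3 q4
  linarith

theorem mu_le_509 (hm : μ ≤ 0.519) (h : 2 * μ - 1 < μ ^ 6) : μ ≤ 0.509 := by
  by_contra hcon
  push Not at hcon
  obtain ⟨t, rfl⟩ : ∃ t, μ = 0.509 + t := ⟨μ - 0.509, by ring⟩
  have ht0 : 0 < t := by linarith
  have ht1 : t ≤ 0.01 := by norm_num at hm ⊢; linarith
  have q1 : 0 ≤ t * (0.01 - t) := mul_nonneg ht0.le (by linarith)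
  have q2 : 0 ≤ t ^ 2 * (0.01 - t) := mul_nonneg (by positivity) (by linarith)
  have q3 : 0 ≤ t ^ 3 * (0.01 - t) := mul_nonneg (by positivity) (by linarith)
  have q4 : 0 ≤ t ^ 4 * (0.01 - t) := mul_nonneg (by positivity) (by linarith)
  have q5 : 0 ≤ t ^ 5 * (0.01 - t) := mul_nonneg (by positivity) (by linarith)
  have e : (0.509 + t) ^ 6 = 0.509 ^ 6 + 6 * 0.509 ^ 5 * t + 15 * 0.509 ^ 4 * t ^ 2 +
    20 * 0.509 ^ 3 * t ^ 3 + 15 * 0.509 ^ 2 * t ^ 4 + 6 * 0.509 * t ^ 5 + t ^ 6 := by ring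
  rw [e] at h
  norm_num at h q1 q2 q3 q4 q5
  linarith

/-- the case of odd `J = J' + 1` -/
theorem big_odd (P : Par γ μ) {a : ℕ → ℝ} (ha : IsB a)
    (h1 : ev a γ = 0) (h2 : dv a γ = 0) (h3 : ev a (-μ) = 0) {m : ℕ}
    (hmin : 2 * μ - 1 < μ ^ (m + m + 2)) (hμ2 : μ ^ 2 + μ < 1) (hγ1 : 0.7986 ≤ γ) :
    (1 - γ) * (1 + 2 * γ) * (1 - γ ^ 2 * γ ^ (2 * m)) <
        γ ^ 3 * (γ * γ ^ (2 * m) + γ ^ (2 * m)) := by
  have hg := P.g0
  by_contra hcon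
  push Not at hcon
  have e1 : γ ^ (m + m + 1) = γ * γ ^ (2 * m) := by
    rw [show m + m + 1 = 2 * m + 1 by ring, pow_succ]; ring
  have hz : γ ^ (m + m + 1) * (γ ^ 3 + γ ^ 2 + γ * ((1 - γ) * (1 + 2 * γ))) ≤
      (1 - γ) * (1 + 2 * γ) := by
    rw [e1]
    have : (γ * γ ^ (2 * m)) * (γ ^ 3 + γ ^ 2 + γ * ((1 - γ) * (1 + 2 * γ))) =
      γ ^ 3 * (γ * γ ^ (2 * m) + γ ^ (2 * m)) +
      ((1 - γ) * (1 + 2 * γ) - (1 - γ) * (1 + 2 * γ) * (1 - γ ^ 2 * γ ^ (2 * m))) := by ring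
    linarith
  have hzz := z_odd hγ1 P.g1 hz
  have hJl := J_lower hg P.g1 hzz
  have H := ineq_odd P ha h1 h2 h3 ⟨m, rfl⟩ hmin hμ2
  refine key_odd hγ1 P.g1 (J := ((m + m + 1 : ℕ) : ℝ)) hz hJl ?_
  have e2 : ((m + m + 1 : ℕ) : ℝ) + 2 = ((m + m : ℕ) : ℝ) + 3 := by push_cast; ring
  rw [e2]
  exact H

/-- the case of even `J = J' + 1` -/
theorem big_even (P : Par γ μ) {a : ℕ → ℝ} (ha : IsB a)
    (h1 : ev a γ = 0) (h2 : dv a γ = 0) (h3 : ev a (-μ) = 0) {m : ℕ}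
    (hmin : 2 * μ - 1 < μ ^ (2 * m + 1 + 2)) (hμ2 : μ ^ 2 + μ < 1) (hγ1 : 0.7986 ≤ γ) :
    (1 - γ) * (1 + 2 * γ) * (1 - γ ^ 2 * γ ^ (2 * (m + 1))) <
        γ ^ 3 * (γ * γ ^ (2 * (m + 1)) + γ ^ (2 * m)) := by
  have hg := P.g0
  by_contra hcon
  push Not at hcon
  have e1 : γ ^ (2 * m + 1 + 1) = γ ^ 2 * γ ^ (2 * m) := by
    rw [← pow_add]; ring_nf
  have e2 : γ ^ (2 * (m + 1)) = γ ^ 2 * γ ^ (2 * m) := by
    rw [← pow_add]; ring_nf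
  rw [e2] at hcon
  have hz : γ ^ (2 * m + 1 + 1) * (γ ^ 4 + γ + γ ^ 2 * ((1 - γ) * (1 + 2 * γ))) ≤
      (1 - γ) * (1 + 2 * γ) := by
    rw [e1]
    have : (γ ^ 2 * γ ^ (2 * m)) * (γ ^ 4 + γ + γ ^ 2 * ((1 - γ) * (1 + 2 * γ))) =
      γ ^ 3 * (γ * (γ ^ 2 * γ ^ (2 * m)) + γ ^ (2 * m)) +
      ((1 - γ) * (1 + 2 * γ) -
        (1 - γ) * (1 + 2 * γ) * (1 - γ ^ 2 * (γ ^ 2 * γ ^ (2 * m)))) := by ring
    linarith
  have hzz := z_even hγ1 P.g1 hz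
  have hJl := J_lower hg P.g1 hzz
  have H := ineq_even P ha h1 h2 h3 ⟨m, rfl⟩ hmin hμ2
  refine key_even hγ1 P.g1 (J := ((2 * m + 1 + 1 : ℕ) : ℝ)) hz hJl ?_
  have e3 : ((2 * m + 1 + 1 : ℕ) : ℝ) + 2 = ((2 * m + 1 : ℕ) : ℝ) + 3 := by push_cast; ring
  rw [e3]
  exact H

theorem overlap_all (P : Par γ μ) {a : ℕ → ℝ} (ha : IsB a)
    (h1 : ev a γ = 0) (h2 : dv a γ = 0) (h3 : ev a (-μ) = 0)
    (hp : γ * μ < 1 / 2) (hX : 3247 / 10000 ≤ γ ^ 2 * μ) :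
    Overlap γ μ ∧ ∀ q, |q| ≤ μ / (1 - μ) → q / (1 + γ) ≤ S γ μ q := by
  have hμ := P.mpos
  have hμ1 := P.m1
  have hμ0 := P.m0
  have hg := P.g0
  have hg1 := P.g1
  have hmlt := mu_lt P ha h1 h2 h3 hp hX
  have hγ0 : 0.712 ≤ γ := gamma_low P hmlt.le hX (by norm_num)
  have hγ7 : 7 / 10 ≤ γ := by norm_num at hγ0; linarith
  have hgm : μ ≤ γ := by norm_num at hγ0; linarith
  have hT2 : μ ≤ γ ^ 2 * (1 + γ) := by
    have : (7 / 10 : ℝ) ^ 2 ≤ γ ^ 2 := pow_le_pow_left₀ (by norm_num) hγ7 2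
    nlinarith
  -- the index
  have hex : ∃ J', μ ^ (J' + 3) ≤ 2 * μ - 1 := by
    obtain ⟨n, hn⟩ := exists_pow_lt_of_lt_one (show 0 < 2 * μ - 1 by linarith) hμ1
    exact ⟨n, le_trans (pow_le_pow_of_le_one hμ.le hμ1.le (by omega)) hn.le⟩
  classical
  obtain ⟨J', hJ', hmin⟩ : ∃ J', μ ^ (J' + 3) ≤ 2 * μ - 1 ∧ 2 * μ - 1 < μ ^ (J' + 2) := by
    refine ⟨Nat.find hex, Nat.find_spec hex, ?_⟩
    rcases Nat.eq_zero_or_pos (Nat.find hex) with h | h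
    · rw [h]
      have : 0 < (1 - μ) ^ 2 := pow_pos (by linarith) 2
      norm_num
      linarith
    · have := Nat.find_min hex (m := Nat.find hex - 1) (by omega)
      push Not at this
      rw [show Nat.find hex - 1 + 3 = Nat.find hex + 2 by omega] at this
      exact this
  -- reduction
  suffices hsuff : ∃ j j1 : ℕ, J' + 3 ≤ 2 * j + 3 ∧ J' + 3 ≤ 2 * j1 + 4 ∧
      ((1 - γ) * (1 + 2 * γ) * (1 - γ ^ 2 * γ ^ (2 * j)) <
        γ ^ 3 * (γ * γ ^ (2 * j) + γ ^ (2 * j1))) ∧ (j = j1 ∨ j = j1 + 1) ∧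
      (μ ^ 2 + μ < 1 ∨ j = 0) by
    obtain ⟨j, j1, c1, c2, c3, c4, c5⟩ := hsuff
    have hj := cond_of_pow P (n := 2 * j + 2) hJ' (by omega)
    have hj1 := cond_of_pow' P (n := 2 * j1 + 2) hJ' (by omega)
    refine ⟨P.overlap hgm hT2 hj hj1 c3 ?_ ?_ ?_, fun q hq => P.T_bound hgm hT2 hj hq⟩
    · rcases c4 with rfl | rfl
      · exact le_rfl
      · exact pow_le_pow_of_le_one hg.le hg1.le (by omega)
    · rcases c4 with rfl | rfl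
      · have : 0 < γ ^ (2 * j) := by positivity
        nlinarith
      · exact pow_ratio hγ7 j1
    · intro hb
      have hb2 : 1 < μ ^ 2 + μ := by
        have h1μ : 0 < 1 - μ := by linarith
        have e2 : μ / (1 - μ) - 1 = (2 * μ - 1) / (1 - μ) := by field_simp; ring
        rw [e2, lt_div_iff₀ h1μ] at hb
        linarith
      rcases c5 with c5 | c5
      · linarith
      · subst c5
        constructor
        · rw [mul_zero, pow_zero, mul_one]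
          have : (0.712 : ℝ) ^ 2 ≤ γ ^ 2 := pow_le_pow_left₀ (by norm_num) hγ0 2
          norm_num at this
          linarith
        · have h1μ : 0 < 1 - μ := by linarith
          rw [← mul_div_assoc, div_le_one h1μ]
          have : μ ^ 3 ≤ (16 / 25) ^ 3 := pow_le_pow_left₀ hμ.le hmlt.le 3
          norm_num at this
          nlinarith
  -- μ² + μ < 1 as soon as J' ≥ 1
  have hμ2 : 1 ≤ J' → μ ^ 2 + μ < 1 := by
    intro h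
    have h3 : 2 * μ - 1 < μ ^ 3 := lt_of_lt_of_le hmin (pow_le_pow_of_le_one hμ.le hμ1.le (by omega))
    by_contra hcon
    push Not at hcon
    have : (1 - μ) * (μ ^ 2 + μ - 1) ≥ 0 := mul_nonneg (by linarith) (by linarith)
    nlinarith
  rcases Nat.eq_zero_or_pos J' with hz | hpos
  · refine ⟨0, 0, by omega, by omega, ?_, Or.inl rfl, Or.inr rfl⟩
    exact keyK (g₀ := 0.712) (by norm_num) hγ0 hg1 (a := 2 * 0) (b := 2 * 0) (by norm_num)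
  have hμ2' := hμ2 hpos
  have hm618 : μ ≤ 0.6181 := by
    by_contra hcon
    push Not at hcon
    have := mul_self_lt_mul_self (by norm_num) hcon
    norm_num at this hcon
    nlinarith
  rcases eq_or_ne J' 1 with hz | hne1
  · subst hz
    have hγ1 : 0.7247 ≤ γ := gamma_low P hm618 hX (by norm_num)
    refine ⟨1, 0, by omega, by omega, ?_, Or.inr rfl, Or.inl hμ2'⟩
    exact keyK (g₀ := 0.7247) (by norm_num) hγ1 hg1 (a := 2 * 1) (b := 2 * 0) (by norm_num)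
  have hJ2 : 2 ≤ J' := by omega
  have hm544 : μ ≤ 0.544 := mu_le_544 hμ1 hm618
    (lt_of_lt_of_le hmin (pow_le_pow_of_le_one hμ.le hμ1.le (by omega)))
  rcases eq_or_ne J' 2 with hz | hne2
  · subst hz
    have hγ1 : 0.7725 ≤ γ := gamma_low P hm544 hX (by norm_num)
    refine ⟨1, 1, by omega, by omega, ?_, Or.inl rfl, Or.inl hμ2'⟩
    exact keyK (g₀ := 0.7725) (by norm_num) hγ1 hg1 (a := 2 * 1) (b := 2 * 1) (by norm_num)
  have hJ3 : 3 ≤ J' := by omega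
  have hm519 : μ ≤ 0.519 := mu_le_519 hm544
    (lt_of_lt_of_le hmin (pow_le_pow_of_le_one hμ.le hμ1.le (by omega)))
  rcases eq_or_ne J' 3 with hz | hne3
  · subst hz
    have hγ1 : 0.7909 ≤ γ := gamma_low P hm519 hX (by norm_num)
    refine ⟨2, 1, by omega, by omega, ?_, Or.inr rfl, Or.inl hμ2'⟩
    exact keyK (g₀ := 0.7909) (by norm_num) hγ1 hg1 (a := 2 * 2) (b := 2 * 1) (by norm_num)
  have hJ4 : 4 ≤ J' := by omega
  have hm509 : μ ≤ 0.509 := mu_le_509 hm519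
    (lt_of_lt_of_le hmin (pow_le_pow_of_le_one hμ.le hμ1.le (by omega)))
  have hγ1 : 0.7986 ≤ γ := gamma_low P hm509 hX (by norm_num)
  rcases Nat.even_or_odd J' with ⟨m, rfl⟩ | ⟨m, rfl⟩
  · exact ⟨m, m, by omega, by omega, big_odd P ha h1 h2 h3 hmin hμ2' hγ1, Or.inl rfl, Or.inl hμ2'⟩
  · exact ⟨m + 1, m, by omega, by omega, big_even P ha h1 h2 h3 hmin hμ2' hγ1, Or.inr rfl,
      Or.inl hμ2'⟩

end Pool.Agent.Iso
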