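import Pool.Agent.Helper5.Iso.Sub

/-!
# The overlap condition
-/

namespace Pool.Agent.Iso

open Set

variable {γ μ : ℝ}

namespace Par

variable (P : Par γ μ)
include P

theorem E_low {j : ℕ} (hj : μ ^ (2 * j + 2) * (μ / (1 - μ)) ≤ μ / (1 - μ) - 1) (i : ℕ) {D : ℝ}
    (h0 : μ ^ (2 * i + 2) * (μ / (1 - μ)) ≤ D) (h1 : D ≤ μ / (1 - μ)) :
    γ ^ (2 * i) * (γ ^ 2 * (μ / (γ + μ)) / (1 - γ ^ 2 * γ ^ (2 * j))) ≤ E γ μ D := by
  refine P.E_scale ?_ (P.E_base hj) i D h0 h1
  have hr1 : γ ^ 2 * γ ^ (2 * j) < 1 := by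
    rw [← pow_add]
    exact pow_lt_one₀ P.g0.le P.g1 (by omega)
  have := P.B_pos
  have h1r : 0 < 1 - γ ^ 2 * γ ^ (2 * j) := by linarith
  positivity

theorem E_lin {j : ℕ} (hgm : μ ≤ γ) (h2 : μ ≤ γ ^ 2 * (1 + γ))
    (hj : μ ^ (2 * j + 2) * (μ / (1 - μ)) ≤ μ / (1 - μ) - 1) {d : ℝ}
    (h0 : 0 ≤ d) (h1 : d ≤ μ / (1 - μ)) :
    d * (μ * (1 - μ) / ((1 + γ) * (γ + μ))) ≤ E γ μ d := by
  rcases h0.eq_or_lt with rfl | hpos
  · rw [zero_mul]; exact P.E_nonneg le_rfl h1
  have hμ := P.mpos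
  have hμ1 := P.m1
  have hg := P.g0
  have hg1 := P.g1
  have hYo := P.Yone
  have hY0 : 0 < μ / (1 - μ) := by linarith
  have hex : ∃ i : ℕ, μ ^ (2 * i + 2) * (μ / (1 - μ)) ≤ d := by
    obtain ⟨n, hn⟩ := exists_pow_lt_of_lt_one (div_pos hpos hY0) hμ1
    refine ⟨n, ?_⟩
    have h3 : μ ^ (2 * n + 2) ≤ μ ^ n := pow_le_pow_of_le_one hμ.le hμ1.le (by omega)
    rw [lt_div_iff₀ hY0] at hn
    nlinarith
  classical
  let i := Nat.find hex
  have hi : μ ^ (2 * i + 2) * (μ / (1 - μ)) ≤ d := Nat.find_spec hex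
  have hi2 : d ≤ μ ^ (2 * i) * (μ / (1 - μ)) := by
    rcases Nat.eq_zero_or_pos i with h | h
    · rw [h]; simpa using h1
    · have := Nat.find_min hex (m := i - 1) (by omega)
      push Not at this
      rw [show 2 * (i - 1) + 2 = 2 * i by omega] at this
      exact this.le
  have hE := P.E_low hj i hi h1
  have hr1 : γ ^ 2 * γ ^ (2 * j) < 1 := by
    rw [← pow_add]
    exact pow_lt_one₀ hg.le hg1 (by omega)
  have hr0 : 0 ≤ γ ^ 2 * γ ^ (2 * j) := by positivity
  have hB := P.B_pos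
  have h3 : γ ^ 2 * (μ / (γ + μ)) ≤ γ ^ 2 * (μ / (γ + μ)) / (1 - γ ^ 2 * γ ^ (2 * j)) := by
    rw [le_div_iff₀ (by linarith)]
    have : 0 ≤ γ ^ 2 * (μ / (γ + μ)) := by positivity
    nlinarith
  have h4 : μ ^ (2 * i) ≤ γ ^ (2 * i) := pow_le_pow_left₀ hμ.le hgm _
  have h5 : (μ / (1 - μ)) * (μ * (1 - μ) / ((1 + γ) * (γ + μ))) ≤ γ ^ 2 * (μ / (γ + μ)) := by
    have h1μ : 0 < 1 - μ := by linarith
    have e : (μ / (1 - μ)) * (μ * (1 - μ) / ((1 + γ) * (γ + μ))) =
        μ / (1 + γ) * (μ / (γ + μ)) := by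
      field_simp
    rw [e]
    apply mul_le_mul_of_nonneg_right _ hB.le
    rw [div_le_iff₀ (by linarith)]
    exact h2
  have hk : 0 ≤ μ * (1 - μ) / ((1 + γ) * (γ + μ)) := by
    apply div_nonneg
    · exact mul_nonneg hμ.le (by linarith)
    · positivity
  calc d * (μ * (1 - μ) / ((1 + γ) * (γ + μ)))
      ≤ μ ^ (2 * i) * (μ / (1 - μ)) * (μ * (1 - μ) / ((1 + γ) * (γ + μ))) :=
        mul_le_mul_of_nonneg_right hi2 hk
    _ = μ ^ (2 * i) * ((μ / (1 - μ)) * (μ * (1 - μ) / ((1 + γ) * (γ + μ)))) := by ring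
    _ ≤ γ ^ (2 * i) * (γ ^ 2 * (μ / (γ + μ))) := by
        apply mul_le_mul h4 h5 _ (by positivity)
        exact mul_nonneg hY0.le hk
    _ ≤ γ ^ (2 * i) * (γ ^ 2 * (μ / (γ + μ)) / (1 - γ ^ 2 * γ ^ (2 * j))) :=
        mul_le_mul_of_nonneg_left h3 (by positivity)
    _ ≤ E γ μ d := hE

/-- S(q) ≥ q/(1+γ). -/
theorem T_bound {j : ℕ} (hgm : μ ≤ γ) (h2 : μ ≤ γ ^ 2 * (1 + γ))
    (hj : μ ^ (2 * j + 2) * (μ / (1 - μ)) ≤ μ / (1 - μ) - 1) {q : ℝ}
    (hq : |q| ≤ μ / (1 - μ)) : q / (1 + γ) ≤ S γ μ q := by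
  have hμ := P.mpos
  have hμ1 := P.m1
  have hg := P.g0
  have hg1 := P.g1
  have hYo := P.Yone
  have hYm := P.Ymul
  have hYd := P.Ydiv
  have hA := P.Amul
  have hB := P.Bmul
  have h1g : 0 < 1 + γ := by linarith
  have hpos : ∀ q : ℝ, 0 ≤ q → q ≤ μ / (1 - μ) → q / (1 + γ) ≤ S γ μ q := by
    intro q h0 h1
    have e := Par.S_eq (γ := γ) (μ := μ) (μ / (1 - μ) - q)
    rw [sub_sub_cancel] at e
    have hE := P.E_nonneg (D := μ / (1 - μ) - q) (by linarith) (by linarith)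
    have hBle : μ / (γ + μ) ≤ 1 / (1 + γ) := by
      rw [div_le_div_iff₀ (by linarith) h1g]
      nlinarith
    have h3 := mul_le_mul_of_nonneg_right hBle (by linarith : 0 ≤ μ / (1 - μ) - q)
    have e2 : 1 / (1 + γ) * (μ / (1 - μ) - q) = μ / (1 - μ) / (1 + γ) - q / (1 + γ) := by ring
    rw [e2] at h3
    rw [e]
    linarith
  rcases le_or_gt 0 q with h0 | h0
  · exact hpos q h0 (by rwa [abs_of_nonneg h0] at hq)
  rw [abs_of_neg h0] at hq
  obtain ⟨x, rfl⟩ : ∃ x, q = -x := ⟨-q, by ring⟩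
  rw [neg_neg] at hq
  have hx : 0 < x := by linarith
  rcases le_or_gt x μ with hxm | hxm
  · have h3 : x / μ ≤ 1 := by rw [div_le_one hμ]; exact hxm
    have h4 : 0 ≤ x / μ := by positivity
    have s1 := P.S_step (q := -x) (q' := x / μ) (by rw [abs_le]; constructor <;> linarith)
      (by rw [abs_le]; constructor <;> linarith) (Or.inr (Or.inl (by ring)))
    have s2 := hpos (x / μ) h4 (by linarith)
    have s3 := mul_le_mul_of_nonneg_left s2 hg.le
    have h5 : x ≤ x / μ := by rw [le_div_iff₀ hμ]; nlinarith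
    have h6 : γ * (x / (1 + γ)) ≤ γ * (x / μ / (1 + γ)) :=
      mul_le_mul_of_nonneg_left (div_le_div_of_nonneg_right h5 h1g.le) hg.le
    have e : -x / (1 + γ) = -x + γ * (x / (1 + γ)) := by field_simp; ring
    rw [e]
    linarith
  · have h3 : 1 ≤ x / μ := by rw [one_le_div hμ]; exact hxm.le
    have h4 : x / μ ≤ μ / (1 - μ) + 1 := by
      rw [← hYd]; exact div_le_div_of_nonneg_right hq hμ.le
    have s1 := P.S_step (q := -x) (q' := x / μ - 1) (by rw [abs_le]; constructor <;> linarith)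
      (by rw [abs_le]; constructor <;> linarith) (Or.inl (by ring))
    have e := Par.S_eq (γ := γ) (μ := μ) (μ / (1 - μ) - (x / μ - 1))
    rw [sub_sub_cancel] at e
    have hE := P.E_lin hgm h2 hj (d := μ / (1 - μ) - (x / μ - 1)) (by linarith) (by linarith)
    rw [e] at s1
    set d := μ / (1 - μ) - (x / μ - 1) with hd
    -- x = Y - μ d
    have hxd : x = μ / (1 - μ) - μ * d := by
      rw [hd]
      have : μ * (x / μ) = x := by field_simp
      have e3 : μ * (μ / (1 - μ) - (x / μ - 1)) = μ * (μ / (1 - μ) + 1) - μ * (x / μ) := by ring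
      rw [e3, this, ← hYm]; ring
    have hid : -x / (1 + γ) = -x + γ * (μ / (1 - μ) / (1 + γ) - μ / (γ + μ) * d +
        d * (μ * (1 - μ) / ((1 + γ) * (γ + μ)))) := by
      rw [hxd]
      have h1μ : (1 - μ) ≠ 0 := by linarith
      have h2μ : (γ + μ) ≠ 0 := by linarith
      field_simp
      ring
    rw [hid]
    have s3 := mul_le_mul_of_nonneg_left hE hg.le
    linarith

set_option maxHeartbeats 2000000 in
/-- The main overlap inequality. -/
theorem O1 {j j1 : ℕ}
    (hj : μ ^ (2 * j + 2) * (μ / (1 - μ)) ≤ μ / (1 - μ) - 1)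
    (hj1 : μ ^ (2 * j1 + 2) * (μ / (1 - μ)) ≤ (μ / (1 - μ) - 1) / μ)
    (hK : (1 - γ) * (1 + 2 * γ) * (1 - γ ^ 2 * γ ^ (2 * j)) <
      γ ^ 3 * (γ * γ ^ (2 * j) + γ ^ (2 * j1)))
    (hG : γ ^ (2 * j) ≤ γ ^ (2 * j1)) (hG' : γ ^ (2 * j1) ≤ (2 + γ) * γ ^ (2 * j))
    (hbig : μ < μ / (1 - μ) - 1 → 1 - γ ^ 2 * γ ^ (2 * j) < γ ^ 2 ∧ μ ^ 2 * (μ / (1 - μ)) ≤ 1)
    {x : ℝ} (hx0 : -(μ / (1 - μ) - 1) ≤ x) (hx1 : x ≤ 1 / 2) :
    0 < S γ μ (-x) + S γ μ (x - 1) := by
  have hμ := P.mpos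
  have hμ1 := P.m1
  have hμ0 := P.m0
  have hg := P.g0
  have hg1 := P.g1
  have hYo := P.Yone
  have hYm := P.Ymul
  have hYd := P.Ydiv
  have hA := P.Amul
  have hB := P.Bmul
  have hBpos := P.B_pos
  have h1g : 0 < 1 + γ := by linarith
  have hr1 : γ ^ 2 * γ ^ (2 * j) < 1 := by
    rw [← pow_add]
    exact pow_lt_one₀ hg.le hg1 (by omega)
  have h1r : 0 < 1 - γ ^ 2 * γ ^ (2 * j) := by linarith
  have hEG : ∀ D, μ / (1 - μ) - 1 ≤ D → D ≤ μ / (1 - μ) →
      γ ^ (2 * j) * (γ ^ 2 * (μ / (γ + μ)) / (1 - γ ^ 2 * γ ^ (2 * j))) ≤ E γ μ D :=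
    fun D h0 h1 => P.E_low hj j (le_trans hj h0) h1
  have hEG1 : ∀ D, (μ / (1 - μ) - 1) / μ ≤ D → D ≤ μ / (1 - μ) →
      γ ^ (2 * j1) * (γ ^ 2 * (μ / (γ + μ)) / (1 - γ ^ 2 * γ ^ (2 * j))) ≤ E γ μ D :=
    fun D h0 h1 => P.E_low hj j1 (le_trans hj1 h0) h1
  have hE0 : ∀ D, μ ^ 2 * (μ / (1 - μ)) ≤ D → D ≤ μ / (1 - μ) →
      (γ ^ 2 * (μ / (γ + μ)) / (1 - γ ^ 2 * γ ^ (2 * j))) ≤ E γ μ D :=
    fun D h0 h1 => P.E_base hj D h0 h1
  set G := γ ^ (2 * j) with hGdef
  set G1 := γ ^ (2 * j1) with hG1def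
  have hGpos : 0 < G := by positivity
  have hG1pos : 0 < G1 := by positivity
  set c := γ ^ 2 * (μ / (γ + μ)) / (1 - γ ^ 2 * G) with hc
  have hcpos : 0 < c := by positivity
  have hcid : c * (γ + μ) * (1 - γ ^ 2 * G) = γ ^ 2 * μ := by
    have h2μ : (γ + μ) ≠ 0 := by linarith
    have h3 : (1 - γ ^ 2 * G) ≠ 0 := h1r.ne'
    rw [hc]; field_simp
  set R := (1 - γ) * μ * (1 + 2 * γ) / (γ * (γ + μ)) with hR
  have hden : 0 < γ * (γ + μ) := by positivity
  have hN : ∀ t : ℝ, (1 - γ) * (1 + 2 * γ) * (1 - γ ^ 2 * G) < γ ^ 3 * t → R < c * t := by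
    intro t ht
    rw [hR, div_lt_iff₀ hden]
    have h3 : (c * t * (γ * (γ + μ))) * (1 - γ ^ 2 * G) = γ ^ 3 * t * μ := by
      calc (c * t * (γ * (γ + μ))) * (1 - γ ^ 2 * G)
          = t * γ * (c * (γ + μ) * (1 - γ ^ 2 * G)) := by ring
        _ = γ ^ 3 * t * μ := by rw [hcid]; ring
    have h4 : (1 - γ) * μ * (1 + 2 * γ) * (1 - γ ^ 2 * G) <
        (c * t * (γ * (γ + μ))) * (1 - γ ^ 2 * G) := by
      rw [h3]
      have := mul_lt_mul_of_pos_right ht hμ
      linarith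
    exact lt_of_mul_lt_mul_right h4 h1r.le
  have hN1 : R < c * (γ * G + G1) := hN _ hK
  have hN2 : R < c * (2 * (1 + γ) * G) := by
    apply hN
    have : γ * G + G1 ≤ 2 * (1 + γ) * G := by linarith
    have := mul_le_mul_of_nonneg_left this (by positivity : 0 ≤ γ ^ 3)
    linarith
  have hN3 : R < c * ((1 + γ) * G1) := by
    apply hN
    have h3 : γ * G + G1 ≤ (1 + γ) * G1 := by nlinarith
    have := mul_le_mul_of_nonneg_left h3 (by positivity : 0 ≤ γ ^ 3)
    linarith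
  have hRid1 : R = 1 / γ - μ / (1 - μ) +
      μ / (γ + μ) * (μ / (1 - μ) - 1) * (γ + 1 / μ) := by
    have h1μ : (1 - μ) ≠ 0 := by linarith
    have h2μ : (γ + μ) ≠ 0 := by linarith
    rw [hR]
    field_simp
    ring
  have hRid2 : R = (1 + γ) * (1 / γ - 2 * (μ / (1 - μ) / (1 + γ)) +
      μ / (γ + μ) * (2 * (μ / (1 - μ)) - 1 / μ)) := by
    have h1μ : (1 - μ) ≠ 0 := by linarith
    have h2μ : (γ + μ) ≠ 0 := by linarith
    rw [hR]
    field_simp
    ring
  have hκ : (μ / (1 - μ) - 1) / μ = μ / (1 - μ) - (1 / μ - 1) := by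
    rw [sub_div, hYd]; ring
  have hSeq := fun q => Par.S_eq (γ := γ) (μ := μ) (μ / (1 - μ) - q)
  simp only [sub_sub_cancel] at hSeq
  set Y := μ / (1 - μ) with hYdef
  set B := μ / (γ + μ) with hBdef
  set A := Y / (1 + γ) with hAdef
  have hinv : μ * (1 / μ) = 1 := by field_simp
  have hinv1 : 1 < 1 / μ := by rw [lt_div_iff₀ hμ]; linarith
  have hinv2 : 1 / μ < 2 := by rw [div_lt_iff₀ hμ]; linarith
  have hγinv : γ * (1 / γ) = 1 := by field_simp
  -- the sum of two values of S on the positive side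
  have hsum2 : ∀ u u' : ℝ, u + u' = 1 / μ → (1 / γ < S γ μ u + S γ μ u' ↔
      R < (1 + γ) * (E γ μ (Y - u) + E γ μ (Y - u'))) := by
    intro u u' huu
    rw [hSeq u, hSeq u', hRid2, mul_lt_mul_iff_right₀ h1g]
    have e : B * (2 * Y - 1 / μ) = B * (Y - u) + B * (Y - u') := by rw [← huu]; ring
    rw [e]
    constructor <;> intro h <;> linarith
  -- final step from the positive side
  rcases lt_or_ge x 0 with hxneg | hxnn
  · -- x = -y
    obtain ⟨y, rfl⟩ : ∃ y, x = -y := ⟨-x, by ring⟩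
    have hy0 : 0 < y := by linarith
    have hy1 : y ≤ Y - 1 := by linarith
    rw [neg_neg]
    have hd1 : (1 + y) / μ ≤ Y + 1 := by
      rw [← hYd]; exact div_le_div_of_nonneg_right (by linarith) hμ.le
    have hd0 : 1 ≤ (1 + y) / μ := by rw [one_le_div hμ]; linarith
    have s2 := P.S_step (q := -y - 1) (q' := (1 + y) / μ - 1)
      (by rw [abs_le]; constructor <;> linarith) (by rw [abs_le]; constructor <;> linarith)
      (Or.inl (by ring))
    rcases le_or_gt y μ with hym | hym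
    · have hyd : y / μ ≤ 1 := by rw [div_le_one hμ]; exact hym
      have hyd0 : 0 ≤ y / μ := by positivity
      have s1 := P.S_step (q := y) (q' := 1 - y / μ)
        (by rw [abs_le]; constructor <;> linarith) (by rw [abs_le]; constructor <;> linarith)
        (Or.inr (Or.inr (by ring)))
      have hkey : 1 / γ < S γ μ (1 - y / μ) + S γ μ ((1 + y) / μ - 1) := by
        rw [hsum2 _ _ (by ring)]
        have hD1 := hEG (Y - (1 - y / μ)) (by linarith) (by linarith)
        have hD2 := P.E_nonneg (D := Y - ((1 + y) / μ - 1)) (by linarith) (by linarith)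
        rcases le_or_gt (Y - 1) (Y - ((1 + y) / μ - 1)) with hcs | hcs
        · have hD3 := hEG (Y - ((1 + y) / μ - 1)) hcs (by linarith)
          have h5 := mul_le_mul_of_nonneg_left (add_le_add hD1 hD3) h1g.le
          linarith
        · -- then Y - (1 - y/μ) ≥ (Y-1)/μ
          have hcs2 : 2 < (1 + y) / μ := by linarith
          have hcs3 : 1 / μ + y / μ = (1 + y) / μ := by ring
          have hD3 := hEG1 (Y - (1 - y / μ)) (by rw [hκ]; linarith) (by linarith)
          have h5 := mul_le_mul_of_nonneg_left (add_le_add hD3 hD2) h1g.le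
          linarith
      have h6 := mul_lt_mul_of_pos_left hkey hg
      rw [hγinv] at h6
      linarith
    · obtain ⟨hb1, hb2⟩ := hbig (by linarith)
      have hD1 := hE0 (Y - y) (by linarith) (by linarith)
      have hD2 := P.E_nonneg (D := Y - ((1 + y) / μ - 1)) (by linarith) (by linarith)
      have hcB : B < c := by
        rw [hc, lt_div_iff₀ h1r]
        nlinarith
      have e1 := hSeq y
      have e2 := hSeq ((1 + y) / μ - 1)
      rw [e2] at s2
      rw [e1]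
      -- linear identity
      have hid : A - B * (Y - y) + (-y - 1 + γ * (A - B * (Y - ((1 + y) / μ - 1)))) = -B := by
        have h1μ : (1 - μ) ≠ 0 := by linarith
        have h2μ : (γ + μ) ≠ 0 := by linarith
        rw [hAdef, hBdef, hYdef]
        field_simp
        ring
      have h7 := mul_nonneg hg.le hD2
      linarith
  · rcases le_or_gt x (1 - μ) with hxm | hxm
    · -- B1
      have hs2 : 0 ≤ (1 - x) / μ - 1 := by
        rw [sub_nonneg, one_le_div hμ]; linarith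
      have hs3 : (1 - x) / μ ≤ 1 / μ := div_le_div_of_nonneg_right (by linarith) hμ.le
      have hs4 : 0 ≤ x / μ := by positivity
      have hs5 : x / μ ≤ 1 := by rw [div_le_one hμ]; linarith
      have s1 := P.S_step (q := -x) (q' := x / μ)
        (by rw [abs_le]; constructor <;> linarith) (by rw [abs_le]; constructor <;> linarith)
        (Or.inr (Or.inl (by ring)))
      have s2 := P.S_step (q := x - 1) (q' := (1 - x) / μ - 1)
        (by rw [abs_le]; constructor <;> linarith) (by rw [abs_le]; constructor <;> linarith)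
        (Or.inl (by ring))
      -- lemma for the smaller one
      have hL : ∀ u, 0 ≤ u → u ≤ μ → u ≤ 1 / μ - 1 → 1 / γ < S γ μ u + S γ μ (1 / μ - 1 - u) := by
        intro u hu0 hu1 hu2
        have t0 : 0 ≤ u / μ := by positivity
        have t1 : u / μ ≤ 1 := by rw [div_le_one hμ]; exact hu1
        have s3 := P.S_step (q := u) (q' := 1 - u / μ)
          (by rw [abs_le]; constructor <;> linarith) (by rw [abs_le]; constructor <;> linarith)
          (Or.inr (Or.inr (by ring)))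
        have e1 := hSeq (1 - u / μ)
        have e2 := hSeq (1 / μ - 1 - u)
        have hD1 := hEG (Y - (1 - u / μ)) (by linarith) (by linarith)
        have hD2 := hEG1 (Y - (1 / μ - 1 - u)) (by rw [hκ]; linarith) (by linarith)
        rw [e1] at s3
        rw [e2]
        have hid : u + γ * (A - B * (Y - (1 - u / μ))) + (A - B * (Y - (1 / μ - 1 - u)))
            = 1 / γ - R := by
          rw [hRid1]
          have h1μ : (1 - μ) ≠ 0 := by linarith
          have h2μ : (γ + μ) ≠ 0 := by linarith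
          rw [hAdef, hBdef, hYdef]
          field_simp
          ring
        have h7 := mul_le_mul_of_nonneg_left hD1 hg.le
        linarith
      have hkey : 1 / γ < S γ μ (x / μ) + S γ μ ((1 - x) / μ - 1) := by
        have esum : (1 - x) / μ - 1 = 1 / μ - 1 - x / μ := by ring
        rcases le_or_gt (x / μ) μ with h8 | h8
        · rw [esum]
          exact hL _ hs4 h8 (by linarith)
        · have h9 := hL ((1 - x) / μ - 1) hs2 (by linarith) (by linarith)
          rw [esum] at h9 ⊢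
          rw [show 1 / μ - 1 - (1 / μ - 1 - x / μ) = x / μ by ring] at h9
          linarith
      have h6 := mul_lt_mul_of_pos_left hkey hg
      rw [hγinv] at h6
      linarith
    · -- B2
      have hs2 : 0 ≤ (1 - x) / μ := div_nonneg (by linarith) hμ.le
      have hs3 : (1 - x) / μ ≤ 1 := by rw [div_le_one hμ]; linarith
      have hs4 : 0 ≤ x / μ := by positivity
      have hs5 : x / μ ≤ 1 := by rw [div_le_one hμ]; linarith
      have s1 := P.S_step (q := -x) (q' := x / μ)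
        (by rw [abs_le]; constructor <;> linarith) (by rw [abs_le]; constructor <;> linarith)
        (Or.inr (Or.inl (by ring)))
      have s2 := P.S_step (q := x - 1) (q' := (1 - x) / μ)
        (by rw [abs_le]; constructor <;> linarith) (by rw [abs_le]; constructor <;> linarith)
        (Or.inr (Or.inl (by ring)))
      have hkey : 1 / γ < S γ μ (x / μ) + S γ μ ((1 - x) / μ) := by
        rw [hsum2 _ _ (by ring)]
        have hD1 := hEG (Y - x / μ) (by linarith) (by linarith)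
        have hD2 := hEG (Y - (1 - x) / μ) (by linarith) (by linarith)
        have h5 := mul_le_mul_of_nonneg_left (add_le_add hD1 hD2) h1g.le
        linarith
      have h6 := mul_lt_mul_of_pos_left hkey hg
      rw [hγinv] at h6
      linarith

theorem overlap {j j1 : ℕ} (hgm : μ ≤ γ) (h2 : μ ≤ γ ^ 2 * (1 + γ))
    (hj : μ ^ (2 * j + 2) * (μ / (1 - μ)) ≤ μ / (1 - μ) - 1)
    (hj1 : μ ^ (2 * j1 + 2) * (μ / (1 - μ)) ≤ (μ / (1 - μ) - 1) / μ)
    (hK : (1 - γ) * (1 + 2 * γ) * (1 - γ ^ 2 * γ ^ (2 * j)) <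
      γ ^ 3 * (γ * γ ^ (2 * j) + γ ^ (2 * j1)))
    (hG : γ ^ (2 * j) ≤ γ ^ (2 * j1)) (hG' : γ ^ (2 * j1) ≤ (2 + γ) * γ ^ (2 * j))
    (hbig : μ < μ / (1 - μ) - 1 → 1 - γ ^ 2 * γ ^ (2 * j) < γ ^ 2 ∧ μ ^ 2 * (μ / (1 - μ)) ≤ 1) :
    Overlap γ μ := by
  have h1g : 0 < 1 + γ := by linarith [P.g0]
  intro p hp hp1
  have hp' := abs_le.1 hp
  have hp1' := abs_le.1 hp1
  have hnp : |(-p)| ≤ μ / (1 - μ) := by rwa [abs_neg]
  have hnp1 : |(-(p + 1))| ≤ μ / (1 - μ) := by rwa [abs_neg]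
  constructor
  · have t1 := P.T_bound hgm h2 hj hnp
    have t2 := P.T_bound hgm h2 hj hp1
    have h3 : 0 < S γ μ (-p) + S γ μ (p + 1) := by
      have e : -p / (1 + γ) + (p + 1) / (1 + γ) = 1 / (1 + γ) := by ring
      have : 0 < 1 / (1 + γ) := by positivity
      linarith
    obtain ⟨u, hu, hu'⟩ := P.exists_lt_of_lt_S hnp (t := -S γ μ (p + 1)) (by linarith)
    obtain ⟨v, hv, hv'⟩ := P.exists_lt_of_lt_S hp1 (t := -u) (by linarith)
    have h4 := V_neg hu
    rw [neg_neg] at h4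
    exact ⟨-u, h4, v, hv, hv'⟩
  · have h3 : 0 < S γ μ p + S γ μ (-(p + 1)) := by
      rcases le_or_gt (-p) (1 / 2) with h | h
      · have := P.O1 hj hj1 hK hG hG' hbig (x := -p) (by linarith) h
        rw [neg_neg, show -p - 1 = -(p + 1) by ring] at this
        exact this
      · have := P.O1 hj hj1 hK hG hG' hbig (x := p + 1) (by linarith) (by linarith)
        rw [show p + 1 - 1 = p by ring] at this
        linarith
    obtain ⟨u, hu, hu'⟩ := P.exists_lt_of_lt_S hp (t := -S γ μ (-(p + 1))) (by linarith)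
    obtain ⟨v, hv, hv'⟩ := P.exists_lt_of_lt_S hnp1 (t := -u) (by linarith)
    have h4 := V_neg hv
    rw [neg_neg] at h4
    exact ⟨u, hu, -v, h4, by linarith⟩

end Par

end Pool.Agent.Iso
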