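import Pool.Agent.Helper5.Iso.RegionB
import Pool.Agent.Helper5.Iso.Over

/-!
# The key numerical condition
-/

namespace Pool.Agent.Iso

open Set

variable {γ μ : ℝ}

theorem J_lower (h0 : 0 < γ) (h1 : γ < 1) {J : ℕ} (hz : γ ^ J ≤ 7 / 20) :
    1.04 * γ ≤ J * (1 - γ) := by
  by_contra hcon
  push Not at hcon
  have h2 : 1 / γ ≤ Real.exp (1 / γ - 1) := by
    have := Real.add_one_le_exp (1 / γ - 1)
    linarith
  have h3 : (1 / γ) ^ J ≤ Real.exp ((J : ℝ) * (1 / γ - 1)) := by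
    rw [Real.exp_nat_mul]
    exact pow_le_pow_left₀ (by positivity) h2 J
  have h4 : (J : ℝ) * (1 / γ - 1) ≤ 1.04 := by
    have e : (J : ℝ) * (1 / γ - 1) = (J * (1 - γ)) / γ := by field_simp
    rw [e, div_le_iff₀ h0]
    exact hcon.le
  have h5 : Real.exp (1.04 : ℝ) ≤ 2.7182818286 * (1 / 0.96) := by
    rw [show (1.04 : ℝ) = 1 + 0.04 by norm_num, Real.exp_add]
    have e1 := Real.exp_one_lt_d9.le
    have e2 : Real.exp (0.04 : ℝ) ≤ 1 / 0.96 := by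
      have e3 : (0.96 : ℝ) ≤ Real.exp (-0.04) := by
        have := Real.add_one_le_exp (-0.04 : ℝ)
        norm_num at this ⊢
        linarith
      rw [Real.exp_neg] at e3
      rw [le_div_iff₀ (by norm_num)]
      have e4 : 0 < Real.exp (0.04 : ℝ) := Real.exp_pos _
      have := mul_le_mul_of_nonneg_left e3 e4.le
      rw [mul_inv_cancel₀ e4.ne'] at this
      linarith
    exact mul_le_mul e1 e2 (Real.exp_pos _).le (by norm_num)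
  have h6 : (1 / γ) ^ J ≤ 2.7182818286 * (1 / 0.96) :=
    le_trans h3 (le_trans (Real.exp_le_exp.2 h4) h5)
  have h7 : γ ^ J * (1 / γ) ^ J = 1 := by
    rw [← mul_pow, mul_one_div_cancel h0.ne', one_pow]
  have h8 : γ ^ J * (1 / γ) ^ J ≤ 7 / 20 * (2.7182818286 * (1 / 0.96)) :=
    mul_le_mul hz h6 (by positivity) (by norm_num)
  rw [h7] at h8
  norm_num at h8

theorem z_even (h0 : 0.7986 ≤ γ) (h1 : γ < 1) {z : ℝ}
    (hz : z * (γ ^ 4 + γ + γ ^ 2 * ((1 - γ) * (1 + 2 * γ))) ≤ (1 - γ) * (1 + 2 * γ)) :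
    z ≤ 7 / 20 := by
  by_contra hcon
  push Not at hcon
  have hD : 0 < γ ^ 4 + γ + γ ^ 2 * ((1 - γ) * (1 + 2 * γ)) := by
    have : 0 < γ := by linarith
    have : 0 < 1 - γ := by linarith
    positivity
  have h2 := mul_lt_mul_of_pos_right hcon hD
  have h3 : (1 - γ) * (1 + 2 * γ) ≤ 7 / 20 * (γ ^ 4 + γ + γ ^ 2 * ((1 - γ) * (1 + 2 * γ))) := by
    obtain ⟨u, rfl⟩ : ∃ u, γ = 1 - u := ⟨1 - γ, by ring⟩
    have hu0 : 0 ≤ u := by linarith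
    have hu1 : u ≤ 0.2014 := by linarith
    have hu2 : 0 ≤ u * (0.2014 - u) := mul_nonneg hu0 (by linarith)
    have hu3 : 0 ≤ u ^ 2 * (0.2014 - u) := mul_nonneg (by positivity) (by linarith)
    have hu4 : 0 ≤ u ^ 3 * (0.2014 - u) := mul_nonneg (by positivity) (by linarith)
    nlinarith
  linarith

theorem z_odd (h0 : 0.7986 ≤ γ) (h1 : γ < 1) {z : ℝ}
    (hz : z * (γ ^ 3 + γ ^ 2 + γ * ((1 - γ) * (1 + 2 * γ))) ≤ (1 - γ) * (1 + 2 * γ)) :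
    z ≤ 7 / 20 := by
  by_contra hcon
  push Not at hcon
  have hD : 0 < γ ^ 3 + γ ^ 2 + γ * ((1 - γ) * (1 + 2 * γ)) := by
    have : 0 < γ := by linarith
    have : 0 < 1 - γ := by linarith
    positivity
  have h2 := mul_lt_mul_of_pos_right hcon hD
  have h3 : (1 - γ) * (1 + 2 * γ) ≤ 7 / 20 * (γ ^ 3 + γ ^ 2 + γ * ((1 - γ) * (1 + 2 * γ))) := by
    obtain ⟨u, rfl⟩ : ∃ u, γ = 1 - u := ⟨1 - γ, by ring⟩
    have hu0 : 0 ≤ u := by linarith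
    have hu1 : u ≤ 0.2014 := by linarith
    have hu2 : 0 ≤ u * (0.2014 - u) := mul_nonneg hu0 (by linarith)
    have hu3 : 0 ≤ u ^ 2 * (0.2014 - u) := mul_nonneg (by positivity) (by linarith)
    nlinarith
  linarith

theorem key_even (h0 : 0.7986 ≤ γ) (h1 : γ < 1) {z J : ℝ}
    (hz : z * (γ ^ 4 + γ + γ ^ 2 * ((1 - γ) * (1 + 2 * γ))) ≤ (1 - γ) * (1 + 2 * γ))
    (hJ : 1.04 * γ ≤ J * (1 - γ))
    (H : (J + 2) * ((1 + 2 * γ) / (1 + γ)) - γ / (1 + γ) ^ 2 ≤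
      z * (2 * γ + 4 * γ ^ 4 / (1 - γ ^ 2) ^ 2)) : False := by
  have hγ : 0 < γ := by linarith
  have h1γ : 0 < 1 - γ := by linarith
  have hn : 0 < 1 - γ ^ 2 := by nlinarith
  set D := γ ^ 4 + γ + γ ^ 2 * ((1 - γ) * (1 + 2 * γ)) with hD
  have hDpos : 0 < D := by rw [hD]; positivity
  -- clear denominators
  have H1 : ((J + 2) * (1 - γ) * ((1 + 2 * γ) * (1 + γ)) - γ * (1 - γ)) * (1 - γ) ≤
      z * (2 * γ * (1 - γ ^ 2) ^ 2 + 4 * γ ^ 4) := by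
    have h3 := mul_le_mul_of_nonneg_right H (by positivity : 0 ≤ (1 - γ ^ 2) ^ 2)
    have e1 : ((J + 2) * ((1 + 2 * γ) / (1 + γ)) - γ / (1 + γ) ^ 2) * (1 - γ ^ 2) ^ 2 =
        ((J + 2) * (1 - γ) * ((1 + 2 * γ) * (1 + γ)) - γ * (1 - γ)) * (1 - γ) := by
      have e0 : 1 - γ ^ 2 = (1 - γ) * (1 + γ) := by ring
      rw [e0]; field_simp
    have e2 : z * (2 * γ + 4 * γ ^ 4 / (1 - γ ^ 2) ^ 2) * (1 - γ ^ 2) ^ 2 =
        z * (2 * γ * (1 - γ ^ 2) ^ 2 + 4 * γ ^ 4) := by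
      field_simp
    rw [e1, e2] at h3
    exact h3
  have H2 : ((J + 2) * (1 - γ) * ((1 + 2 * γ) * (1 + γ)) - γ * (1 - γ)) * D ≤
      (1 + 2 * γ) * (2 * γ * (1 - γ ^ 2) ^ 2 + 4 * γ ^ 4) := by
    have hW : 0 ≤ 2 * γ * (1 - γ ^ 2) ^ 2 + 4 * γ ^ 4 := by positivity
    have h3 := mul_le_mul_of_nonneg_right H1 hDpos.le
    have h4 := mul_le_mul_of_nonneg_right hz hW
    have h5 : (((J + 2) * (1 - γ) * ((1 + 2 * γ) * (1 + γ)) - γ * (1 - γ)) * D) * (1 - γ) ≤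
        ((1 + 2 * γ) * (2 * γ * (1 - γ ^ 2) ^ 2 + 4 * γ ^ 4)) * (1 - γ) := by linarith
    exact le_of_mul_le_mul_right h5 h1γ
  have H3 : (2 - 0.96 * γ) * ((1 + 2 * γ) * (1 + γ)) ≤
      (J + 2) * (1 - γ) * ((1 + 2 * γ) * (1 + γ)) := by
    apply mul_le_mul_of_nonneg_right _ (by positivity)
    norm_num at hJ ⊢
    linarith
  have H4 : ((2 - 0.96 * γ) * ((1 + 2 * γ) * (1 + γ)) - γ * (1 - γ)) * D ≤
      (1 + 2 * γ) * (2 * γ * (1 - γ ^ 2) ^ 2 + 4 * γ ^ 4) :=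
    le_trans (mul_le_mul_of_nonneg_right (by linarith) hDpos.le) H2
  obtain ⟨u, rfl⟩ : ∃ u, γ = 1 - u := ⟨1 - γ, by ring⟩
  have hu0 : 0 ≤ u := by linarith
  have hu1 : u ≤ 0.2014 := by linarith
  have e : ((2 - 0.96 * (1 - u)) * ((1 + 2 * (1 - u)) * (1 + (1 - u))) - (1 - u) * (1 - (1 - u))) *
      D - (1 + 2 * (1 - u)) * (2 * (1 - u) * (1 - (1 - u) ^ 2) ^ 2 + 4 * (1 - u) ^ 4) =
      12 / 25 + u * (962 / 25 - 3568 / 25 * u) + u ^ 3 * (4872 / 25 - 2909 / 25 * u) +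
        u ^ 5 * (544 / 25 + 27 / 5 * u - 48 / 25 * u ^ 2) := by
    rw [hD]; norm_num; ring
  have p1 : 0 ≤ u * (962 / 25 - 3568 / 25 * u) := mul_nonneg hu0 (by norm_num at hu1 ⊢; linarith)
  have p2 : 0 ≤ u ^ 3 * (4872 / 25 - 2909 / 25 * u) :=
    mul_nonneg (by positivity) (by norm_num at hu1 ⊢; linarith)
  have p3 : 0 ≤ u ^ 5 * (544 / 25 + 27 / 5 * u - 48 / 25 * u ^ 2) := by
    apply mul_nonneg (by positivity)
    nlinarith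
  linarith

theorem key_odd (h0 : 0.7986 ≤ γ) (h1 : γ < 1) {z J : ℝ}
    (hz : z * (γ ^ 3 + γ ^ 2 + γ * ((1 - γ) * (1 + 2 * γ))) ≤ (1 - γ) * (1 + 2 * γ))
    (hJ : 1.04 * γ ≤ J * (1 - γ))
    (H : (J + 2) * ((1 + 2 * γ) / (1 + γ)) - γ / (1 + γ) ^ 2 ≤
      z * (2 + 2 * γ ^ 3 * (1 + γ ^ 2) / (1 - γ ^ 2) ^ 2)) : False := by
  have hγ : 0 < γ := by linarith
  have h1γ : 0 < 1 - γ := by linarith
  have hn : 0 < 1 - γ ^ 2 := by nlinarith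
  set D := γ ^ 3 + γ ^ 2 + γ * ((1 - γ) * (1 + 2 * γ)) with hD
  have hDpos : 0 < D := by rw [hD]; positivity
  -- clear denominators
  have H1 : ((J + 2) * (1 - γ) * ((1 + 2 * γ) * (1 + γ)) - γ * (1 - γ)) * (1 - γ) ≤
      z * (2 * (1 - γ ^ 2) ^ 2 + 2 * γ ^ 3 * (1 + γ ^ 2)) := by
    have h3 := mul_le_mul_of_nonneg_right H (by positivity : 0 ≤ (1 - γ ^ 2) ^ 2)
    have e1 : ((J + 2) * ((1 + 2 * γ) / (1 + γ)) - γ / (1 + γ) ^ 2) * (1 - γ ^ 2) ^ 2 =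
        ((J + 2) * (1 - γ) * ((1 + 2 * γ) * (1 + γ)) - γ * (1 - γ)) * (1 - γ) := by
      have e0 : 1 - γ ^ 2 = (1 - γ) * (1 + γ) := by ring
      rw [e0]; field_simp
    have e2 : z * (2 + 2 * γ ^ 3 * (1 + γ ^ 2) / (1 - γ ^ 2) ^ 2) * (1 - γ ^ 2) ^ 2 =
        z * (2 * (1 - γ ^ 2) ^ 2 + 2 * γ ^ 3 * (1 + γ ^ 2)) := by
      field_simp
    rw [e1, e2] at h3
    exact h3
  have H2 : ((J + 2) * (1 - γ) * ((1 + 2 * γ) * (1 + γ)) - γ * (1 - γ)) * D ≤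
      (1 + 2 * γ) * (2 * (1 - γ ^ 2) ^ 2 + 2 * γ ^ 3 * (1 + γ ^ 2)) := by
    have hW : 0 ≤ 2 * (1 - γ ^ 2) ^ 2 + 2 * γ ^ 3 * (1 + γ ^ 2) := by positivity
    have h3 := mul_le_mul_of_nonneg_right H1 hDpos.le
    have h4 := mul_le_mul_of_nonneg_right hz hW
    have h5 : (((J + 2) * (1 - γ) * ((1 + 2 * γ) * (1 + γ)) - γ * (1 - γ)) * D) * (1 - γ) ≤
        ((1 + 2 * γ) * (2 * (1 - γ ^ 2) ^ 2 + 2 * γ ^ 3 * (1 + γ ^ 2))) * (1 - γ) := by linarith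
    exact le_of_mul_le_mul_right h5 h1γ
  have H3 : (2 - 0.96 * γ) * ((1 + 2 * γ) * (1 + γ)) ≤
      (J + 2) * (1 - γ) * ((1 + 2 * γ) * (1 + γ)) := by
    apply mul_le_mul_of_nonneg_right _ (by positivity)
    norm_num at hJ ⊢
    linarith
  have H4 : ((2 - 0.96 * γ) * ((1 + 2 * γ) * (1 + γ)) - γ * (1 - γ)) * D ≤
      (1 + 2 * γ) * (2 * (1 - γ ^ 2) ^ 2 + 2 * γ ^ 3 * (1 + γ ^ 2)) :=
    le_trans (mul_le_mul_of_nonneg_right (by linarith) hDpos.le) H2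
  obtain ⟨u, rfl⟩ : ∃ u, γ = 1 - u := ⟨1 - γ, by ring⟩
  have hu0 : 0 ≤ u := by linarith
  have hu1 : u ≤ 0.2014 := by linarith
  have e : ((2 - 0.96 * (1 - u)) * ((1 + 2 * (1 - u)) * (1 + (1 - u))) - (1 - u) * (1 - (1 - u))) *
      D - (1 + 2 * (1 - u)) * (2 * (1 - (1 - u) ^ 2) ^ 2 + 2 * (1 - u) ^ 3 * (1 + (1 - u) ^ 2)) =
      12 / 25 + u * (962 / 25 - 3562 / 25 * u) + u ^ 3 * (4447 / 25 - 2468 / 25 * u) +
        u ^ 5 * (611 / 25 - 52 / 25 * u) := by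
    rw [hD]; norm_num; ring
  have p1 : 0 ≤ u * (962 / 25 - 3562 / 25 * u) := mul_nonneg hu0 (by norm_num at hu1 ⊢; linarith)
  have p2 : 0 ≤ u ^ 3 * (4447 / 25 - 2468 / 25 * u) :=
    mul_nonneg (by positivity) (by norm_num at hu1 ⊢; linarith)
  have p3 : 0 ≤ u ^ 5 * (611 / 25 - 52 / 25 * u) :=
    mul_nonneg (by positivity) (by norm_num at hu1 ⊢; linarith)
  linarith

end Pool.Agent.Iso
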