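import Pool.Agent.Helper5.Iso.Conv

/-!
# Linear identities for the digits `D k = 1 + (-1)^(k+1) a (k+1) ∈ {0,1,2}`
-/

namespace Pool.Agent.Iso

open Set

variable {γ μ : ℝ}

/-- digits -/
def Dg (a : ℕ → ℝ) (k : ℕ) : ℝ := 1 + (-1) ^ (k + 1) * a (k + 1)

theorem Dg_mem {a : ℕ → ℝ} (ha : IsB a) (k : ℕ) : Dg a k = 0 ∨ Dg a k = 1 ∨ Dg a k = 2 := by
  unfold Dg
  rcases ha.2 (k + 1) with h | h | h <;> rcases neg_one_pow_eq_or ℝ (k + 1) with h' | h' <;>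
    rw [h, h'] <;> norm_num

theorem Dg_nonneg {a : ℕ → ℝ} (ha : IsB a) (k : ℕ) : 0 ≤ Dg a k := by
  rcases Dg_mem ha k with h | h | h <;> rw [h] <;> norm_num

theorem Dg_le {a : ℕ → ℝ} (ha : IsB a) (k : ℕ) : Dg a k ≤ 2 := by
  rcases Dg_mem ha k with h | h | h <;> rw [h] <;> norm_num

theorem hasSum_ev_tail {a : ℕ → ℝ} {x : ℝ} (ha : IsB a) (hx : |x| < 1) (h : ev a x = 0) :
    HasSum (fun k : ℕ => a (k + 1) * x ^ (k + 1)) (-1) := by
  have hs := (summable_of_bd ha.bd hx).hasSum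
  rw [show (∑' n : ℕ, a n * x ^ n) = 0 from h] at hs
  have := (hasSum_nat_add_iff' (f := fun n : ℕ => a n * x ^ n) 1).2 hs
  simpa [ha.1] using this

theorem hasSum_dv_tail {a : ℕ → ℝ} {x : ℝ} (ha : IsB a) (hx : |x| < 1) (h : dv a x = 0) :
    HasSum (fun k : ℕ => ((k : ℝ) + 1) * a (k + 1) * x ^ (k + 1)) 0 := by
  have hs := (summable_dv ha.bd hx).hasSum
  rw [show (∑' n : ℕ, (n : ℝ) * a n * x ^ n) = 0 from h] at hs
  have := (hasSum_nat_add_iff' (f := fun n : ℕ => (n : ℝ) * a n * x ^ n) 1).2 hs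
  simpa using this

theorem hasSum_geo_lin {x : ℝ} (hx : |x| < 1) (c : ℝ) :
    HasSum (fun k : ℕ => (c + k) * x ^ k) (c / (1 - x) + x / (1 - x) ^ 2) := by
  have hx' : ‖x‖ < 1 := hx
  have h1 := (hasSum_geometric_of_norm_lt_one hx').mul_left c
  have h2 := hasSum_coe_mul_geometric_of_norm_lt_one hx'
  have h3 := h1.add h2
  rw [← div_eq_mul_inv] at h3
  have e : (fun k : ℕ => (c + k) * x ^ k) = fun k : ℕ => c * x ^ k + k * x ^ k := by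
    funext k; ring
  rw [e]
  exact h3

/-- The linear combination identity. -/
theorem lin_identity (P : Par γ μ) {a : ℕ → ℝ} (ha : IsB a)
    (h1 : ev a γ = 0) (h2 : dv a γ = 0) (h3 : ev a (-μ) = 0) (n₀ κ : ℝ) :
    HasSum (fun k : ℕ => Dg a k * ((-1) ^ k * (n₀ - (k + 1)) * γ ^ (k + 1) - κ * μ ^ (k + 1)))
      (n₀ * ((1 + 2 * γ) / (1 + γ)) - γ / (1 + γ) ^ 2 - κ * (μ / (1 - μ) - 1)) := by
  have hμ := P.mpos
  have hg := P.g0
  have hγn : |(-γ)| < 1 := by rw [abs_neg]; exact P.absg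
  have hμa : |μ| < 1 := by rw [abs_of_pos hμ]; exact P.m1
  have hμn : |(-μ)| < 1 := by rw [abs_neg]; exact hμa
  -- (I)
  have t1 := hasSum_ev_tail ha P.absg h1
  have g1 := (hasSum_geo_lin hγn 1)
  have g0 := (hasSum_geometric_of_norm_lt_one (show ‖(-γ)‖ < 1 from hγn))
  have t2 := hasSum_dv_tail ha P.absg h2
  have t3 := hasSum_ev_tail ha hμn h3
  have g3 := (hasSum_geometric_of_norm_lt_one (show ‖μ‖ < 1 from hμa))
  have c1 := (g0.mul_left γ).sub t1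
  have c2 := (g1.mul_left γ).sub t2
  have c3 := (g3.mul_left μ).add t3
  have c := ((c1.mul_left n₀).sub c2).sub (c3.mul_left κ)
  have e1 : n₀ * (γ * (1 - -γ)⁻¹ - -1) - (γ * (1 / (1 - -γ) + -γ / (1 - -γ) ^ 2) - 0) -
      κ * (μ * (1 - μ)⁻¹ + -1) =
      n₀ * ((1 + 2 * γ) / (1 + γ)) - γ / (1 + γ) ^ 2 - κ * (μ / (1 - μ) - 1) := by
    have h5 : (1 + γ) ≠ 0 := by linarith
    have h6 : (1 - μ) ≠ 0 := by linarith [P.m1]
    simp only [sub_neg_eq_add]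
    field_simp
    ring
  rw [e1] at c
  have efun : (fun k : ℕ => Dg a k * ((-1) ^ k * (n₀ - (k + 1)) * γ ^ (k + 1) -
      κ * μ ^ (k + 1))) = fun b : ℕ =>
      n₀ * (γ * (-γ) ^ b - a (b + 1) * γ ^ (b + 1)) -
        (γ * ((1 + (b : ℝ)) * (-γ) ^ b) - ((b : ℝ) + 1) * a (b + 1) * γ ^ (b + 1)) -
        κ * (μ * μ ^ b + a (b + 1) * (-μ) ^ (b + 1)) := by
    funext k
    unfold Dg
    have h7 : ((-1 : ℝ) ^ k) * (-1) ^ k = 1 := by rw [← mul_pow]; norm_num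
    rw [neg_pow γ k, neg_pow μ (k + 1)]
    have e2 : (1 + (-1) ^ (k + 1) * a (k + 1)) * ((-1) ^ k * (n₀ - (↑k + 1)) * γ ^ (k + 1)) =
        (-1) ^ k * (n₀ - (↑k + 1)) * γ ^ (k + 1) -
          a (k + 1) * (n₀ - (↑k + 1)) * γ ^ (k + 1) * ((-1) ^ k * (-1) ^ k) := by ring
    rw [mul_sub, e2, h7]
    ring
  rw [efun]
  exact c

end Pool.Agent.Iso
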