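import Pool.Agent.Helper5.Iso.Lin

/-!
# Linear inequalities for the digits
-/

namespace Pool.Agent.Iso

open Set

variable {γ μ : ℝ}

theorem hasSum_par {x : ℝ} (hx : |x| < 1) (c : ℝ) :
    HasSum (fun k : ℕ => (1 + (-1) ^ k) * ((c + k) * x ^ k))
      (2 * c / (1 - x ^ 2) + 4 * x ^ 2 / (1 - x ^ 2) ^ 2) := by
  have h1 := hasSum_geo_lin hx c
  have h2 := hasSum_geo_lin (x := -x) (by rwa [abs_neg]) c
  have h3 := h1.add h2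
  have e : (fun k : ℕ => (1 + (-1) ^ k) * ((c + k) * x ^ k)) =
      fun k : ℕ => (c + k) * x ^ k + (c + k) * (-x) ^ k := by
    funext k
    rw [neg_pow x k]; ring
  have hx1 := abs_lt.1 hx
  have n1 : (1 - x) ≠ 0 := by linarith [hx1.2]
  have n2 : (1 + x) ≠ 0 := by linarith [hx1.1]
  have n3 : (1 - x ^ 2) ≠ 0 := by
    have : 1 - x ^ 2 = (1 - x) * (1 + x) := by ring
    rw [this]; exact mul_ne_zero n1 n2
  have e2 : c / (1 - x) + x / (1 - x) ^ 2 + (c / (1 - -x) + -x / (1 - -x) ^ 2) =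
      2 * c / (1 - x ^ 2) + 4 * x ^ 2 / (1 - x ^ 2) ^ 2 := by
    simp only [sub_neg_eq_add]
    have e3 : 1 - x ^ 2 = (1 - x) * (1 + x) := by ring
    rw [e3]
    field_simp
    ring
  rw [e, ← e2]
  exact h3

/-- general linear inequality with a crude tail -/
theorem lin_le (P : Par γ μ) {a : ℕ → ℝ} (ha : IsB a)
    (h1 : ev a γ = 0) (h2 : dv a γ = 0) (h3 : ev a (-μ) = 0) {M : ℕ} (hM : Odd M)
    {n₀ c κ : ℝ} (hc : 0 ≤ c) (hκ : 0 ≤ κ) (hn : n₀ = M + 1 - c) :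
    n₀ * ((1 + 2 * γ) / (1 + γ)) - γ / (1 + γ) ^ 2 - κ * (μ / (1 - μ) - 1) ≤
      (∑ k ∈ Finset.range M,
        Dg a k * ((-1) ^ k * (n₀ - (k + 1)) * γ ^ (k + 1) - κ * μ ^ (k + 1))) +
      γ ^ (M + 1) * (2 * c / (1 - γ ^ 2) + 4 * γ ^ 2 / (1 - γ ^ 2) ^ 2) := by
  have H := lin_identity P ha h1 h2 h3 n₀ κ
  have hg := P.g0
  have hμ := P.mpos
  have H1 := (hasSum_nat_add_iff' (f := fun k : ℕ =>
    Dg a k * ((-1) ^ k * (n₀ - (k + 1)) * γ ^ (k + 1) - κ * μ ^ (k + 1))) M).2 H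
  have H2 := (hasSum_par P.absg c).mul_left (γ ^ (M + 1))
  have H3 := hasSum_le (fun k => ?_) H1 H2
  · linarith
  · have hd0 := Dg_nonneg ha (k + M)
    have hd2 := Dg_le ha (k + M)
    have e1 : (-1 : ℝ) ^ (k + M) = - (-1) ^ k := by
      rw [pow_add, hM.neg_one_pow]; ring
    rw [e1, hn]
    push_cast
    have e2 : -(-1 : ℝ) ^ k * ((M : ℝ) + 1 - c - (↑k + ↑M + 1)) * γ ^ (k + M + 1) -
        κ * μ ^ (k + M + 1) =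
        (-1) ^ k * (c + k) * γ ^ (k + M + 1) - κ * μ ^ (k + M + 1) := by ring
    rw [e2]
    have hp : 0 ≤ κ * μ ^ (k + M + 1) := by positivity
    have hq : 0 ≤ (c + k) * γ ^ (k + M + 1) := by positivity
    have e3 : γ ^ (M + 1) * ((1 + (-1) ^ k) * ((c + ↑k) * γ ^ k)) =
        (1 + (-1) ^ k) * ((c + ↑k) * γ ^ (k + M + 1)) := by
      rw [show k + M + 1 = k + (M + 1) by ring, pow_add γ k (M + 1)]; ring
    rw [e3]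
    rcases neg_one_pow_eq_or ℝ k with h | h <;> rw [h]
    · nlinarith
    · have : Dg a (k + M) * (-1 * (c + k) * γ ^ (k + M + 1) - κ * μ ^ (k + M + 1)) ≤ 0 :=
        mul_nonpos_of_nonneg_of_nonpos hd0 (by linarith)
      linarith

theorem Dg_mul_nonpos {a : ℕ → ℝ} (ha : IsB a) (k : ℕ) {t : ℝ} (ht : t ≤ 0) : Dg a k * t ≤ 0 :=
  mul_nonpos_of_nonneg_of_nonpos (Dg_nonneg ha k) ht

theorem Dg_mul_le {a : ℕ → ℝ} (ha : IsB a) (k : ℕ) {t u : ℝ} (htu : t ≤ u) (hu : 0 ≤ u) :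
    Dg a k * t ≤ 2 * u := by
  have h0 := Dg_nonneg ha k
  have h2 := Dg_le ha k
  nlinarith

/-- inequality (Ca) -/
theorem ineq_a (P : Par γ μ) {a : ℕ → ℝ} (ha : IsB a)
    (h1 : ev a γ = 0) (h2 : dv a γ = 0) (h3 : ev a (-μ) = 0) {κ : ℝ} (hκ : 0 ≤ κ)
    (k1 : 6 * γ ≤ κ * μ) (k3 : 4 * γ ^ 3 ≤ κ * μ ^ 3) (k5 : 2 * γ ^ 5 ≤ κ * μ ^ 5)
    (k8 : γ ^ 8 ≤ κ * μ ^ 8) :
    7 * ((1 + 2 * γ) / (1 + γ)) - γ / (1 + γ) ^ 2 - κ * (μ / (1 - μ) - 1) ≤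
      γ ^ 10 * (6 / (1 - γ ^ 2) + 4 * γ ^ 2 / (1 - γ ^ 2) ^ 2) := by
  have H := lin_le P ha h1 h2 h3 (M := 9) (by decide) (n₀ := 7) (c := 3) (by norm_num) hκ
    (by norm_num)
  have hg := P.g0
  have hμ := P.mpos
  have hS : (∑ k ∈ Finset.range 9,
      Dg a k * ((-1) ^ k * (7 - ((k : ℝ) + 1)) * γ ^ (k + 1) - κ * μ ^ (k + 1))) ≤ 0 := by
    simp only [Finset.sum_range_succ, Finset.sum_range_zero]
    have hp : ∀ n : ℕ, 0 ≤ κ * μ ^ n := fun n => by positivity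
    have hq : ∀ n : ℕ, 0 ≤ γ ^ n := fun n => by positivity
    have t0 := Dg_mul_nonpos ha 0 (t := (-1) ^ 0 * (7 - (((0 : ℕ) : ℝ) + 1)) * γ ^ (0 + 1) -
      κ * μ ^ (0 + 1)) (by push_cast; linarith)
    have t1 := Dg_mul_nonpos ha 1 (t := (-1) ^ 1 * (7 - (((1 : ℕ) : ℝ) + 1)) * γ ^ (1 + 1) -
      κ * μ ^ (1 + 1)) (by push_cast; norm_num; linarith [hp 2, hq 2])
    have t2 := Dg_mul_nonpos ha 2 (t := (-1) ^ 2 * (7 - (((2 : ℕ) : ℝ) + 1)) * γ ^ (2 + 1) -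
      κ * μ ^ (2 + 1)) (by push_cast; norm_num; linarith)
    have t3 := Dg_mul_nonpos ha 3 (t := (-1) ^ 3 * (7 - (((3 : ℕ) : ℝ) + 1)) * γ ^ (3 + 1) -
      κ * μ ^ (3 + 1)) (by push_cast; norm_num; linarith [hp 4, hq 4])
    have t4 := Dg_mul_nonpos ha 4 (t := (-1) ^ 4 * (7 - (((4 : ℕ) : ℝ) + 1)) * γ ^ (4 + 1) -
      κ * μ ^ (4 + 1)) (by push_cast; norm_num; linarith)
    have t5 := Dg_mul_nonpos ha 5 (t := (-1) ^ 5 * (7 - (((5 : ℕ) : ℝ) + 1)) * γ ^ (5 + 1) -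
      κ * μ ^ (5 + 1)) (by push_cast; norm_num; linarith [hp 6, hq 6])
    have t6 := Dg_mul_nonpos ha 6 (t := (-1) ^ 6 * (7 - (((6 : ℕ) : ℝ) + 1)) * γ ^ (6 + 1) -
      κ * μ ^ (6 + 1)) (by push_cast; norm_num; linarith [hp 7, hq 7])
    have t7 := Dg_mul_nonpos ha 7 (t := (-1) ^ 7 * (7 - (((7 : ℕ) : ℝ) + 1)) * γ ^ (7 + 1) -
      κ * μ ^ (7 + 1)) (by push_cast; norm_num; linarith)
    have t8 := Dg_mul_nonpos ha 8 (t := (-1) ^ 8 * (7 - (((8 : ℕ) : ℝ) + 1)) * γ ^ (8 + 1) -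
      κ * μ ^ (8 + 1)) (by push_cast; norm_num; linarith [hp 9, hq 9])
    linarith
  norm_num at H
  linarith

/-- inequality (Cb) -/
theorem ineq_b (P : Par γ μ) {a : ℕ → ℝ} (ha : IsB a)
    (h1 : ev a γ = 0) (h2 : dv a γ = 0) (h3 : ev a (-μ) = 0) {κ p q : ℝ} (hκ : 0 ≤ κ)
    (k1 : 4 * γ - κ * μ ≤ q) (hq : 0 ≤ q) (k3 : 2 * γ ^ 3 ≤ κ * μ ^ 3) (k6 : γ ^ 6 ≤ κ * μ ^ 6)
    (k8 : 3 * γ ^ 8 - κ * μ ^ 8 ≤ p) (hp : 0 ≤ p) :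
    5 * ((1 + 2 * γ) / (1 + γ)) - γ / (1 + γ) ^ 2 - κ * (μ / (1 - μ) - 1) ≤
      2 * q + 2 * p + γ ^ 10 * (10 / (1 - γ ^ 2) + 4 * γ ^ 2 / (1 - γ ^ 2) ^ 2) := by
  have H := lin_le P ha h1 h2 h3 (M := 9) (by decide) (n₀ := 5) (c := 5) (by norm_num) hκ
    (by norm_num)
  have hg := P.g0
  have hμ := P.mpos
  have hS : (∑ k ∈ Finset.range 9,
      Dg a k * ((-1) ^ k * (5 - ((k : ℝ) + 1)) * γ ^ (k + 1) - κ * μ ^ (k + 1))) ≤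
      2 * q + 2 * p := by
    simp only [Finset.sum_range_succ, Finset.sum_range_zero]
    have hp' : ∀ n : ℕ, 0 ≤ κ * μ ^ n := fun n => by positivity
    have hq' : ∀ n : ℕ, 0 ≤ γ ^ n := fun n => by positivity
    have t0 := Dg_mul_le ha 0 (t := (-1) ^ 0 * (5 - (((0 : ℕ) : ℝ) + 1)) * γ ^ (0 + 1) -
      κ * μ ^ (0 + 1)) (u := q) (by push_cast; linarith) hq
    have t1 := Dg_mul_nonpos ha 1 (t := (-1) ^ 1 * (5 - (((1 : ℕ) : ℝ) + 1)) * γ ^ (1 + 1) -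
      κ * μ ^ (1 + 1)) (by push_cast; norm_num; linarith [hp' 2, hq' 2])
    have t2 := Dg_mul_nonpos ha 2 (t := (-1) ^ 2 * (5 - (((2 : ℕ) : ℝ) + 1)) * γ ^ (2 + 1) -
      κ * μ ^ (2 + 1)) (by push_cast; norm_num; linarith)
    have t3 := Dg_mul_nonpos ha 3 (t := (-1) ^ 3 * (5 - (((3 : ℕ) : ℝ) + 1)) * γ ^ (3 + 1) -
      κ * μ ^ (3 + 1)) (by push_cast; norm_num; linarith [hp' 4, hq' 4])
    have t4 := Dg_mul_nonpos ha 4 (t := (-1) ^ 4 * (5 - (((4 : ℕ) : ℝ) + 1)) * γ ^ (4 + 1) -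
      κ * μ ^ (4 + 1)) (by push_cast; norm_num; linarith [hp' 5, hq' 5])
    have t5 := Dg_mul_nonpos ha 5 (t := (-1) ^ 5 * (5 - (((5 : ℕ) : ℝ) + 1)) * γ ^ (5 + 1) -
      κ * μ ^ (5 + 1)) (by push_cast; norm_num; linarith)
    have t6 := Dg_mul_nonpos ha 6 (t := (-1) ^ 6 * (5 - (((6 : ℕ) : ℝ) + 1)) * γ ^ (6 + 1) -
      κ * μ ^ (6 + 1)) (by push_cast; norm_num; linarith [hp' 7, hq' 7])
    have t7 := Dg_mul_le ha 7 (t := (-1) ^ 7 * (5 - (((7 : ℕ) : ℝ) + 1)) * γ ^ (7 + 1) -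
      κ * μ ^ (7 + 1)) (u := p) (by push_cast; norm_num; linarith) hp
    have t8 := Dg_mul_nonpos ha 8 (t := (-1) ^ 8 * (5 - (((8 : ℕ) : ℝ) + 1)) * γ ^ (8 + 1) -
      κ * μ ^ (8 + 1)) (by push_cast; norm_num; linarith [hp' 9, hq' 9])
    linarith
  norm_num at H
  linarith

end Pool.Agent.Iso
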