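import Pool.Agent.Helper5.Iso.LinB

/-!
# The inequalities for `μ` close to `1/2`
-/

namespace Pool.Agent.Iso

open Set

variable {γ μ : ℝ}

theorem Dg_mul_pow_le (P : Par γ μ) {a : ℕ → ℝ} (ha : IsB a) (h3 : ev a (-μ) = 0) (k : ℕ) :
    Dg a k * μ ^ (k + 1) ≤ μ / (1 - μ) - 1 := by
  have hμ := P.mpos
  have hμa : |μ| < 1 := by rw [abs_of_pos hμ]; exact P.m1
  have hμn : |(-μ)| < 1 := by rw [abs_neg]; exact hμa
  have t3 := hasSum_ev_tail ha hμn h3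
  have g3 := (hasSum_geometric_of_norm_lt_one (show ‖μ‖ < 1 from hμa))
  have c3 := (g3.mul_left μ).add t3
  have e : (fun k : ℕ => μ * μ ^ k + a (k + 1) * (-μ) ^ (k + 1)) =
      fun k : ℕ => Dg a k * μ ^ (k + 1) := by
    funext k
    unfold Dg
    rw [neg_pow μ (k + 1)]; ring
  rw [e] at c3
  have h := le_hasSum c3 k (fun j _ => mul_nonneg (Dg_nonneg ha j) (pow_nonneg hμ.le _))
  rw [div_eq_mul_inv, ← sub_eq_add_neg] at *
  exact h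

/-- digits before `J` vanish and the `J`-th is at most one -/
theorem digits_small (P : Par γ μ) {a : ℕ → ℝ} (ha : IsB a) (h3 : ev a (-μ) = 0) {J' : ℕ}
    (hJ : 2 * μ - 1 < μ ^ (J' + 2)) (hμ2 : μ ^ 2 + μ < 1) :
    (∀ k < J', Dg a k = 0) ∧ Dg a J' ≤ 1 := by
  have hμ := P.mpos
  have hμ1 : 0 < 1 - μ := by linarith [P.m1]
  have hε : (μ / (1 - μ) - 1) * (1 - μ) = 2 * μ - 1 := by field_simp; ring
  have key : ∀ k, Dg a k * μ ^ (k + 1) * (1 - μ) < μ ^ (J' + 2) := by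
    intro k
    have := mul_le_mul_of_nonneg_right (Dg_mul_pow_le P ha h3 k) hμ1.le
    linarith
  constructor
  · intro k hk
    by_contra hne
    have h1 : 1 ≤ Dg a k := by
      rcases Dg_mem ha k with h | h | h
      · exact absurd h hne
      · rw [h]
      · rw [h]; norm_num
    have h2 := key k
    have h4 : μ ^ (J' + 2) ≤ μ ^ (k + 1) * μ ^ 2 := by
      rw [← pow_add]
      exact pow_le_pow_of_le_one hμ.le P.m1.le (by omega)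
    have h5 : 0 < μ ^ (k + 1) := by positivity
    have h6 : μ ^ (k + 1) * (1 - μ) ≤ Dg a k * μ ^ (k + 1) * (1 - μ) := by
      have := mul_le_mul_of_nonneg_right h1 (mul_nonneg h5.le hμ1.le)
      linarith
    have h7 : μ ^ (k + 1) * (1 - μ) < μ ^ (k + 1) * μ ^ 2 := by linarith
    have h8 := lt_of_mul_lt_mul_left h7 h5.le
    linarith
  · rcases Dg_mem ha J' with h | h | h
    · rw [h]; norm_num
    · rw [h]
    · exfalso
      have h2 := key J'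
      rw [h] at h2
      have h5 : 0 < μ ^ (J' + 1) := by positivity
      have h7 : μ ^ (J' + 1) * (2 * (1 - μ)) < μ ^ (J' + 1) * μ := by
        rw [← pow_succ]; linarith
      have h8 := lt_of_mul_lt_mul_left h7 h5.le
      nlinarith [P.m0]

theorem ineq_even (P : Par γ μ) {a : ℕ → ℝ} (ha : IsB a)
    (h1 : ev a γ = 0) (h2 : dv a γ = 0) (h3 : ev a (-μ) = 0) {J' : ℕ} (hJo : Odd J')
    (hJ : 2 * μ - 1 < μ ^ (J' + 2)) (hμ2 : μ ^ 2 + μ < 1) :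
    ((J' : ℝ) + 3) * ((1 + 2 * γ) / (1 + γ)) - γ / (1 + γ) ^ 2 ≤
      γ ^ (J' + 1) * (2 * γ + 4 * γ ^ 4 / (1 - γ ^ 2) ^ 2) := by
  obtain ⟨hd0, hd1⟩ := digits_small P ha h3 hJ hμ2
  have hM : Odd (J' + 4) := by
    obtain ⟨m, hm⟩ := hJo
    exact ⟨m + 2, by omega⟩
  have H := lin_le P ha h1 h2 h3 hM (n₀ := (J' : ℝ) + 3) (c := 2) (by norm_num) le_rfl
    (by push_cast; ring)
  have hg := P.g0
  rw [Finset.sum_range_succ, Finset.sum_range_succ, Finset.sum_range_succ, Finset.sum_range_succ,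
    Finset.sum_eq_zero (fun k hk => by rw [hd0 k (Finset.mem_range.1 hk), zero_mul])] at H
  have e0 : (-1 : ℝ) ^ J' = -1 := hJo.neg_one_pow
  have e1 : (-1 : ℝ) ^ (J' + 1) = 1 := by rw [pow_succ, e0]; norm_num
  have e2 : (-1 : ℝ) ^ (J' + 2) = -1 := by rw [pow_succ, e1]; norm_num
  have e3 : (-1 : ℝ) ^ (J' + 3) = 1 := by rw [pow_succ, e2]; norm_num
  rw [e0, e1, e2, e3] at H
  push_cast at H
  have p0 : 0 < γ ^ (J' + 1) := by positivity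
  have n1 : 0 < 1 - γ ^ 2 := by nlinarith [P.g1]
  have t0 := Dg_nonneg ha J'
  have t1 := Dg_le ha (J' + 1)
  have t3 := Dg_nonneg ha (J' + 3)
  have q0 : 0 ≤ Dg a J' * γ ^ (J' + 1) := by positivity
  have q1 : Dg a (J' + 1) * (γ ^ (J' + 1) * γ) ≤ 2 * (γ ^ (J' + 1) * γ) :=
    mul_le_mul_of_nonneg_right t1 (by positivity)
  have q3 : 0 ≤ Dg a (J' + 3) * (γ ^ (J' + 1) * γ ^ 3) := by positivity
  have r1 : γ ^ (J' + 1 + 1) = γ ^ (J' + 1) * γ := pow_succ _ _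
  have r3 : γ ^ (J' + 3 + 1) = γ ^ (J' + 1) * γ ^ 3 := by ring
  have r4 : γ ^ (J' + 4 + 1) = γ ^ (J' + 1) * γ ^ 4 := by ring
  rw [r1, r3, r4] at H
  have e5 : γ ^ (J' + 1) * (2 * γ + 4 * γ ^ 4 / (1 - γ ^ 2) ^ 2) =
      2 * (γ ^ (J' + 1) * γ) + γ ^ (J' + 1) * γ ^ 4 *
        (2 * 2 / (1 - γ ^ 2) + 4 * γ ^ 2 / (1 - γ ^ 2) ^ 2) := by
    field_simp
    ring
  rw [e5]
  linarith

theorem ineq_odd (P : Par γ μ) {a : ℕ → ℝ} (ha : IsB a)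
    (h1 : ev a γ = 0) (h2 : dv a γ = 0) (h3 : ev a (-μ) = 0) {J' : ℕ} (hJo : Even J')
    (hJ : 2 * μ - 1 < μ ^ (J' + 2)) (hμ2 : μ ^ 2 + μ < 1) :
    ((J' : ℝ) + 3) * ((1 + 2 * γ) / (1 + γ)) - γ / (1 + γ) ^ 2 ≤
      γ ^ (J' + 1) * (2 + 2 * γ ^ 3 * (1 + γ ^ 2) / (1 - γ ^ 2) ^ 2) := by
  obtain ⟨hd0, hd1⟩ := digits_small P ha h3 hJ hμ2
  have hM : Odd (J' + 3) := by
    obtain ⟨m, hm⟩ := hJo
    exact ⟨m + 1, by omega⟩
  have H := lin_le P ha h1 h2 h3 hM (n₀ := (J' : ℝ) + 3) (c := 1) (by norm_num) le_rfl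
    (by push_cast; ring)
  have hg := P.g0
  rw [Finset.sum_range_succ, Finset.sum_range_succ, Finset.sum_range_succ,
    Finset.sum_eq_zero (fun k hk => by rw [hd0 k (Finset.mem_range.1 hk), zero_mul])] at H
  have e0 : (-1 : ℝ) ^ J' = 1 := hJo.neg_one_pow
  have e1 : (-1 : ℝ) ^ (J' + 1) = -1 := by rw [pow_succ, e0]; norm_num
  have e2 : (-1 : ℝ) ^ (J' + 2) = 1 := by rw [pow_succ, e1]; norm_num
  rw [e0, e1, e2] at H
  push_cast at H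
  have p0 : 0 < γ ^ (J' + 1) := by positivity
  have n1 : 0 < 1 - γ ^ 2 := by nlinarith [P.g1]
  have t1 := Dg_nonneg ha (J' + 1)
  have q0 : Dg a J' * γ ^ (J' + 1) ≤ 1 * γ ^ (J' + 1) :=
    mul_le_mul_of_nonneg_right hd1 p0.le
  have q1 : 0 ≤ Dg a (J' + 1) * (γ ^ (J' + 1) * γ) := by positivity
  have r1 : γ ^ (J' + 1 + 1) = γ ^ (J' + 1) * γ := pow_succ _ _
  have r3 : γ ^ (J' + 3 + 1) = γ ^ (J' + 1) * γ ^ 3 := by ring
  rw [r1, r3] at H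
  have e5 : γ ^ (J' + 1) * (2 + 2 * γ ^ 3 * (1 + γ ^ 2) / (1 - γ ^ 2) ^ 2) =
      2 * γ ^ (J' + 1) + γ ^ (J' + 1) * γ ^ 3 *
        (2 * 1 / (1 - γ ^ 2) + 4 * γ ^ 2 / (1 - γ ^ 2) ^ 2) := by
    field_simp
    ring
  rw [e5]
  linarith

end Pool.Agent.Iso
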