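import Pool.Agent.Helper5.Iso.Defs

/-!
# Orbits of `w ↦ -w/μ + e`, `e ∈ {-1,0,1}`, staying in `[-Y, Y]`, `Y = μ/(1-μ)`
-/

namespace Pool.Agent.Iso

open Set

/-- A legal orbit. -/
structure Orb (μ : ℝ) (w : ℕ → ℝ) : Prop where
  bd : ∀ n, |w n| ≤ μ / (1 - μ)
  step : ∀ n, w (n + 1) + w n / μ = -1 ∨ w (n + 1) + w n / μ = 0 ∨ w (n + 1) + w n / μ = 1

/-- The values of the orbits starting at `q`. -/
def V (γ μ q : ℝ) : Set ℝ := {v | ∃ w, Orb μ w ∧ w 0 = q ∧ v = ev w γ}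

/-- Supremum of the values of the orbits starting at `q`. -/
noncomputable def S (γ μ q : ℝ) : ℝ := sSup (V γ μ q)

theorem summable_of_bd {w : ℕ → ℝ} {C γ : ℝ} (hw : ∀ n, |w n| ≤ C) (hγ : |γ| < 1) :
    Summable (fun n : ℕ => w n * γ ^ n) := by
  refine Summable.of_norm_bounded (g := fun n : ℕ => C * |γ| ^ n) ?_ ?_
  · exact (summable_geometric_of_lt_one (abs_nonneg _) hγ).mul_left C
  · intro n
    rw [Real.norm_eq_abs, abs_mul, abs_pow]
    exact mul_le_mul_of_nonneg_right (hw n) (by positivity)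

theorem abs_ev_le {w : ℕ → ℝ} {C γ : ℝ} (hw : ∀ n, |w n| ≤ C) (hγ : |γ| < 1) :
    |ev w γ| ≤ C / (1 - |γ|) := by
  have h := tsum_of_norm_bounded (f := fun n : ℕ => w n * γ ^ n) (g := fun n : ℕ => C * |γ| ^ n)
    (a := C * (1 - |γ|)⁻¹) ((hasSum_geometric_of_lt_one (abs_nonneg _) hγ).mul_left C) (by
      intro n
      rw [Real.norm_eq_abs, abs_mul, abs_pow]
      exact mul_le_mul_of_nonneg_right (hw n) (by positivity))
  rw [Real.norm_eq_abs] at h
  rw [div_eq_mul_inv]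
  exact h

/-- Splitting off the first term. -/
theorem ev_succ {w : ℕ → ℝ} {γ : ℝ} (hs : Summable (fun n : ℕ => w n * γ ^ n)) :
    ev w γ = w 0 + γ * ev (fun n => w (n + 1)) γ := by
  unfold ev
  rw [hs.tsum_eq_zero_add, ← tsum_mul_left]
  simp only [pow_zero, mul_one]
  congr 1
  apply tsum_congr
  intro n
  ring

variable {γ μ : ℝ}

theorem Orb.tail {w : ℕ → ℝ} (h : Orb μ w) (k : ℕ) : Orb μ (fun n => w (n + k)) := by
  refine ⟨fun n => h.bd _, fun n => ?_⟩
  have := h.step (n + k)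
  rw [show n + k + 1 = n + 1 + k by ring] at this
  exact this

theorem Orb.neg {w : ℕ → ℝ} (h : Orb μ w) : Orb μ (fun n => - w n) := by
  refine ⟨fun n => by rw [abs_neg]; exact h.bd n, fun n => ?_⟩
  rcases h.step n with h | h | h
  · right; right; rw [neg_div]; linarith
  · right; left; rw [neg_div]; linarith
  · left; rw [neg_div]; linarith

/-- Prepend a state. -/
theorem Orb.cons {w : ℕ → ℝ} (h : Orb μ w) {q : ℝ} (hq : |q| ≤ μ / (1 - μ))
    (hs : w 0 + q / μ = -1 ∨ w 0 + q / μ = 0 ∨ w 0 + q / μ = 1) :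
    Orb μ (fun n => Nat.casesOn n q w) := by
  refine ⟨fun n => ?_, fun n => ?_⟩
  · cases n with
    | zero => exact hq
    | succ n => exact h.bd n
  · cases n with
    | zero => exact hs
    | succ n => exact h.step n

theorem ev_cons {w : ℕ → ℝ} {q : ℝ} {C : ℝ} (hw : ∀ n, |w n| ≤ C) (hγ : |γ| < 1) :
    ev (fun n => Nat.casesOn n q w) γ = q + γ * ev w γ := by
  have hs : Summable (fun n : ℕ => (fun n => Nat.casesOn n q w : ℕ → ℝ) n * γ ^ n) := by
    apply summable_of_bd (C := max C |q|) _ hγ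
    intro n
    cases n with
    | zero => exact le_max_right _ _
    | succ n => exact le_trans (hw n) (le_max_left _ _)
  rw [ev_succ hs]
  rfl

theorem ev_neg (w : ℕ → ℝ) (γ : ℝ) : ev (fun n => - w n) γ = - ev w γ := by
  unfold ev
  rw [← tsum_neg]
  apply tsum_congr
  intro n
  ring

/-- standing assumptions -/
structure Par (γ μ : ℝ) : Prop where
  g0 : 0 < γ
  g1 : γ < 1
  m0 : 1 / 2 < μ
  m1 : μ < 1

namespace Par

variable (P : Par γ μ)
include P

theorem mpos : 0 < μ := by have := P.m0; linarith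
theorem absg : |γ| < 1 := by rw [abs_of_pos P.g0]; exact P.g1
theorem Yone : 1 < μ / (1 - μ) := by
  rw [lt_div_iff₀ (by linarith [P.m1])]; linarith [P.m0]
theorem Ydiv : μ / (1 - μ) / μ = μ / (1 - μ) + 1 := by
  have h1 : (1 - μ) ≠ 0 := by linarith [P.m1]
  have h2 := P.mpos.ne'
  field_simp
  ring

/-- the default successor is legal -/
theorem succ_legal {q : ℝ} (h0 : 0 ≤ q) (hq : q ≤ μ / (1 - μ)) : |1 - q / μ| ≤ μ / (1 - μ) := by
  have h1 := P.Yone
  have h2 : q / μ ≤ μ / (1 - μ) + 1 := by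
    rw [← P.Ydiv]; exact div_le_div_of_nonneg_right hq P.mpos.le
  have h3 : 0 ≤ q / μ := div_nonneg h0 P.mpos.le
  rw [abs_le]; constructor <;> linarith

/-- the default orbit -/
theorem exists_orb {q : ℝ} (hq : |q| ≤ μ / (1 - μ)) : ∃ w, Orb μ w ∧ w 0 = q := by
  let s : ℝ → ℝ := fun q => if 0 ≤ q then 1 - q / μ else -1 - q / μ
  have hs : ∀ q, |q| ≤ μ / (1 - μ) → |s q| ≤ μ / (1 - μ) := by
    intro q hq
    by_cases h : 0 ≤ q
    · simp only [s, if_pos h]
      exact P.succ_legal h (by rwa [abs_of_nonneg h] at hq)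
    · simp only [s, if_neg h]
      push Not at h
      rw [abs_of_neg h] at hq
      have := P.succ_legal (q := -q) (by linarith) hq
      rw [neg_div] at this
      rw [← abs_neg]
      rw [show -(-1 - q / μ) = 1 - -(q / μ) by ring]
      exact this
  let w : ℕ → ℝ := fun n => s^[n] q
  have hw : ∀ n, |w n| ≤ μ / (1 - μ) := by
    intro n
    induction n with
    | zero => exact hq
    | succ n ih =>
      simp only [w, Function.iterate_succ', Function.comp]
      exact hs _ ih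
  refine ⟨w, ⟨hw, fun n => ?_⟩, rfl⟩
  have : w (n + 1) = s (w n) := by simp only [w, Function.iterate_succ', Function.comp]
  rw [this]
  by_cases h : 0 ≤ w n
  · right; right; simp only [s, if_pos h]; ring
  · left; simp only [s, if_neg h]; ring

theorem V_nonempty {q : ℝ} (hq : |q| ≤ μ / (1 - μ)) : (V γ μ q).Nonempty := by
  obtain ⟨w, hw, h0⟩ := P.exists_orb hq
  exact ⟨_, w, hw, h0, rfl⟩

theorem V_bound {q v : ℝ} (hv : v ∈ V γ μ q) : |v| ≤ μ / (1 - μ) / (1 - γ) := by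
  obtain ⟨w, hw, -, rfl⟩ := hv
  have := abs_ev_le hw.bd P.absg
  rwa [abs_of_pos P.g0] at this

theorem V_bddAbove (q : ℝ) : BddAbove (V γ μ q) :=
  ⟨μ / (1 - μ) / (1 - γ), fun _ hv => (abs_le.1 (P.V_bound hv)).2⟩

omit P in
theorem V_neg {q v : ℝ} (hv : v ∈ V γ μ q) : -v ∈ V γ μ (-q) := by
  obtain ⟨w, hw, h0, rfl⟩ := hv
  exact ⟨fun n => - w n, hw.neg, by simp [h0], by rw [ev_neg]⟩

theorem V_cons {q q' v : ℝ} (hq : |q| ≤ μ / (1 - μ)) (hv : v ∈ V γ μ q')
    (hs : q' + q / μ = -1 ∨ q' + q / μ = 0 ∨ q' + q / μ = 1) : q + γ * v ∈ V γ μ q := by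
  obtain ⟨w, hw, h0, rfl⟩ := hv
  refine ⟨fun n => Nat.casesOn n q w, hw.cons hq (by rw [h0]; exact hs), rfl, ?_⟩
  rw [ev_cons hw.bd P.absg]

theorem V_uncons {q v : ℝ} (hv : v ∈ V γ μ q) : ∃ q', |q'| ≤ μ / (1 - μ) ∧
    (q' + q / μ = -1 ∨ q' + q / μ = 0 ∨ q' + q / μ = 1) ∧ (v - q) / γ ∈ V γ μ q' := by
  obtain ⟨w, hw, h0, rfl⟩ := hv
  refine ⟨w 1, hw.bd 1, ?_, fun n => w (n + 1), hw.tail 1, rfl, ?_⟩
  · have := hw.step 0
    rw [h0] at this
    exact this
  · rw [ev_succ (summable_of_bd hw.bd P.absg), h0]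
    have := P.g0.ne'
    field_simp
    ring

theorem le_S {q v : ℝ} (hv : v ∈ V γ μ q) : v ≤ S γ μ q := le_csSup (P.V_bddAbove q) hv

theorem S_le {q c : ℝ} (hq : |q| ≤ μ / (1 - μ)) (h : ∀ v ∈ V γ μ q, v ≤ c) : S γ μ q ≤ c :=
  csSup_le (P.V_nonempty hq) h

theorem exists_lt_of_lt_S {q t : ℝ} (hq : |q| ≤ μ / (1 - μ)) (h : t < S γ μ q) :
    ∃ v ∈ V γ μ q, t < v := exists_lt_of_lt_csSup (P.V_nonempty hq) h

theorem S_step {q q' : ℝ} (hq : |q| ≤ μ / (1 - μ)) (hq' : |q'| ≤ μ / (1 - μ))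
    (hs : q' + q / μ = -1 ∨ q' + q / μ = 0 ∨ q' + q / μ = 1) :
    q + γ * S γ μ q' ≤ S γ μ q := by
  have h : S γ μ q' ≤ (S γ μ q - q) / γ := by
    apply P.S_le hq'
    intro v hv
    rw [le_div_iff₀ P.g0]
    have := P.le_S (P.V_cons hq hv hs)
    linarith
  rw [le_div_iff₀ P.g0] at h
  linarith

theorem S_bound {q : ℝ} (hq : |q| ≤ μ / (1 - μ)) : -(μ / (1 - μ) / (1 - γ)) ≤ S γ μ q := by
  obtain ⟨v, hv⟩ := P.V_nonempty hq
  exact le_trans (abs_le.1 (P.V_bound hv)).1 (P.le_S hv)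

end Par

/-- `t` is strictly between two values of orbits from `q`. -/
def Good (γ μ q t : ℝ) : Prop := (∃ v ∈ V γ μ q, t < v) ∧ (∃ v ∈ V γ μ q, v < t)

/-- Overlap condition. -/
def Overlap (γ μ : ℝ) : Prop := ∀ p, |p| ≤ μ / (1 - μ) → |p + 1| ≤ μ / (1 - μ) →
  (∃ v ∈ V γ μ p, ∃ v' ∈ V γ μ (p + 1), v < v') ∧ (∃ v ∈ V γ μ p, ∃ v' ∈ V γ μ (p + 1), v' < v)

/-- The gap lemma. -/
theorem gap (P : Par γ μ) (hO : Overlap γ μ) {q t : ℝ}
    (hg : Good γ μ q t) :
    ∃ q', |q'| ≤ μ / (1 - μ) ∧ (q' + q / μ = -1 ∨ q' + q / μ = 0 ∨ q' + q / μ = 1) ∧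
      Good γ μ q' ((t - q) / γ) := by
  set t' := (t - q) / γ with ht'
  by_contra hcon
  push Not at hcon
  -- legality
  have hlt : ∀ v, t < v → t' < (v - q) / γ := by
    intro v hv
    rw [ht']
    exact div_lt_div_of_pos_right (by linarith) P.g0
  have hlt' : ∀ v, v < t → (v - q) / γ < t' := by
    intro v hv
    rw [ht']
    exact div_lt_div_of_pos_right (by linarith) P.g0
  obtain ⟨⟨v, hv, htv⟩, ⟨u, hu, htu⟩⟩ := hg
  obtain ⟨pa, hpa, hsa, hva⟩ := P.V_uncons hv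
  obtain ⟨pb, hpb, hsb, hvb⟩ := P.V_uncons hu
  have hA : ∃ v ∈ V γ μ pa, t' < v := ⟨_, hva, hlt _ htv⟩
  have hB : ∃ v ∈ V γ μ pb, v < t' := ⟨_, hvb, hlt' _ htu⟩
  -- propagation of values above the target
  have up : ∀ p, |p| ≤ μ / (1 - μ) → |p + 1| ≤ μ / (1 - μ) →
      (p + q / μ = -1 ∨ p + q / μ = 0 ∨ p + q / μ = 1) →
      (∃ v ∈ V γ μ p, t' < v) → (∃ v ∈ V γ μ (p + 1), t' < v) := by
    intro p hp hp1 hs hab
    obtain ⟨v, hv, v', hv', hvv⟩ := (hO p hp hp1).1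
    refine ⟨v', hv', ?_⟩
    by_contra hle
    push Not at hle
    exact hcon p hp hs ⟨hab, v, hv, by linarith⟩
  have down : ∀ p, |p| ≤ μ / (1 - μ) → |p + 1| ≤ μ / (1 - μ) →
      ((p + 1) + q / μ = -1 ∨ (p + 1) + q / μ = 0 ∨ (p + 1) + q / μ = 1) →
      (∃ v ∈ V γ μ (p + 1), t' < v) → (∃ v ∈ V γ μ p, t' < v) := by
    intro p hp hp1 hs hab
    obtain ⟨v, hv, v', hv', hvv⟩ := (hO p hp hp1).2
    refine ⟨v, hv, ?_⟩
    by_contra hle
    push Not at hle
    exact hcon (p + 1) hp1 hs ⟨hab, v', hv', by linarith⟩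
  have key : ∃ v ∈ V γ μ pb, t' < v := by
    rcases hsa with ha | ha | ha <;> rcases hsb with hb | hb | hb
    · have : pb = pa := by linarith
      rw [this]; exact hA
    · have e : pb = pa + 1 := by linarith
      rw [e]
      exact up pa hpa (by rw [← e]; exact hpb) (Or.inl ha) hA
    · have e : pb = pa + 1 + 1 := by linarith
      have hmid : |pa + 1| ≤ μ / (1 - μ) := by
        rw [e] at hpb
        rw [abs_le] at hpa hpb ⊢
        constructor <;> linarith
      rw [e]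
      exact up (pa + 1) hmid (by rw [← e]; exact hpb) (Or.inr (Or.inl (by linarith)))
        (up pa hpa hmid (Or.inl ha) hA)
    · have e : pa = pb + 1 := by linarith
      exact down pb hpb (by rw [← e]; exact hpa) (Or.inr (Or.inl (by linarith))) (by rw [← e]; exact hA)
    · have : pb = pa := by linarith
      rw [this]; exact hA
    · have e : pb = pa + 1 := by linarith
      rw [e]
      exact up pa hpa (by rw [← e]; exact hpb) (Or.inr (Or.inl ha)) hA
    · have e : pa = pb + 1 + 1 := by linarith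
      have hmid : |pb + 1| ≤ μ / (1 - μ) := by
        rw [e] at hpa
        rw [abs_le] at hpa hpb ⊢
        constructor <;> linarith
      have h1 : ∃ v ∈ V γ μ (pb + 1), t' < v :=
        down (pb + 1) hmid (by rw [← e]; exact hpa) (Or.inr (Or.inr (by linarith)))
          (by rw [← e]; exact hA)
      exact down pb hpb hmid (Or.inr (Or.inl (by linarith))) h1
    · have e : pa = pb + 1 := by linarith
      exact down pb hpb (by rw [← e]; exact hpa) (Or.inr (Or.inr (by linarith))) (by rw [← e]; exact hA)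
    · have : pb = pa := by linarith
      rw [this]; exact hA
  exact hcon pb hpb hsb ⟨key, hB⟩

/-- Iterating the gap lemma: an orbit all of whose states are good. -/
theorem exists_good_orbit (P : Par γ μ) (hO : Overlap γ μ) {q t : ℝ} (hq : |q| ≤ μ / (1 - μ))
    (hg : Good γ μ q t) :
    ∃ w, Orb μ w ∧ w 0 = q ∧ ev w γ = t ∧ ∀ n, Good γ μ (w n) (ev (fun k => w (k + n)) γ) := by
  -- state space
  let X := {x : ℝ × ℝ // |x.1| ≤ μ / (1 - μ) ∧ Good γ μ x.1 x.2}
  have hstep : ∀ x : X, ∃ y : X,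
      (y.1.1 + x.1.1 / μ = -1 ∨ y.1.1 + x.1.1 / μ = 0 ∨ y.1.1 + x.1.1 / μ = 1) ∧
      y.1.2 = (x.1.2 - x.1.1) / γ := by
    rintro ⟨⟨q, t⟩, hq, hg⟩
    obtain ⟨q', h1, h2, h3⟩ := gap P hO hg
    exact ⟨⟨(q', (t - q) / γ), h1, h3⟩, h2, rfl⟩
  choose F hF using hstep
  let x0 : X := ⟨(q, t), hq, hg⟩
  let x : ℕ → X := fun n => F^[n] x0
  have hx : ∀ n, x (n + 1) = F (x n) := by
    intro n
    simp only [x, Function.iterate_succ', Function.comp]
  let w : ℕ → ℝ := fun n => (x n).1.1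
  let τ : ℕ → ℝ := fun n => (x n).1.2
  have hbd : ∀ n, |w n| ≤ μ / (1 - μ) := fun n => (x n).2.1
  have hgood : ∀ n, Good γ μ (w n) (τ n) := fun n => (x n).2.2
  have hst : ∀ n, w (n + 1) + w n / μ = -1 ∨ w (n + 1) + w n / μ = 0 ∨
      w (n + 1) + w n / μ = 1 := by
    intro n
    have := (hF (x n)).1
    rw [← hx] at this
    exact this
  have hτ : ∀ n, τ (n + 1) = (τ n - w n) / γ := by
    intro n
    have := (hF (x n)).2
    rw [← hx] at this
    exact this
  have hw : Orb μ w := ⟨hbd, hst⟩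
  have hg0 := P.g0.ne'
  have hτb : ∀ n, |τ n| ≤ μ / (1 - μ) / (1 - γ) := by
    intro n
    obtain ⟨⟨v, hv, h1⟩, ⟨u, hu, h2⟩⟩ := hgood n
    have hv' := abs_le.1 (P.V_bound hv)
    have hu' := abs_le.1 (P.V_bound hu)
    rw [abs_le]; constructor <;> linarith
  -- τ n is the value of the tail
  have hval : ∀ n, ev (fun k => w (k + n)) γ = τ n := by
    intro n
    have hpart : ∀ m, (∑ k ∈ Finset.range m, w (k + n) * γ ^ k) = τ n - γ ^ m * τ (m + n) := by
      intro m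
      induction m with
      | zero => simp
      | succ m ih =>
        rw [Finset.sum_range_succ, ih, show m + 1 + n = m + n + 1 by ring, hτ, pow_succ]
        field_simp
        ring
    have hs : Summable (fun k : ℕ => w (k + n) * γ ^ k) :=
      summable_of_bd (fun k => hbd (k + n)) P.absg
    have h1 := hs.hasSum.tendsto_sum_nat
    have h2 : Filter.Tendsto (fun m => τ n - γ ^ m * τ (m + n)) Filter.atTop (nhds (τ n)) := by
      have h3 : Filter.Tendsto (fun m => γ ^ m * τ (m + n)) Filter.atTop (nhds 0) := by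
        have h4 : Filter.Tendsto (fun m : ℕ => γ ^ m * (μ / (1 - μ) / (1 - γ))) Filter.atTop
            (nhds (0 * (μ / (1 - μ) / (1 - γ)))) :=
          (tendsto_pow_atTop_nhds_zero_of_lt_one P.g0.le P.g1).mul_const _
        rw [zero_mul] at h4
        refine squeeze_zero_norm (fun m => ?_) h4
        rw [Real.norm_eq_abs, abs_mul, abs_of_pos (pow_pos P.g0 m)]
        exact mul_le_mul_of_nonneg_left (hτb _) (pow_pos P.g0 m).le
      have h5 := h3.const_sub (τ n)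
      rwa [sub_zero] at h5
    rw [show (fun m => ∑ k ∈ Finset.range m, w (k + n) * γ ^ k) =
      (fun m => τ n - γ ^ m * τ (m + n)) from funext hpart] at h1
    exact tendsto_nhds_unique h1 h2
  refine ⟨w, hw, rfl, ?_, fun n => ?_⟩
  · exact hval 0
  · rw [hval n]; exact hgood n

end Pool.Agent.Iso
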