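import Pool.Agent.Helper5.Iso.LinC

/-!
# `μ < 16/25`
-/

namespace Pool.Agent.Iso

open Set

variable {γ μ : ℝ}

theorem frac_mono {g₁ g : ℝ} (h0 : 0 < g₁) (h : g₁ ≤ g) :
    (1 + 2 * g₁) / (1 + g₁) ≤ (1 + 2 * g) / (1 + g) := by
  rw [div_le_div_iff₀ (by linarith) (by linarith)]
  nlinarith

theorem frac_quarter {g : ℝ} (h0 : 0 < g) : g / (1 + g) ^ 2 ≤ 1 / 4 := by
  rw [div_le_div_iff₀ (by positivity) (by norm_num)]
  nlinarith [sq_nonneg (1 - g)]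

theorem cellA (P : Par γ μ) {a : ℕ → ℝ} (ha : IsB a)
    (h1 : ev a γ = 0) (h2 : dv a γ = 0) (h3 : ev a (-μ) = 0)
    (hm : 16 / 25 ≤ μ) (hp : γ * μ < 1 / 2) {g₁ g₂ : ℝ} (hg₁ : g₁ ≤ γ) (hg₂ : γ ≤ g₂)
    (h0 : 1 / 2 < g₁) (h22 : g₂ < 1)
    (hnum : g₂ ^ 10 * (6 / (1 - g₂ ^ 2) + 4 * g₂ ^ 2 / (1 - g₂ ^ 2) ^ 2) <
      7 * ((1 + 2 * g₁) / (1 + g₁)) - 1 / 4 - 6 * g₂ * (1 / (1 - 1 / (2 * g₁)) - 2 * g₁)) :
    False := by
  have hμ := P.mpos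
  have hμ1 := P.m1
  have hg := P.g0
  have hg1 := P.g1
  have hκμ : 6 * γ / μ * μ = 6 * γ := by field_simp
  have hγu : γ ≤ 25 / 32 := by nlinarith
  have hγ2 : γ ^ 2 ≤ (25 / 32) ^ 2 := pow_le_pow_left₀ hg.le hγu 2
  have hγ4 : γ ^ 4 ≤ (25 / 32) ^ 4 := pow_le_pow_left₀ hg.le hγu 4
  have hγ7 : γ ^ 7 ≤ (25 / 32) ^ 7 := pow_le_pow_left₀ hg.le hγu 7
  have hμ2 : (16 / 25 : ℝ) ^ 2 ≤ μ ^ 2 := pow_le_pow_left₀ (by norm_num) hm 2
  have hμ4 : (16 / 25 : ℝ) ^ 4 ≤ μ ^ 4 := pow_le_pow_left₀ (by norm_num) hm 4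
  have hμ7 : (16 / 25 : ℝ) ^ 7 ≤ μ ^ 7 := pow_le_pow_left₀ (by norm_num) hm 7
  have e3 : 6 * γ / μ * μ ^ 3 = γ * (6 * μ ^ 2) := by field_simp
  have e5 : 6 * γ / μ * μ ^ 5 = γ * (6 * μ ^ 4) := by field_simp
  have e8 : 6 * γ / μ * μ ^ 8 = γ * (6 * μ ^ 7) := by field_simp
  have H := ineq_a P ha h1 h2 h3 (κ := 6 * γ / μ) (by positivity) (by rw [hκμ])
    (by
      rw [e3, show 4 * γ ^ 3 = γ * (4 * γ ^ 2) by ring]
      apply mul_le_mul_of_nonneg_left _ hg.le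
      norm_num at hγ2 hμ2; linarith)
    (by
      rw [e5, show 2 * γ ^ 5 = γ * (2 * γ ^ 4) by ring]
      apply mul_le_mul_of_nonneg_left _ hg.le
      norm_num at hγ4 hμ4; linarith)
    (by
      rw [e8, show γ ^ 8 = γ * γ ^ 7 by ring]
      apply mul_le_mul_of_nonneg_left _ hg.le
      norm_num at hγ7 hμ7; linarith)
  have b1 := frac_mono (by linarith : 0 < g₁) hg₁
  have b2 := frac_quarter hg
  have hml : μ ≤ 1 / (2 * g₁) := by
    rw [le_div_iff₀ (by linarith)]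
    nlinarith
  have hm1 : 1 / (2 * g₁) < 1 := by rw [div_lt_one (by linarith)]; linarith
  have b3 : 6 * γ / μ * (μ / (1 - μ) - 1) ≤ 6 * g₂ * (1 / (1 - 1 / (2 * g₁)) - 2 * g₁) := by
    have e : 6 * γ / μ * (μ / (1 - μ) - 1) = 6 * γ * (1 / (1 - μ) - 1 / μ) := by
      have : (1 - μ) ≠ 0 := by linarith
      field_simp
    rw [e]
    have c1 : 1 / (1 - μ) ≤ 1 / (1 - 1 / (2 * g₁)) :=
      one_div_le_one_div_of_le (by linarith) (by linarith)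
    have c2 : 2 * g₁ ≤ 1 / μ := by
      rw [le_div_iff₀ hμ]
      rw [le_div_iff₀ (by linarith)] at hml
      linarith
    have c3 : 0 ≤ 1 / (1 - μ) - 1 / μ := by
      have : 1 / μ ≤ 1 / (1 - μ) := one_div_le_one_div_of_le (by linarith) (by linarith)
      linarith
    apply mul_le_mul (by linarith) (by linarith) c3 (by linarith)
  have b4 : γ ^ 10 * (6 / (1 - γ ^ 2) + 4 * γ ^ 2 / (1 - γ ^ 2) ^ 2) ≤
      g₂ ^ 10 * (6 / (1 - g₂ ^ 2) + 4 * g₂ ^ 2 / (1 - g₂ ^ 2) ^ 2) := by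
    have hg20 : 0 < g₂ := by linarith
    have hn : 0 < 1 - g₂ ^ 2 := by
      have := pow_lt_one₀ hg20.le h22 (two_ne_zero)
      linarith
    have hn' : 0 < 1 - γ ^ 2 := by
      have := pow_lt_one₀ hg.le hg1 (two_ne_zero)
      linarith
    gcongr
  linarith

theorem regionA (P : Par γ μ) {a : ℕ → ℝ} (ha : IsB a)
    (h1 : ev a γ = 0) (h2 : dv a γ = 0) (h3 : ev a (-μ) = 0)
    (hm : 16 / 25 ≤ μ) (hp : γ * μ < 1 / 2) (hγ : 7 / 10 ≤ γ) : False := by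
  have hγu : γ ≤ 25 / 32 := by nlinarith [P.g0]
  rcases le_total γ (709 / 1000) with h | h
  · exact cellA P ha h1 h2 h3 hm hp hγ h (by norm_num) (by norm_num) (by norm_num)
  rcases le_total γ (73 / 100) with h' | h'
  · exact cellA P ha h1 h2 h3 hm hp h h' (by norm_num) (by norm_num) (by norm_num)
  rcases le_total γ (381 / 500) with h'' | h''
  · exact cellA P ha h1 h2 h3 hm hp h' h'' (by norm_num) (by norm_num) (by norm_num)
  · exact cellA P ha h1 h2 h3 hm hp h'' hγu (by norm_num) (by norm_num) (by norm_num)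

/-- chord bound for the tenth power -/
theorem pow10_le {g : ℝ} (h0 : 3247 / 5000 ≤ g) (h1 : g ≤ 7 / 10) :
    g ^ 10 ≤ 0.01335 + 0.2948 * (g - 3247 / 5000) := by
  obtain ⟨s, rfl⟩ : ∃ s, g = 3247 / 5000 + s := ⟨g - 3247 / 5000, by ring⟩
  have hs0 : 0 ≤ s := by linarith
  have hs1 : s ≤ 253 / 5000 := by linarith
  have q : s * s ≤ 253 / 5000 * s := mul_le_mul_of_nonneg_right hs1 hs0
  set g := 3247 / 5000 + s with hg
  have p2 : g ^ 2 ≤ 0.42173 + 1.3494 * s := by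
    have : g ^ 2 = (3247 / 5000) ^ 2 + 2 * (3247 / 5000) * s + s * s := by rw [hg]; ring
    rw [this]; norm_num; linarith
  have n2 : 0 ≤ g ^ 2 := by positivity
  have p4 : g ^ 4 ≤ 0.17786 + 1.2304 * s := by
    have e : g ^ 4 = (g ^ 2) ^ 2 := by ring
    have : (g ^ 2) ^ 2 ≤ (0.42173 + 1.3494 * s) ^ 2 := pow_le_pow_left₀ n2 p2 2
    have e2 : (0.42173 + 1.3494 * s) ^ 2 = 0.42173 ^ 2 + 2 * 0.42173 * 1.3494 * s +
      1.3494 ^ 2 * (s * s) := by ring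
    rw [e]; rw [e2] at this
    norm_num at this ⊢
    linarith
  have n4 : 0 ≤ g ^ 4 := by positivity
  have p8 : g ^ 8 ≤ 0.03164 + 0.5143 * s := by
    have e : g ^ 8 = (g ^ 4) ^ 2 := by ring
    have : (g ^ 4) ^ 2 ≤ (0.17786 + 1.2304 * s) ^ 2 := pow_le_pow_left₀ n4 p4 2
    have e2 : (0.17786 + 1.2304 * s) ^ 2 = 0.17786 ^ 2 + 2 * 0.17786 * 1.2304 * s +
      1.2304 ^ 2 * (s * s) := by ring
    rw [e]; rw [e2] at this
    norm_num at this ⊢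
    linarith
  have n8 : 0 ≤ g ^ 8 := by positivity
  have e : g ^ 10 = g ^ 8 * g ^ 2 := by ring
  have : g ^ 8 * g ^ 2 ≤ (0.03164 + 0.5143 * s) * (0.42173 + 1.3494 * s) :=
    mul_le_mul p8 p2 n2 (by positivity)
  have e2 : (0.03164 + 0.5143 * s) * (0.42173 + 1.3494 * s) = 0.03164 * 0.42173 +
      (0.03164 * 1.3494 + 0.5143 * 0.42173) * s + 0.5143 * 1.3494 * (s * s) := by ring
  rw [e]; rw [e2] at this
  have e3 : g - 3247 / 5000 = s := by rw [hg]; ring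
  rw [e3]
  norm_num at this ⊢
  linarith

end Pool.Agent.Iso
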