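import Pool.Agent.Helper5.Iso.Region

/-!
# `μ < 16/25`, second part
-/

namespace Pool.Agent.Iso

open Set

variable {γ μ : ℝ}

theorem tangent_bound {g : ℝ} (h0 : 3247 / 5000 ≤ g) (h1 : g ≤ 7 / 10) :
    (2 * g - 1) * (-0.49 + 16.9 * (g - 0.68)) ≤ 16 * g ^ 5 * (2 * g ^ 2 - 1) := by
  obtain ⟨t, rfl⟩ : ∃ t, g = 17 / 25 + t := ⟨g - 17 / 25, by ring⟩
  have ht0 : -(153 / 5000) ≤ t := by linarith
  have ht1 : t ≤ 1 / 50 := by linarith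
  have e : 16 * (17 / 25 + t) ^ 5 * (2 * (17 / 25 + t) ^ 2 - 1) -
      (2 * (17 / 25 + t) - 1) * (-0.49 + 16.9 * ((17 / 25 + t) - 0.68)) =
      0.00146271309824 - 0.062784692224 * t + t ^ 2 * (13.5952157696 + 165.4874112 * t +
        297.76384 * t ^ 2 + 294.7328 * t ^ 3 + 152.32 * t ^ 4 + 32 * t ^ 5) := by
    norm_num
    ring
  have t3 : -(1 / 1000) ≤ t ^ 3 := by
    have h2 : t ^ 2 ≤ 1 / 1000 := by nlinarith
    nlinarith [sq_nonneg t]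
  have t5 : -(1 / 1000) ≤ t ^ 5 := by
    have h2 : t ^ 2 ≤ 1 / 1000 := by nlinarith
    have e5 : t ^ 5 = t ^ 2 * t ^ 3 := by ring
    rw [e5]
    nlinarith [sq_nonneg t]
  have inner : 8 ≤ 13.5952157696 + 165.4874112 * t +
        297.76384 * t ^ 2 + 294.7328 * t ^ 3 + 152.32 * t ^ 4 + 32 * t ^ 5 := by
    have t2 : 0 ≤ t ^ 2 := by positivity
    have t4 : 0 ≤ t ^ 4 := by positivity
    norm_num
    linarith
  have h3 := mul_le_mul_of_nonneg_left inner (sq_nonneg t)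
  have h4 : 0 ≤ 0.00146271309824 - 0.062784692224 * t + t ^ 2 * 8 := by
    nlinarith [sq_nonneg (t - 0.0039)]
  linarith

theorem chord_bound {g : ℝ} (h0 : 3247 / 5000 ≤ g) (h1 : g ≤ 7 / 10) :
    5 / (1 + g) ≤ 3.0315 - 1.783 * (g - 3247 / 5000) := by
  rw [div_le_iff₀ (by linarith)]
  have h2 : 0 ≤ (g - 3247 / 5000) * (7 / 10 - g) := mul_nonneg (by linarith) (by linarith)
  norm_num
  nlinarith

theorem regionB (P : Par γ μ) {a : ℕ → ℝ} (ha : IsB a)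
    (h1 : ev a γ = 0) (h2 : dv a γ = 0) (h3 : ev a (-μ) = 0)
    (hm : 16 / 25 ≤ μ) (hp : γ * μ < 1 / 2) (hX : 3247 / 10000 ≤ γ ^ 2 * μ)
    (hγ : γ ≤ 7 / 10) : False := by
  have hμ := P.mpos
  have hμ1 := P.m1
  have hg := P.g0
  have hg1 := P.g1
  have hlo : 3247 / 5000 ≤ γ := by
    have : γ ^ 2 * μ = γ * (γ * μ) := by ring
    nlinarith
  have h1μ : 0 < 1 - μ := by linarith
  have h1μ' := h1μ.ne'
  have hγ2 : γ ^ 2 ≤ (7 / 10) ^ 2 := pow_le_pow_left₀ hg.le hγ 2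
  have hγ3 : γ ^ 3 ≤ (7 / 10) ^ 3 := pow_le_pow_left₀ hg.le hγ 3
  have hμ2 : (16 / 25 : ℝ) ^ 2 ≤ μ ^ 2 := pow_le_pow_left₀ (by norm_num) hm 2
  have hμ3 : (16 / 25 : ℝ) ^ 3 ≤ μ ^ 3 := pow_le_pow_left₀ (by norm_num) hm 3
  set κ := 2 * γ ^ 3 / μ ^ 3 with hκ
  have hκ0 : 0 ≤ κ := by positivity
  have e3 : κ * μ ^ 3 = 2 * γ ^ 3 := by rw [hκ]; field_simp
  have e6 : κ * μ ^ 6 = γ ^ 3 * (2 * μ ^ 3) := by rw [hκ]; field_simp
  have e8 : κ * μ ^ 8 = 2 * (γ ^ 3 * μ ^ 5) := by rw [hκ]; field_simp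
  have hq : 0 ≤ 4 * γ - κ * μ := by
    have e1 : (4 * γ - κ * μ) * μ ^ 2 = γ * (4 * μ ^ 2 - 2 * γ ^ 2) := by
      have : κ * μ * μ ^ 2 = κ * μ ^ 3 := by ring
      rw [sub_mul, this, e3]; ring
    have h4 : 0 ≤ γ * (4 * μ ^ 2 - 2 * γ ^ 2) := by
      apply mul_nonneg hg.le
      norm_num at hγ2 hμ2; linarith
    rw [← e1] at h4
    exact nonneg_of_mul_nonneg_left h4 (by positivity)
  -- bound for p
  have hprod : (3247 / 10000 : ℝ) ^ 5 ≤ γ ^ 3 * μ ^ 5 * γ ^ 7 := by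
    have e : γ ^ 3 * μ ^ 5 * γ ^ 7 = (γ ^ 2 * μ) ^ 5 := by ring
    rw [e]
    exact pow_le_pow_left₀ (by norm_num) hX 5
  obtain ⟨p, hp0, hp1, hp2⟩ : ∃ p : ℝ, 0 ≤ p ∧ 3 * γ ^ 8 - κ * μ ^ 8 ≤ p ∧
      2 * p < 0.1537 + 2.679 * (γ - 3247 / 5000) := by
    have hnn : 0 ≤ γ ^ 3 * μ ^ 5 := by positivity
    rcases le_total γ (668 / 1000) with h | h
    · refine ⟨0, le_rfl, ?_, by linarith⟩
      have g7 : γ ^ 7 ≤ (668 / 1000) ^ 7 := pow_le_pow_left₀ hg.le h 7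
      have g8 : γ ^ 8 ≤ (668 / 1000) ^ 8 := pow_le_pow_left₀ hg.le h 8
      have := mul_le_mul_of_nonneg_left g7 hnn
      rw [e8]
      norm_num at this hprod g8 ⊢
      linarith
    · refine ⟨0.0853, by norm_num, ?_, by norm_num; linarith⟩
      have g7 : γ ^ 7 ≤ (7 / 10) ^ 7 := pow_le_pow_left₀ hg.le hγ 7
      have g8 : γ ^ 8 ≤ (7 / 10) ^ 8 := pow_le_pow_left₀ hg.le hγ 8
      have := mul_le_mul_of_nonneg_left g7 hnn
      rw [e8]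
      norm_num at this hprod g8 ⊢
      linarith
  have H := ineq_b P ha h1 h2 h3 hκ0 (q := 4 * γ - κ * μ) le_rfl hq (by rw [e3])
    (by
      rw [e6, show γ ^ 6 = γ ^ 3 * γ ^ 3 by ring]
      apply mul_le_mul_of_nonneg_left _ (by positivity)
      norm_num at hγ3 hμ3; linarith) hp1 hp0
  -- main term
  have hmain : -0.49 + 16.9 * (γ - 0.68) ≤ 2 * (κ * μ) - κ * (μ / (1 - μ) - 1) := by
    have e : 2 * (κ * μ) - κ * (μ / (1 - μ) - 1) =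
        2 * γ ^ 3 * (1 - 2 * μ ^ 2) / (μ ^ 3 * (1 - μ)) := by
      rw [hκ]; field_simp; ring
    rw [e]
    have h2g : 0 < 2 * γ - 1 := by linarith
    have c1 : -0.49 + 16.9 * (γ - 0.68) ≤ 16 * γ ^ 5 * (2 * γ ^ 2 - 1) / (2 * γ - 1) := by
      rw [le_div_iff₀ h2g]
      have := tangent_bound hlo hγ
      linarith
    have c2 : 16 * γ ^ 5 * (2 * γ ^ 2 - 1) / (2 * γ - 1) ≤
        2 * γ ^ 3 * (1 - 2 * μ ^ 2) / (μ ^ 3 * (1 - μ)) := by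
      rw [div_le_div_iff₀ h2g (by positivity)]
      have hw0 : 0 ≤ 1 - 2 * γ ^ 2 := by norm_num at hγ2; linarith
      have hw1 : 1 - 2 * γ ^ 2 ≤ 1 / 2 := by nlinarith
      have hμsq : μ ^ 2 ≤ 1 := by nlinarith
      have hwm : (1 - 2 * γ ^ 2) * μ ^ 2 ≤ 1 / 2 * 1 :=
        mul_le_mul hw1 hμsq (by positivity) (by norm_num)
      have hQ : 0 ≤ (2 * γ - 1) * (1 + 2 * γ * μ) - 2 * (2 * γ - 1) * (1 - 2 * γ ^ 2) * μ ^ 2 +
          4 * γ * (1 - 2 * γ ^ 2) * μ ^ 3 := by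
        have q1 : 0 ≤ 4 * γ * (1 - 2 * γ ^ 2) * μ ^ 3 := by positivity
        have q2 : 0 ≤ (2 * γ - 1) * (1 + 2 * γ * μ - 2 * ((1 - 2 * γ ^ 2) * μ ^ 2)) := by
          apply mul_nonneg h2g.le
          have : 0 ≤ γ * μ := by positivity
          linarith
        linarith
      have hfac : 2 * γ ^ 3 * (1 - 2 * μ ^ 2) * (2 * γ - 1) -
          16 * γ ^ 5 * (2 * γ ^ 2 - 1) * (μ ^ 3 * (1 - μ)) =
          2 * γ ^ 3 * ((1 - 2 * (γ * μ)) *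
            ((2 * γ - 1) * (1 + 2 * γ * μ) - 2 * (2 * γ - 1) * (1 - 2 * γ ^ 2) * μ ^ 2 +
          4 * γ * (1 - 2 * γ ^ 2) * μ ^ 3)) := by ring
      have : 0 ≤ 2 * γ ^ 3 * ((1 - 2 * (γ * μ)) *
            ((2 * γ - 1) * (1 + 2 * γ * μ) - 2 * (2 * γ - 1) * (1 - 2 * γ ^ 2) * μ ^ 2 +
          4 * γ * (1 - 2 * γ ^ 2) * μ ^ 3)) := by
        apply mul_nonneg (by positivity)
        apply mul_nonneg (by linarith) hQ
      linarith
    linarith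
  -- tail
  have hT : γ ^ 10 * (10 / (1 - γ ^ 2) + 4 * γ ^ 2 / (1 - γ ^ 2) ^ 2) ≤
      (0.01335 + 0.2948 * (γ - 3247 / 5000)) * 27.15 := by
    have hn : 0.51 ≤ 1 - γ ^ 2 := by norm_num at hγ2 ⊢; linarith
    have hn0 : 0 < 1 - γ ^ 2 := by norm_num at hn; linarith
    have d1 : 10 / (1 - γ ^ 2) ≤ 10 / 0.51 :=
      div_le_div_of_nonneg_left (by norm_num) (by norm_num) hn
    have d2 : 4 * γ ^ 2 / (1 - γ ^ 2) ^ 2 ≤ 4 * (7 / 10) ^ 2 / 0.51 ^ 2 := by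
      apply div_le_div₀ (by norm_num) (by linarith) (by norm_num)
      exact pow_le_pow_left₀ (by norm_num) hn 2
    apply mul_le_mul (pow10_le hlo hγ) _ (by positivity) _
    · norm_num at d1 d2 ⊢; linarith
    · norm_num; linarith
  have hfr : 10 - (3.0315 - 1.783 * (γ - 3247 / 5000)) ≤ 5 * ((1 + 2 * γ) / (1 + γ)) := by
    have e : 5 * ((1 + 2 * γ) / (1 + γ)) = 10 - 5 / (1 + γ) := by field_simp; ring
    have := chord_bound hlo hγ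
    linarith
  have hq4 := frac_quarter hg
  norm_num at H hmain hT hfr hp2 hq4
  linarith

theorem mu_lt (P : Par γ μ) {a : ℕ → ℝ} (ha : IsB a)
    (h1 : ev a γ = 0) (h2 : dv a γ = 0) (h3 : ev a (-μ) = 0)
    (hp : γ * μ < 1 / 2) (hX : 3247 / 10000 ≤ γ ^ 2 * μ) : μ < 16 / 25 := by
  by_contra hcon
  push Not at hcon
  rcases le_total γ (7 / 10) with h | h
  · exact regionB P ha h1 h2 h3 hcon hp hX h
  · exact regionA P ha h1 h2 h3 hcon hp h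

end Pool.Agent.Iso
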