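import Pool.Agent.Helper5.Iso.Conv

/-!
# Lower bounds for the supremum of the values of orbits
-/

namespace Pool.Agent.Iso

open Set

variable {γ μ : ℝ}

/-- Excess of the supremum over the linear solution. -/
noncomputable def E (γ μ D : ℝ) : ℝ :=
  S γ μ (μ / (1 - μ) - D) - μ / (1 - μ) / (1 + γ) + μ / (γ + μ) * D

namespace Par

variable (P : Par γ μ)
include P

theorem Ymul : μ / (1 - μ) = μ * (μ / (1 - μ) + 1) := by
  have h := P.Ydiv
  rw [div_eq_iff P.mpos.ne'] at h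
  linarith

theorem Bmul : μ / (γ + μ) * (γ + μ) = μ := by
  have := P.g0; have := P.mpos
  field_simp

theorem Amul : μ / (1 - μ) / (1 + γ) * (1 + γ) = μ / (1 - μ) := by
  have := P.g0
  field_simp

omit P in
theorem S_eq (D : ℝ) : S γ μ (μ / (1 - μ) - D) =
    E γ μ D + μ / (1 - μ) / (1 + γ) - μ / (γ + μ) * D := by
  unfold E; ring

theorem B_pos : 0 < μ / (γ + μ) := div_pos P.mpos (by linarith [P.g0, P.mpos])

theorem R1 {d : ℝ} (h0 : 0 ≤ d) (h1 : d ≤ μ / (1 - μ)) :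
    γ ^ 2 * E γ μ d ≤ E γ μ (μ ^ 2 * d) := by
  have hY := P.Ymul
  have hYd := P.Ydiv
  have hYo := P.Yone
  have hB := P.Bmul
  have hA := P.Amul
  have hE1 := Par.S_eq (γ := γ) (μ := μ) d
  have hE2 := Par.S_eq (γ := γ) (μ := μ) (μ ^ 2 * d)
  set Y := μ / (1 - μ) with hYdef
  set B := μ / (γ + μ) with hBdef
  set A := Y / (1 + γ) with hAdef
  have hμ := P.mpos
  have hμ1 := P.m1
  have hg := P.g0
  have a1 : μ * d ≤ Y := by nlinarith
  have a2 : μ ^ 2 * d ≤ Y := by nlinarith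
  have a0 : 0 ≤ μ * d := by positivity
  have a00 : 0 ≤ μ ^ 2 * d := by positivity
  have s1 := P.S_step (q := Y - μ ^ 2 * d) (q' := -(Y - μ * d))
    (by rw [abs_le]; constructor <;> linarith) (by rw [abs_le]; constructor <;> linarith)
    (Or.inr (Or.inr (by rw [sub_div, hYd]; field_simp; ring)))
  have s2 := P.S_step (q := -(Y - μ * d)) (q' := Y - d)
    (by rw [abs_le]; constructor <;> linarith) (by rw [abs_le]; constructor <;> linarith)
    (Or.inl (by rw [neg_div, sub_div, hYd]; field_simp; ring))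
  have s3 : γ * (-(Y - μ * d) + γ * S γ μ (Y - d)) ≤ γ * S γ μ (-(Y - μ * d)) :=
    mul_le_mul_of_nonneg_left s2 hg.le
  rw [hE1] at s3
  rw [hE2] at s1
  have id1 : Y * (1 - γ) + γ ^ 2 * A - A = 0 := by
    have : (1 - γ) * (Y - A * (1 + γ)) = 0 := by rw [hA]; ring
    linarith
  have id2 : -μ ^ 2 * d + γ * μ * d - γ ^ 2 * B * d + B * μ ^ 2 * d = 0 := by
    have : d * (γ - μ) * (μ - B * (γ + μ)) = 0 := by rw [hB]; ring
    linarith
  nlinarith

theorem R2 {d : ℝ} (h0 : μ / (1 - μ) - 1 ≤ d) (h1 : d ≤ μ / (1 - μ)) :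
    γ ^ 2 * (μ / (γ + μ) + E γ μ d) ≤ E γ μ (μ ^ 2 * (d + 1)) := by
  have hY := P.Ymul
  have hYd := P.Ydiv
  have hYo := P.Yone
  have hB := P.Bmul
  have hA := P.Amul
  have hE1 := Par.S_eq (γ := γ) (μ := μ) d
  have hE2 := Par.S_eq (γ := γ) (μ := μ) (μ ^ 2 * (d + 1))
  set Y := μ / (1 - μ) with hYdef
  set B := μ / (γ + μ) with hBdef
  set A := Y / (1 + γ) with hAdef
  have hμ := P.mpos
  have hμ1 := P.m1
  have hg := P.g0
  have a1 : μ * (d + 1) ≤ Y := by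
    rw [hY]; exact mul_le_mul_of_nonneg_left (by linarith) hμ.le
  have a2 : μ ^ 2 * (d + 1) ≤ Y := by
    have : μ * (μ * (d + 1)) ≤ 1 * (μ * (d + 1)) :=
      mul_le_mul_of_nonneg_right hμ1.le (by apply mul_nonneg hμ.le; linarith)
    nlinarith
  have a0 : 0 ≤ μ * (d + 1) := mul_nonneg hμ.le (by linarith)
  have a00 : 0 ≤ μ ^ 2 * (d + 1) := mul_nonneg (by positivity) (by linarith)
  have s1 := P.S_step (q := Y - μ ^ 2 * (d + 1)) (q' := -(Y - μ * (d + 1)))
    (by rw [abs_le]; constructor <;> linarith) (by rw [abs_le]; constructor <;> linarith)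
    (Or.inr (Or.inr (by rw [sub_div, hYd]; field_simp; ring)))
  have s2 := P.S_step (q := -(Y - μ * (d + 1))) (q' := Y - d)
    (by rw [abs_le]; constructor <;> linarith) (by rw [abs_le]; constructor <;> linarith)
    (Or.inr (Or.inl (by rw [neg_div, sub_div, hYd]; field_simp; ring)))
  have s3 : γ * (-(Y - μ * (d + 1)) + γ * S γ μ (Y - d)) ≤ γ * S γ μ (-(Y - μ * (d + 1))) :=
    mul_le_mul_of_nonneg_left s2 hg.le
  rw [hE1] at s3
  rw [hE2] at s1
  have id1 : Y * (1 - γ) + γ ^ 2 * A - A = 0 := by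
    have : (1 - γ) * (Y - A * (1 + γ)) = 0 := by rw [hA]; ring
    linarith
  have id2 : -μ ^ 2 * (d + 1) + γ * μ * (d + 1) - γ ^ 2 * B * (d + 1) + B * μ ^ 2 * (d + 1) = 0 := by
    have : (d + 1) * (γ - μ) * (μ - B * (γ + μ)) = 0 := by rw [hB]; ring
    linarith
  nlinarith

theorem K_ge : γ ^ 2 * (μ / (γ + μ)) ≤
    μ / (γ + μ) * (μ / (1 - μ) - γ * (μ / (1 - μ) - 1)) - (1 - γ) * (μ / (1 - μ) / (1 + γ)) := by
  have h1 : 0 < 1 - μ := by linarith [P.m1]
  have h2 := P.g0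
  have h3 := P.mpos
  have h4 := P.g1
  have e : μ / (γ + μ) * (μ / (1 - μ) - γ * (μ / (1 - μ) - 1)) -
      (1 - γ) * (μ / (1 - μ) / (1 + γ)) - γ ^ 2 * (μ / (γ + μ)) =
      μ * (1 - γ) * γ ^ 2 / ((γ + μ) * (1 + γ)) := by
    field_simp
    ring
  have : 0 ≤ μ * (1 - γ) * γ ^ 2 / ((γ + μ) * (1 + γ)) := by
    apply div_nonneg
    · apply mul_nonneg (mul_nonneg h3.le (by linarith)) (by positivity)
    · positivity
  linarith

theorem R3 {s : ℝ} (h0 : 0 ≤ s) (h1 : s ≤ 1) :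
    γ * E γ μ (μ / (1 - μ) - 1 + s) + γ ^ 2 * (μ / (γ + μ)) ≤ E γ μ (μ / (1 - μ) - μ * s) := by
  have hK := P.K_ge
  have hY := P.Ymul
  have hYd := P.Ydiv
  have hYo := P.Yone
  have hB := P.Bmul
  have hE1 := Par.S_eq (γ := γ) (μ := μ) (μ / (1 - μ) - 1 + s)
  have hE2 := Par.S_eq (γ := γ) (μ := μ) (μ / (1 - μ) - μ * s)
  set Y := μ / (1 - μ) with hYdef
  set B := μ / (γ + μ) with hBdef
  set A := Y / (1 + γ) with hAdef
  have hμ := P.mpos
  have hμ1 := P.m1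
  have hg := P.g0
  have a1 : μ * s ≤ 1 := by nlinarith
  have a0 : 0 ≤ μ * s := by positivity
  have s1 := P.S_step (q := μ * s) (q' := 1 - s)
    (by rw [abs_le]; constructor <;> linarith) (by rw [abs_le]; constructor <;> linarith)
    (Or.inr (Or.inr (by field_simp; ring)))
  have e1 : Y - (Y - 1 + s) = 1 - s := by ring
  have e2 : Y - (Y - μ * s) = μ * s := by ring
  rw [e1] at hE1
  rw [e2] at hE2
  rw [hE1, hE2] at s1
  have id2 : μ * s - γ * B * s - B * μ * s = 0 := by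
    have : s * (μ - B * (γ + μ)) = 0 := by rw [hB]; ring
    linarith
  nlinarith

/-- case analysis for `D ∈ [0, Y]`. -/
theorem cases_D {D : ℝ} (h0 : 0 ≤ D) (h1 : D ≤ μ / (1 - μ)) :
    (∃ d, 0 ≤ d ∧ d ≤ μ / (1 - μ) ∧ D = μ ^ 2 * d ∧ D ≤ μ ^ 2 * (μ / (1 - μ))) ∨
    (∃ d, μ / (1 - μ) - 1 ≤ d ∧ d ≤ μ / (1 - μ) ∧ D = μ ^ 2 * (d + 1)) ∨
    (∃ s, 0 ≤ s ∧ s ≤ 1 ∧ D = μ / (1 - μ) - μ * s) := by
  have hY := P.Ymul
  have hYo := P.Yone
  set Y := μ / (1 - μ) with hYdef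
  have hμ := P.mpos
  have hμ1 := P.m1
  have hμ2 : 0 < μ ^ 2 := by positivity
  rcases le_total D (μ ^ 2 * Y) with h | h
  · left
    refine ⟨D / μ ^ 2, by positivity, ?_, by field_simp, h⟩
    rw [div_le_iff₀ hμ2]; linarith
  · rcases le_total D (μ * Y) with h' | h'
    · right; left
      refine ⟨D / μ ^ 2 - 1, ?_, ?_, by field_simp; ring⟩
      · have : Y ≤ D / μ ^ 2 := by rw [le_div_iff₀ hμ2]; linarith
        linarith
      · have : D / μ ^ 2 ≤ Y + 1 := by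
          rw [div_le_iff₀ hμ2]
          nlinarith
        linarith
    · right; right
      refine ⟨(Y - D) / μ, div_nonneg (by linarith) hμ.le, ?_, by field_simp; ring⟩
      rw [div_le_iff₀ hμ]
      nlinarith

theorem E_bound {D : ℝ} (h0 : 0 ≤ D) (h1 : D ≤ μ / (1 - μ)) :
    -(μ / (1 - μ) / (1 - γ) + μ / (1 - μ) / (1 + γ)) ≤ E γ μ D := by
  have h2 := P.S_bound (q := μ / (1 - μ) - D) (by rw [abs_le]; constructor <;> linarith)
  have h3 := mul_nonneg P.B_pos.le h0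
  unfold E
  linarith

theorem E_nonneg {D : ℝ} (h0 : 0 ≤ D) (h1 : D ≤ μ / (1 - μ)) : 0 ≤ E γ μ D := by
  set C := μ / (1 - μ) / (1 - γ) + μ / (1 - μ) / (1 + γ) with hC
  have hYo := P.Yone
  have hC0 : 0 ≤ C := by
    have h2 : 0 < 1 - γ := by linarith [P.g1]
    have h3 := P.g0
    have : 0 < μ / (1 - μ) := by linarith
    positivity
  have hB := P.B_pos
  have hg := P.g0
  have hg1 := P.g1
  have key : ∀ n : ℕ, ∀ D, 0 ≤ D → D ≤ μ / (1 - μ) → -(C * γ ^ n) ≤ E γ μ D := by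
    intro n
    induction n with
    | zero => intro D h0 h1; rw [pow_zero, mul_one]; exact P.E_bound h0 h1
    | succ n ih =>
      intro D h0 h1
      have hc : 0 ≤ C * γ ^ n := by positivity
      have hgg : γ ^ 2 ≤ γ := by nlinarith
      have hg2 : 0 ≤ γ ^ 2 := by positivity
      have hbnd : γ ^ 2 * -(C * γ ^ n) ≥ -(C * γ ^ (n + 1)) := by
        have e : C * γ ^ (n + 1) = γ * (C * γ ^ n) := by ring
        have e2 := mul_le_mul_of_nonneg_right hgg hc
        rw [e]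
        linarith
      rcases P.cases_D h0 h1 with ⟨d, hd0, hd1, rfl, -⟩ | ⟨d, hd0, hd1, rfl⟩ | ⟨s, hs0, hs1, rfl⟩
      · have h2 := P.R1 hd0 hd1
        have h3 := mul_le_mul_of_nonneg_left (ih d hd0 hd1) hg2
        linarith
      · have h2 := P.R2 hd0 hd1
        have h3 := mul_le_mul_of_nonneg_left (ih d (by linarith) hd1) hg2
        have h4 : 0 ≤ γ ^ 2 * (μ / (γ + μ)) := by positivity
        linarith [mul_add (γ ^ 2) (μ / (γ + μ)) (E γ μ d)]
      · have h2 := P.R3 hs0 hs1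
        have h3 := mul_le_mul_of_nonneg_left (ih (μ / (1 - μ) - 1 + s) (by linarith) (by linarith)) hg.le
        have h4 : 0 ≤ γ ^ 2 * (μ / (γ + μ)) := by positivity
        have e : γ * -(C * γ ^ n) = -(C * γ ^ (n + 1)) := by ring
        linarith
  have hlim : Filter.Tendsto (fun n : ℕ => -(C * γ ^ n)) Filter.atTop (nhds (-(C * 0))) :=
    ((tendsto_pow_atTop_nhds_zero_of_lt_one hg.le hg1).const_mul C).neg
  rw [mul_zero, neg_zero] at hlim
  exact le_of_tendsto' hlim (fun n => key n D h0 h1)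

/-- scaling down a lower bound -/
theorem E_scale {m : ℝ} (hm : 0 ≤ m)
    (h : ∀ D, μ ^ 2 * (μ / (1 - μ)) ≤ D → D ≤ μ / (1 - μ) → m ≤ E γ μ D) (i : ℕ) :
    ∀ D, μ ^ (2 * i + 2) * (μ / (1 - μ)) ≤ D → D ≤ μ / (1 - μ) → γ ^ (2 * i) * m ≤ E γ μ D := by
  have hμ := P.mpos
  have hg := P.g0
  have hg1 := P.g1
  have hμ2 : 0 < μ ^ 2 := by positivity
  have hY : 0 < μ / (1 - μ) := by linarith [P.Yone]
  induction i with
  | zero => intro D h0 h1; simpa using h D (by simpa using h0) h1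
  | succ i ih =>
    intro D h0 h1
    rcases le_total (μ ^ 2 * (μ / (1 - μ))) D with h2 | h2
    · have h3 := h D h2 h1
      have h4 : γ ^ (2 * (i + 1)) ≤ 1 := pow_le_one₀ hg.le hg1.le
      nlinarith
    · have h3 := ih (D / μ ^ 2) (by
        rw [le_div_iff₀ hμ2]
        calc μ ^ (2 * i + 2) * (μ / (1 - μ)) * μ ^ 2 = μ ^ (2 * (i + 1) + 2) * (μ / (1 - μ)) := by ring
          _ ≤ D := h0) (by rw [div_le_iff₀ hμ2]; linarith)
      have hD0 : 0 ≤ D := le_trans (by positivity) h0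
      have h4 := P.R1 (d := D / μ ^ 2) (by positivity) (by rw [div_le_iff₀ hμ2]; linarith)
      rw [show μ ^ 2 * (D / μ ^ 2) = D by field_simp] at h4
      have h5 := mul_le_mul_of_nonneg_left h3 (by positivity : (0 : ℝ) ≤ γ ^ 2)
      calc γ ^ (2 * (i + 1)) * m = γ ^ 2 * (γ ^ (2 * i) * m) := by ring
        _ ≤ E γ μ D := le_trans h5 h4

/-- the basic lower bound -/
theorem E_base {j : ℕ} (hj : μ ^ (2 * j + 2) * (μ / (1 - μ)) ≤ μ / (1 - μ) - 1) :
    ∀ D, μ ^ 2 * (μ / (1 - μ)) ≤ D → D ≤ μ / (1 - μ) →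
      γ ^ 2 * (μ / (γ + μ)) / (1 - γ ^ 2 * γ ^ (2 * j)) ≤ E γ μ D := by
  have hμ := P.mpos
  have hg := P.g0
  have hg1 := P.g1
  have hB := P.B_pos
  have hYo := P.Yone
  set B := μ / (γ + μ) with hBdef
  set r := γ ^ 2 * γ ^ (2 * j) with hr
  have hr0 : 0 ≤ r := by positivity
  have hr1 : r < 1 := by
    rw [hr, ← pow_add]
    exact pow_lt_one₀ hg.le hg1 (by omega)
  have h1r : 0 < 1 - r := by linarith
  set c := γ ^ 2 * B / (1 - r) with hc
  have hcr : c * (1 - r) = γ ^ 2 * B := by rw [hc]; field_simp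
  have hc0 : 0 ≤ c := by rw [hc]; positivity
  have hr1' : ∀ n : ℕ, r ^ n ≤ 1 := fun n => pow_le_one₀ hr0 hr1.le
  have key : ∀ n : ℕ, ∀ D, μ ^ 2 * (μ / (1 - μ)) ≤ D → D ≤ μ / (1 - μ) →
      c * (1 - r ^ n) ≤ E γ μ D := by
    intro n
    induction n with
    | zero =>
      intro D h0 h1
      rw [pow_zero, sub_self, mul_zero]
      exact P.E_nonneg (le_trans (by positivity) h0) h1
    | succ n ih =>
      intro D h0 h1
      set m := c * (1 - r ^ n) with hm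
      have hm0 : 0 ≤ m := by rw [hm]; exact mul_nonneg hc0 (by linarith [hr1' n])
      have hsc := P.E_scale hm0 ih j
      have hD0 : 0 ≤ D := le_trans (by positivity) h0
      have hgoal : c * (1 - r ^ (n + 1)) = γ ^ 2 * (B + γ ^ (2 * j) * m) := by
        have : γ ^ 2 * (B + γ ^ (2 * j) * m) = γ ^ 2 * B + r * m := by rw [hr]; ring
        rw [this, ← hcr, hm, pow_succ]; ring
      rw [hgoal]
      -- second and third case
      have step2 : ∀ d, μ / (1 - μ) - 1 ≤ d → d ≤ μ / (1 - μ) →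
          γ ^ 2 * (B + γ ^ (2 * j) * m) ≤ E γ μ (μ ^ 2 * (d + 1)) := by
        intro d hd0 hd1
        have h2 := P.R2 hd0 hd1
        have h3 := hsc d (le_trans hj hd0) hd1
        have h4 : γ ^ 2 * (B + γ ^ (2 * j) * m) ≤ γ ^ 2 * (B + E γ μ d) :=
          mul_le_mul_of_nonneg_left (by linarith) (by positivity)
        exact le_trans h4 h2
      rcases P.cases_D hD0 h1 with ⟨d, hd0, hd1, hd2, hd3⟩ | ⟨d, hd0, hd1, rfl⟩ | ⟨s, hs0, hs1, rfl⟩
      · -- then D = μ² Y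
        have e : D = μ ^ 2 * ((μ / (1 - μ) - 1) + 1) := by
          have : D = μ ^ 2 * (μ / (1 - μ)) := le_antisymm hd3 h0
          rw [this]; ring
        rw [e]
        exact step2 _ le_rfl (by linarith)
      · exact step2 d hd0 hd1
      · have h2 := P.R3 hs0 hs1
        have h3 := hsc (μ / (1 - μ) - 1 + s) (by linarith) (by linarith)
        have hgg : γ ^ 2 ≤ γ := by nlinarith
        have hE := P.E_nonneg (D := μ / (1 - μ) - 1 + s) (by linarith) (by linarith)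
        have h4 : γ ^ 2 * (γ ^ (2 * j) * m) ≤ γ * E γ μ (μ / (1 - μ) - 1 + s) :=
          mul_le_mul hgg h3 (by positivity) hg.le
        rw [mul_add]
        linarith
  intro D h0 h1
  have hlim : Filter.Tendsto (fun n : ℕ => c * (1 - r ^ n)) Filter.atTop (nhds (c * (1 - 0))) :=
    ((tendsto_pow_atTop_nhds_zero_of_lt_one hr0 hr1).const_sub 1).const_mul c
  rw [sub_zero, mul_one] at hlim
  exact le_of_tendsto' hlim (fun n => key n D h0 h1)

end Par

end Pool.Agent.Iso
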